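import Pool.Agent.MP_47bb2a_mp.H20.Tau
import Pool.Agent.MP_47bb2a_mp.H42.Marton

/-! Depolarising every site a little; the cone of separable operators. -/

open scoped ComplexOrder MatrixOrder ComplexConjugate Kronecker
open Matrix

namespace Pool.Agent.MP_47bb2a_mp.H20

open H97 H42

section

variable {ι A : Type*} [Fintype ι] [DecidableEq ι] [Fintype A] [DecidableEq A]

/-- Depolarisation with rate `δ` of the sites in a list. -/
noncomputable def dep (δ : ℝ) : List ι → Matrix (ι → A) (ι → A) ℂ → Matrix (ι → A) (ι → A) ℂ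
  | [], X => X
  | u :: l, X => (1 - δ) • dep δ l X + δ • T u (dep δ l X)

variable {δ : ℝ} {X Y : Matrix (ι → A) (ι → A) ℂ}

theorem T_rsmul (u : ι) (r : ℝ) (X : Matrix (ι → A) (ι → A) ℂ) : T u (r • X) = r • T u X :=
  (T u).map_smul_of_tower r X

theorem dep_add (l : List ι) (X Y : Matrix (ι → A) (ι → A) ℂ) :
    dep δ l (X + Y) = dep δ l X + dep δ l Y := by
  induction l with
  | nil => rfl
  | cons u l ih => simp only [dep, ih, map_add]; module

theorem dep_smul (l : List ι) (r : ℝ) (X : Matrix (ι → A) (ι → A) ℂ) :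
    dep δ l (r • X) = r • dep δ l X := by
  induction l with
  | nil => rfl
  | cons u l ih => simp only [dep, ih, T_rsmul]; module

theorem dep_sum {α : Type*} (s : Finset α) (l : List ι) (X : α → Matrix (ι → A) (ι → A) ℂ) :
    dep δ l (∑ a ∈ s, X a) = ∑ a ∈ s, dep δ l (X a) := by
  classical
  induction s using Finset.induction_on with
  | empty => simpa using dep_smul l 0 (0 : Matrix (ι → A) (ι → A) ℂ)
  | insert a s ha ih => simp only [Finset.sum_insert ha, dep_add, ih]

theorem dep_nn (h0 : 0 ≤ δ) (h1 : δ ≤ 1) (l : List ι) (h : 0 ≤ X) : 0 ≤ dep δ l X := by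
  induction l with
  | nil => exact h
  | cons u l ih => exact add_nonneg (smul_nn ih (sub_nonneg.2 h1)) (smul_nn (T_nn u ih) h0)

theorem T_le (u : ι) (h : X ≤ Y) : T u X ≤ T u Y := by
  rw [← sub_nonneg, ← map_sub]
  exact T_nn u (sub_nonneg.2 h)

variable [Nonempty A]

theorem dep_one (l : List ι) : dep δ l (1 : Matrix (ι → A) (ι → A) ℂ) = 1 := by
  induction l with
  | nil => rfl
  | cons u l ih => simp only [dep, ih, T_one]; module

theorem dep_trace (l : List ι) (X : Matrix (ι → A) (ι → A) ℂ) : (dep δ l X).trace = X.trace := by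
  induction l with
  | nil => rfl
  | cons u l ih => simp only [dep, trace_add, trace_smul, T_trace, ih]; module

omit [Nonempty A] in
theorem T_T (u v : ι) (X : Matrix (ι → A) (ι → A) ℂ) : T u (T v X) = T v (T u X) := by
  by_cases h : u = v
  · rw [h]
  · rw [T_apply v, T_rsmul, T_apply v]
    simp only [map_sum, (T_mul (fun _ => emb_comm (Ne.symm h) _ _) _).1,
      (T_mul (fun _ => emb_comm (Ne.symm h) _ _) _).2]

theorem T_idem (u : ι) (X : Matrix (ι → A) (ι → A) ℂ) : T u (T u X) = T u X := by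
  have := (T_mul (T_comm u X) 1).1
  rwa [T_one, mul_one] at this

theorem dep_T (h0 : 0 ≤ δ) (h1 : δ ≤ 1) {l : List ι} {u : ι} (hu : u ∈ l) (h : 0 ≤ X) :
    δ • T u (dep δ l X) ≤ dep δ l X := by
  induction l with
  | nil => simp at hu
  | cons v l ih =>
    have hY := dep_nn h0 h1 l h
    by_cases e : u = v
    · subst e
      simp only [dep, map_add, T_rsmul, T_idem, ← add_smul, sub_add_cancel, one_smul]
      exact le_add_of_nonneg_left (smul_nn hY (sub_nonneg.2 h1))
    · have h2 := ih (by simpa [e] using hu)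
      have h3 := add_le_add (smul_le h2 (sub_nonneg.2 h1)) (smul_le (T_le v h2) h0)
      refine le_of_eq_of_le ?_ h3
      simp only [dep, map_add, T_rsmul, T_T u v]
      module

theorem emb_conj_le (h0 : 0 < δ) (h1 : δ < 1) (u : ι) {k : Matrix A A ℂ}
    (hk : (k - 1) * (k - 1)ᴴ ≤ (δ / Fintype.card A) ^ 2 • 1) (h : 0 ≤ X) :
    emb u k * X * (emb u k)ᴴ ≤ ((1 + δ) / (1 - δ)) • ((1 - δ) • X + δ • T u X) := by
  have c := card_pos (A := A)
  set a := emb u (k - 1) with ha
  have e1 : emb u k = 1 + a := by rw [ha, map_sub, map_one, add_sub_cancel]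
  have a1 := op_cs h ![1, δ] (by simp [h0.le]) ![1, δ⁻¹ • a]
  simp only [Fin.sum_univ_two, cons_val_zero, cons_val_one, one_smul, smul_inv_smul₀ h0.ne',
    conjTranspose_one, Matrix.one_mul, Matrix.mul_one, conjTranspose_smul, star_trivial,
    Matrix.smul_mul, Matrix.mul_smul] at a1
  have a2 : a * X * aᴴ ≤ δ ^ 2 • T u X := by
    refine (conj_le (le_T u h) a).trans ?_
    have b1 : a * aᴴ ≤ (δ / Fintype.card A) ^ 2 • 1 := by
      have := emb_le u hk
      rwa [map_mul, emb_rsmul, map_one, ← emb_ct] at this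
    have b2 : Commute (T u X) ((δ / Fintype.card A) ^ 2 • 1 - a * aᴴ) :=
      ((Commute.one_right _).smul_right _).sub_right
        ((T_comm u X _).mul_right (by rw [ha, emb_ct]; exact T_comm u X _))
    have b3 := smul_nn (b2.mul_nonneg (T_nn u h) (sub_nonneg.2 b1))
      (sq_nonneg (Fintype.card A : ℝ))
    rw [← sub_nonneg]
    refine b3.trans_eq ?_
    rw [Matrix.mul_smul, Matrix.smul_mul, ha, ← (T_comm u X _).eq, Matrix.mul_sub,
      Matrix.mul_smul, Matrix.mul_one, smul_sub, smul_smul, Matrix.mul_assoc]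
    congr 2
    field_simp
  rw [e1]
  refine a1.trans ?_
  have d1 : 0 < 1 - δ := sub_pos.2 h1
  have a3 := smul_le a2 (inv_pos.2 h0).le
  have a4 : ((1 + δ) * δ) • T u X ≤ ((1 + δ) / (1 - δ) * δ) • T u X :=
    le_smul (T_nn u h) (mul_le_mul_of_nonneg_right
      (le_div_self (by linarith) d1 (by linarith)) h0.le)
  refine (smul_le (add_le_add_right a3 X) (by linarith)).trans ?_
  rw [smul_add, smul_add, smul_smul, smul_smul, smul_smul, smul_smul, div_mul_cancel₀ _ d1.ne',
    show (1 + δ) * δ⁻¹ * δ ^ 2 = (1 + δ) * δ by field_simp]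
  exact add_le_add_right a4 _

theorem tens_conj_le (h0 : 0 < δ) (h1 : δ < 1) {k : ι → Matrix A A ℂ}
    (hk : ∀ u, (k u - 1) * (k u - 1)ᴴ ≤ (δ / Fintype.card A) ^ 2 • 1) (h : 0 ≤ X) {l : List ι}
    (hl : l.Nodup) : tens (fun i => if i ∈ l.toFinset then k i else 1) * X *
      (tens fun i => if i ∈ l.toFinset then k i else 1)ᴴ ≤
      ((1 + δ) / (1 - δ)) ^ l.length • dep δ l X := by
  induction l with
  | nil => simp [tens_one, dep]
  | cons u l ih =>
    obtain ⟨hu, hl⟩ := List.nodup_cons.1 hl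
    have c0 : 0 ≤ (1 + δ) / (1 - δ) := div_nonneg (by linarith) (by linarith)
    rw [List.toFinset_cons, ← tens_ins (by simpa using hu) _ _ (mul_one _), conjTranspose_mul]
    have a1 := conj_le (ih hl) (emb u (k u))
    rw [Matrix.mul_smul, Matrix.smul_mul] at a1
    have a2 := smul_le (emb_conj_le h0 h1 u (hk u) (dep_nn h0.le h1.le l h))
      (pow_nonneg c0 l.length)
    rw [smul_smul, ← pow_succ] at a2
    refine le_of_eq_of_le ?_ (a1.trans a2)
    simp only [Matrix.mul_assoc]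

end

variable {A B : Type*} {n : ℕ}

theorem tpF_kron (F : Fin n → Matrix A A ℂ) (G : Fin n → Matrix B B ℂ) :
    tpF (fun i => F i ⊗ₖ G i) = cut (tpF F) (tpF G) := by
  ext x y
  simp [tpF, cut, Finset.prod_mul_distrib]

theorem cut_ct (M : Matrix (Fin n → A) (Fin n → A) ℂ) (N : Matrix (Fin n → B) (Fin n → B) ℂ) :
    (cut M N)ᴴ = cut Mᴴ Nᴴ := by
  ext x y
  simp [cut]

variable [Fintype A] [Fintype B]

theorem cut_mul (M M' : Matrix (Fin n → A) (Fin n → A) ℂ)
    (N N' : Matrix (Fin n → B) (Fin n → B) ℂ) : cut M N * cut M' N' = cut (M * M') (N * N') := by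
  rw [cut_eq, cut_eq, cut_eq, submatrix_mul_equiv, mul_kronecker_mul]

theorem cut_psd {M : Matrix (Fin n → A) (Fin n → A) ℂ} {N : Matrix (Fin n → B) (Fin n → B) ℂ}
    (h : M.PosSemidef) (h' : N.PosSemidef) : (cut M N).PosSemidef := by
  classical
  rw [cut_eq]
  exact (h.kronecker h').submatrix _

/-- Nonnegative multiples of separable states. -/
def SC (X : Matrix (Fin n → A × B) (Fin n → A × B) ℂ) : Prop :=
  X = 0 ∨ ∃ c : ℝ, 0 < c ∧ ∃ σ ∈ Sep A B n, X = c • σ

variable {X Y : Matrix (Fin n → A × B) (Fin n → A × B) ℂ}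

theorem SC.smul (h : SC X) {r : ℝ} (hr : 0 ≤ r) : SC (r • X) := by
  rcases hr.eq_or_lt with rfl | hr
  · exact Or.inl (zero_smul _ _)
  rcases h with rfl | ⟨c, hc, σ, h, rfl⟩
  · exact Or.inl (smul_zero _)
  · exact Or.inr ⟨r * c, mul_pos hr hc, σ, h, smul_smul _ _ _⟩

theorem SC.add (h : SC X) (h' : SC Y) : SC (X + Y) := by
  rcases h with rfl | ⟨c, hc, σ, h, rfl⟩
  · rwa [zero_add]
  rcases h' with rfl | ⟨d, hd, τ, h', rfl⟩
  · exact Or.inr ⟨c, hc, σ, h, add_zero _⟩
  have cd := add_pos hc hd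
  refine Or.inr ⟨c + d, cd, _, convex_convexHull ℝ _ h h' (div_pos hc cd).le (div_pos hd cd).le
    (by field_simp), ?_⟩
  rw [smul_add, smul_smul, smul_smul, mul_div_cancel₀ _ cd.ne', mul_div_cancel₀ _ cd.ne']

theorem sc_sum {α : Type*} (s : Finset α) {X : α → Matrix (Fin n → A × B) (Fin n → A × B) ℂ}
    (h : ∀ a, SC (X a)) : SC (∑ a ∈ s, X a) :=
  Finset.sum_induction _ _ (fun _ _ => SC.add) (Or.inl rfl) fun a _ => h a

theorem sc_cut {M : Matrix (Fin n → A) (Fin n → A) ℂ} {N : Matrix (Fin n → B) (Fin n → B) ℂ}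
    (h : M.PosSemidef) (h' : N.PosSemidef) : SC (cut M N) := by
  classical
  rcases (Complex.nonneg_iff.1 h.trace_nonneg).1.eq_or_lt with h0 | h0
  · obtain rfl := h.trace_eq_zero_iff.1 (by rw [trace_re h, ← h0]; simp)
    exact Or.inl (by ext; simp [cut])
  rcases (Complex.nonneg_iff.1 h'.trace_nonneg).1.eq_or_lt with h1 | h1
  · obtain rfl := h'.trace_eq_zero_iff.1 (by rw [trace_re h', ← h1]; simp)
    exact Or.inl (by ext; simp [cut])
  refine Or.inr ⟨_, mul_pos h0 h1, _, subset_convexHull _ _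
    ⟨_, _, norm_state h h0, norm_state h' h1, rfl⟩, ?_⟩
  have a0 : ((M.trace.re : ℝ) : ℂ) ≠ 0 := by exact_mod_cast h0.ne'
  have a1 : ((N.trace.re : ℝ) : ℂ) ≠ 0 := by exact_mod_cast h1.ne'
  ext x y
  simp only [cut, of_apply, Matrix.smul_apply, Complex.real_smul, Complex.ofReal_mul,
    Complex.ofReal_inv]
  field_simp

theorem SC.conj (h : SC X) (M : Matrix (Fin n → A) (Fin n → A) ℂ)
    (N : Matrix (Fin n → B) (Fin n → B) ℂ) : SC (cut M N * X * (cut M N)ᴴ) := by
  rcases h with rfl | ⟨c, hc, σ, h, rfl⟩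
  · exact Or.inl (by simp)
  rw [Matrix.mul_smul, Matrix.smul_mul]
  refine SC.smul (convexHull_min (t := {σ | SC (cut M N * σ * (cut M N)ᴴ)}) ?_ ?_ h) hc.le
  · rintro _ ⟨α, β, h1, h2, rfl⟩
    change SC _
    rw [cut_ct, cut_mul, cut_mul]
    exact sc_cut (h1.1.mul_mul_conjTranspose_same _) (h2.1.mul_mul_conjTranspose_same _)
  · intro x hx y hy a b ha hb _
    change SC _
    rw [Matrix.mul_add, Matrix.add_mul, Matrix.mul_smul, Matrix.smul_mul, Matrix.mul_smul,
      Matrix.smul_mul]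
    exact (SC.smul hx ha).add (SC.smul hy hb)

theorem SC.sep (h : SC X) (h0 : 0 < X.trace.re) : (X.trace.re)⁻¹ • X ∈ Sep A B n := by
  rcases h with rfl | ⟨c, hc, σ, h, rfl⟩
  · simp at h0
  · rwa [trace_smul, (sep_state h).2, Complex.smul_re, Complex.one_re, smul_eq_mul, mul_one,
      inv_smul_smul₀ hc.ne']

variable [DecidableEq A] [DecidableEq B]

theorem emb_kron (u : Fin n) (a : Matrix A A ℂ) (b : Matrix B B ℂ) :
    emb u (a ⊗ₖ b) = cut (emb u a) (emb u b) := by
  refine Eq.trans ?_ (tpF_kron _ _)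
  rw [emb_def]
  congr 1
  funext i
  by_cases h : i = u <;> simp [h]

theorem cut_one : cut (1 : Matrix (Fin n → A) (Fin n → A) ℂ)
    (1 : Matrix (Fin n → B) (Fin n → B) ℂ) = 1 := by
  rw [cut_eq, one_kronecker_one, submatrix_one_equiv]

theorem sc_one : SC (1 : Matrix (Fin n → A × B) (Fin n → A × B) ℂ) :=
  cut_one (A := A) (B := B) (n := n) ▸ sc_cut PosSemidef.one PosSemidef.one

theorem SC.T (h : SC X) (u : Fin n) : SC (T u X) := by
  rw [T_apply]
  refine SC.smul (sc_sum _ fun a => sc_sum _ fun b => ?_) (by positivity)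
  have := h.conj (emb u (single a.1 b.1 1)) (emb u (single a.2 b.2 1))
  rwa [← emb_kron, emb_ct, single_kronecker_single, conjTranspose_single, mul_one, star_one] at this

theorem SC.dep (h : SC X) {δ : ℝ} (h0 : 0 ≤ δ) (h1 : δ ≤ 1) (l : List (Fin n)) :
    SC (dep δ l X) := by
  induction l with
  | nil => exact h
  | cons u l ih => exact (ih.smul (sub_nonneg.2 h1)).add ((ih.T u).smul h0)

theorem cut_comm {L : Matrix (Fin n → A) (Fin n → A) ℂ} {u : Fin n}
    (h : ∀ a, Commute L (emb u a)) (a : Matrix (A × B) (A × B) ℂ) :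
    Commute (cut L (1 : Matrix (Fin n → B) (Fin n → B) ℂ)) (emb u a) := by
  rw [matrix_eq_sum_single a]
  simp only [map_sum]
  refine Commute.sum_right _ _ _ fun x _ => Commute.sum_right _ _ _ fun y _ => ?_
  rw [← mul_one (a x y), ← single_kronecker_single x.1 y.1 x.2 y.2, emb_kron, Commute, SemiconjBy,
    cut_mul, cut_mul, (h _).eq, Matrix.mul_one, Matrix.one_mul]

end Pool.Agent.MP_47bb2a_mp.H20
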