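import Mathlib

/-! The weak law of large numbers for a product of probability vectors. -/

open Filter

namespace Pool.Agent.MP_47bb2a_mp.H20

variable {ι : Type*} [Fintype ι] {p : ι → ℝ}

theorem variance (p1 : ∑ a, p a = 1) {g : ι → ℝ} (g0 : ∑ a, p a * g a = 0) (n : ℕ) :
    ∑ x : Fin n → ι, (∏ i, p (x i)) * (∑ i, g (x i)) ^ 2 = n * ∑ a, p a * g a ^ 2 := by
  have h : ∀ i j : Fin n, ∑ x : Fin n → ι, (∏ k, p (x k)) * (g (x i) * g (x j)) =
      if i = j then ∑ a, p a * g a ^ 2 else 0 := fun i j => by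
    have e : ∑ x : Fin n → ι, (∏ k, p (x k)) * (g (x i) * g (x j)) = ∏ k, ∑ a,
        p a * ((if k = i then g a else 1) * if k = j then g a else 1) := by
      rw [Fintype.prod_sum]
      simp only [Finset.prod_mul_distrib, Finset.prod_ite_eq', Finset.mem_univ, if_true]
    rw [e]
    split_ifs with hij
    · subst hij
      rw [Finset.prod_eq_single i (fun k _ hk => by simp [hk, p1]) (by simp)]
      simp [sq]
    · exact Finset.prod_eq_zero (Finset.mem_univ i) (by simp [hij, g0])
  simp only [sq, Finset.sum_mul_sum]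
  simp only [Finset.mul_sum]
  rw [Finset.sum_comm]
  refine (Finset.sum_congr rfl fun i _ => Finset.sum_comm).trans ?_
  simp [h, sq, Finset.mul_sum]

theorem cheb (p0 : ∀ a, 0 ≤ p a) (p1 : ∑ a, p a = 1) (h : ι → ℝ) {ε η : ℝ} (hε : 0 < ε)
    (hη : 0 < η) : ∀ᶠ n : ℕ in atTop, ∑ x : Fin n → ι, (∏ i, p (x i)) *
      (if |∑ i, h (x i) - n * ∑ a, p a * h a| ≤ ε * n then 0 else 1) ≤ η := by
  set m := ∑ a, p a * h a with hm
  have g0 : ∑ a, p a * (h a - m) = 0 := by
    simp only [mul_sub, Finset.sum_sub_distrib, ← Finset.sum_mul, p1, one_mul, ← hm, sub_self]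
  filter_upwards [eventually_gt_atTop 0, tendsto_natCast_atTop_atTop.eventually_ge_atTop
    ((∑ a, p a * (h a - m) ^ 2) / (ε ^ 2 * η))] with n n0 hn
  have n0' : (0 : ℝ) < n := by exact_mod_cast n0
  have en : 0 < (ε * n) ^ 2 := by positivity
  refine le_of_mul_le_mul_right ?_ en
  rw [Finset.sum_mul]
  refine (Finset.sum_le_sum fun x _ => ?_).trans ((variance p1 g0 n).trans_le ?_)
  · rw [mul_assoc]
    refine mul_le_mul_of_nonneg_left ?_ (Finset.prod_nonneg fun _ _ => p0 _)
    split_ifs with hx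
    · rw [zero_mul]; positivity
    · rw [one_mul, Finset.sum_sub_distrib, ← sq_abs (_ - _)]
      simp only [Finset.sum_const, Finset.card_univ, Fintype.card_fin, nsmul_eq_mul]
      exact pow_le_pow_left₀ (by positivity) (not_le.1 hx).le 2
  · rw [div_le_iff₀ (by positivity)] at hn
    nlinarith

theorem poly_le (k : ℕ) {c : ℝ} (hc : 0 < c) (B : ℝ) :
    ∀ᶠ n : ℕ in atTop, B * ((n : ℝ) + 1) ^ k ≤ Real.exp (c * n) := by
  have h := (tendsto_exp_mul_div_rpow_atTop k c hc).comp
    (tendsto_atTop_add_const_right _ 1 tendsto_natCast_atTop_atTop)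
  filter_upwards [h.eventually_ge_atTop (B * Real.exp c)] with n hn
  simp only [Function.comp, Real.rpow_natCast] at hn
  rw [le_div_iff₀ (by positivity), mul_add, mul_one, Real.exp_add] at hn
  have := Real.exp_pos c
  nlinarith

end Pool.Agent.MP_47bb2a_mp.H20
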