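import Pool.Agent.MP_47bb2a_mp.H97.Defs

/-! Objects used in the statement on conjugate pairs. -/

open scoped Kronecker

namespace Pool.Agent.MP_47bb2a_mp.H20

open H97

/-- `n` copies of `ω` followed by `n` copies of the complex conjugate of `ω`. -/
def pair {ι : Type*} (n : ℕ) (ω : Matrix ι ι ℂ) :
    Matrix (Fin (n + n) → ι) (Fin (n + n) → ι) ℂ :=
  Matrix.of fun x y => (∏ i : Fin n, ω (x (Fin.castAdd n i)) (y (Fin.castAdd n i))) *
    ∏ i : Fin n, star (ω (x (Fin.natAdd n i)) (y (Fin.natAdd n i)))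

/-- The mixed convex roof of the mutual information: the infimum of
`∑ q j * D(τ j ‖ α j ⊗ β j)` over all finite ensembles `ω = ∑ q j • τ j` of states and all
product states `α j ⊗ β j`. -/
noncomputable def roofInfo {A B : Type*} [Fintype A] [Fintype B] [DecidableEq A] [DecidableEq B]
    (ω : Matrix (A × B) (A × B) ℂ) : EReal :=
  ⨅ (k : ℕ) (q : Fin k → ℝ) (τ : Fin k → Matrix (A × B) (A × B) ℂ) (α : Fin k → Matrix A A ℂ)
    (β : Fin k → Matrix B B ℂ) (_ : (∀ j, 0 ≤ q j ∧ IsState (τ j) ∧ IsState (α j) ∧ IsState (β j)) ∧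
      ∑ j, q j = 1 ∧ ω = ∑ j, q j • τ j), ∑ j, (q j : EReal) * relEnt (τ j) (α j ⊗ₖ β j)

/-- Invariance under the transposition of any single copy. -/
def SiteSymm {ι : Type*} {n : ℕ} (σ : Matrix (Fin n → ι) (Fin n → ι) ℂ) : Prop :=
  ∀ (i : Fin n) (x y : Fin n → ι), σ (Function.update x i (y i)) (Function.update y i (x i)) = σ x y

end Pool.Agent.MP_47bb2a_mp.H20
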