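import Pool.Agent.MP_47bb2a_mp.H20.Pair
import Pool.Agent.MP_47bb2a_mp.H20.Defs

/-! The convex set generated by operators of bounded order two divergence from product states. -/

open scoped ComplexOrder MatrixOrder ComplexConjugate Kronecker Topology
open Matrix Filter Real

namespace Pool.Agent.MP_47bb2a_mp.H20

open H97

variable {A B : Type*} [Fintype A] [DecidableEq A] [Fintype B] [DecidableEq B]

/-- Positive definite `Z` with `Tr Z ρ^(-1/2) Z ρ^(-1/2) ≤ 1` for a product state `ρ`. -/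
def C0 (A B : Type*) [Fintype A] [DecidableEq A] [Fintype B] [DecidableEq B] :
    Set (Matrix (A × B) (A × B) ℂ) :=
  {Z | Z.PosDef ∧ ∃ (u : Matrix A A ℂ) (v : Matrix B B ℂ) (a : A → ℝ) (b : B → ℝ), Uni u ∧ Uni v ∧
    (∀ x, 0 < a x) ∧ (∀ x, 0 < b x) ∧ ∑ x, a x = 1 ∧ ∑ x, b x = 1 ∧
    tr (Z * sp (u ⊗ₖ v) fun x => (√(a x.1 * b x.2))⁻¹)
      (Z * sp (u ⊗ₖ v) fun x => (√(a x.1 * b x.2))⁻¹) ≤ 1}

theorem tr_conj_sq {ι : Type*} [Fintype ι] (s Y R : Matrix ι ι ℂ) :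
    tr (s * Y * s * R) (s * Y * s * R) = tr (Y * (s * R * s)) (Y * (s * R * s)) := by
  simp only [tr, Matrix.mul_assoc]
  rw [trace_mul_comm s]
  simp only [Matrix.mul_assoc]

theorem root_inv {ι : Type*} [Fintype ι] [DecidableEq ι] {U : Matrix ι ι ℂ} (hU : Uni U)
    {r : ι → ℝ} (hr : ∀ i, 0 < r i) :
    sp U (fun i => √√(r i)) * sp U (fun i => (√(r i))⁻¹) * sp U (fun i => √√(r i)) = 1 := by
  rw [sp_mul hU, sp_mul hU, ← one_smul ℝ (1 : Matrix ι ι ℂ), ← sp_const hU]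
  congr 1
  ext i
  rw [mul_right_comm, mul_self_sqrt (sqrt_nonneg _), mul_inv_cancel₀ (sqrt_pos.2 (hr i)).ne']

theorem C0_tr {Z : Matrix (A × B) (A × B) ℂ} (h : Z ∈ C0 A B) : Z.trace.re ≤ 1 := by
  obtain ⟨hZ, u, v, a, b, hu, hv, a0, b0, a1, b1, h⟩ := h
  have uv := hu.kron hv
  have r0 : ∀ x : A × B, 0 < a x.1 * b x.2 := fun x => mul_pos (a0 _) (b0 _)
  obtain ⟨s, hs⟩ : ∃ s, s = sp (u ⊗ₖ v) fun x => (√√(a x.1 * b x.2))⁻¹ := ⟨_, rfl⟩
  obtain ⟨r, hr⟩ : ∃ r, r = sp (u ⊗ₖ v) fun x => √(a x.1 * b x.2) := ⟨_, rfl⟩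
  have e1 : s * s = sp (u ⊗ₖ v) fun x => (√(a x.1 * b x.2))⁻¹ := by
    simp only [hs, sp_mul uv, ← mul_inv, mul_self_sqrt (sqrt_nonneg _)]
  have e2 : s * r * s = 1 := by
    rw [hs, hr, sp_mul uv, sp_mul uv, ← one_smul ℝ (1 : Matrix _ _ ℂ), ← sp_const uv]
    congr 1
    ext x
    rw [mul_right_comm, ← mul_inv, mul_self_sqrt (sqrt_nonneg _),
      inv_mul_cancel₀ (sqrt_pos.2 (r0 x)).ne']
  have sH : sᴴ = s := by rw [hs]; exact sp_herm _ _
  have h0 := hZ.posSemidef.mul_mul_conjTranspose_same s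
  rw [sH] at h0
  have h1 := tr_sq_nonneg (h0.1.sub (show r.IsHermitian by rw [hr]; exact sp_herm _ _))
  have h2 : tr (s * Z * s) (s * Z * s) = tr (Z * (s * s)) (Z * (s * s)) := by
    simpa using tr_conj_sq s Z 1
  have h3 : tr (s * Z * s) r = Z.trace.re := by
    rw [tr, Matrix.mul_assoc, Matrix.mul_assoc, trace_mul_comm, Matrix.mul_assoc, e2,
      Matrix.mul_one]
  have h4 : tr r r = 1 := by
    rw [tr, hr, sp_mul uv, sp_trace uv, Complex.ofReal_re]
    simp only [mul_self_sqrt (r0 _).le, Fintype.sum_prod_type, ← Finset.sum_mul_sum, a1, b1,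
      mul_one]
  rw [tr_sub, sub_tr, sub_tr, tr_comm r (_ * _), h2, h3, h4, e1] at h1
  linarith

theorem C0_transpose {Z : Matrix (A × B) (A × B) ℂ} (h : Z ∈ C0 A B) : Zᵀ ∈ C0 A B := by
  obtain ⟨hZ, u, v, a, b, hu, hv, a0, b0, a1, b1, h⟩ := h
  refine ⟨hZ.transpose, _, _, a, b, hu.cj, hv.cj, a0, b0, a1, b1, le_of_eq_of_le ?_ h⟩
  have e : uᴴᵀ ⊗ₖ vᴴᵀ = (u ⊗ₖ v)ᴴᵀ := by rw [conjTranspose_kronecker, kroneckerMap_transpose]
  rw [e, ← sp_transpose, tr, ← transpose_mul, ← transpose_mul, trace_transpose, tr,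
    Matrix.mul_assoc, trace_mul_comm]
  simp only [Matrix.mul_assoc]

theorem base_C0 [Nonempty A] [Nonempty B] :
    Base (convexHull ℝ (C0 A B)) (Fintype.card (A × B) : ℝ)⁻¹ where
  convex := convex_convexHull _ _
  psd _ h := convexHull_min (fun _ h => h.1.posSemidef) convex_psd h
  tr _ h := by
    have := convexHull_min (t := {M | ((1 : Matrix _ _ ℂ) * M).trace.re ≤ 1})
      (fun _ h => by simpa using C0_tr h) (convex_tr 1) h
    simpa using this
  pos := inv_pos.2 H42.card_pos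
  one := by
    have ca := H42.card_pos (A := A)
    have cb := H42.card_pos (A := B)
    refine subset_convexHull _ _ ⟨pd_rsmul PosDef.one (inv_pos.2 H42.card_pos), 1, 1,
      fun _ => (Fintype.card A : ℝ)⁻¹, fun _ => (Fintype.card B : ℝ)⁻¹, uni_one, uni_one,
      fun _ => inv_pos.2 ca, fun _ => inv_pos.2 cb, by simp, by simp, le_of_eq ?_⟩
    rw [sp_const (uni_one.kron uni_one), Matrix.smul_mul, Matrix.one_mul, smul_smul, tr_smul,
      smul_tr, tr_one, trace_one, Complex.natCast_re, ← mul_assoc, mul_mul_mul_comm, ← mul_inv,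
      ← mul_inv, mul_self_sqrt (by positivity), Fintype.card_prod]
    push_cast
    field_simp

theorem polar_good [Nonempty A] [Nonempty B] {G : Matrix (A × B) (A × B) ℂ}
    (hG : Polar (convexHull ℝ (C0 A B)) G) (a : Matrix A A ℂ) (b : Matrix B B ℂ) (ha : a.PosDef)
    (hb : b.PosDef) : ((a ⊗ₖ b) * G * (a ⊗ₖ b) * G).trace.re ≤
      (a * a).trace.re * (b * b).trace.re := by
  obtain ⟨u, a, hu, a0, rfl⟩ := exists_sp_pd ha
  obtain ⟨v, b, hv, b0, rfl⟩ := exists_sp_pd hb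
  have uv := hu.kron hv
  rw [sp_mul hu, sp_mul hv, sp_trace hu, sp_trace hv, Complex.ofReal_re, Complex.ofReal_re,
    kron_sp]
  obtain ⟨ca, hca⟩ : ∃ c, ∑ x, a x * a x = c := ⟨_, rfl⟩
  obtain ⟨cb, hcb⟩ : ∃ c, ∑ x, b x * b x = c := ⟨_, rfl⟩
  rw [hca, hcb]
  have ca0 : 0 < ca :=
    (Finset.sum_pos (fun x _ => mul_pos (a0 x) (a0 x)) Finset.univ_nonempty).trans_eq hca
  have cb0 : 0 < cb :=
    (Finset.sum_pos (fun x _ => mul_pos (b0 x) (b0 x)) Finset.univ_nonempty).trans_eq hcb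
  have r0 : ∀ x : A × B, 0 < a x.1 * a x.1 / ca * (b x.2 * b x.2 / cb) := fun x =>
    mul_pos (div_pos (mul_pos (a0 _) (a0 _)) ca0) (div_pos (mul_pos (b0 _) (b0 _)) cb0)
  obtain ⟨s, hs⟩ : ∃ s, s = sp (u ⊗ₖ v) fun x =>
    √√(a x.1 * a x.1 / ca * (b x.2 * b x.2 / cb)) := ⟨_, rfl⟩
  have spd : s.PosDef := by rw [hs]; exact sp_pd uv fun x => sqrt_pos.2 (sqrt_pos.2 (r0 x))
  have M0 := hG.1.mul_mul_conjTranspose_same s
  rw [spd.1.eq] at M0
  have y0 := (Complex.nonneg_iff.1 M0.trace_nonneg).1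
  have x0 := tr_sq_nonneg M0.1
  have e1 : sp (u ⊗ₖ v) (fun x => a x.1 * b x.2) = √(ca * cb) • (s * s) := by
    rw [hs, sp_mul uv, sp_smul]
    congr 1
    ext x
    rw [mul_self_sqrt (sqrt_nonneg _), ← sqrt_mul (mul_pos ca0 cb0).le, eq_comm,
      sqrt_eq_iff_mul_self_eq (mul_pos (mul_pos ca0 cb0) (r0 x)).le (mul_pos (a0 _) (b0 _)).le]
    field_simp
  have key : ∀ η : ℝ, 0 < η → tr (s * G * s) (s * G * s) ^ 2 ≤ tr (s * G * s) (s * G * s) +
      (2 * η * (s * G * s).trace.re + η ^ 2 * Fintype.card (A × B)) := fun η hη => by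
    have Ypd : (s * G * s + η • 1).PosDef := pd_of_le (pd_rsmul PosDef.one hη) (by simpa using M0)
    have e2 : tr (s * G * s + η • 1) (s * G * s + η • 1) = tr (s * G * s) (s * G * s) +
        (2 * η * (s * G * s).trace.re + η ^ 2 * Fintype.card (A × B)) := by
      rw [tr_add, add_tr, add_tr, tr_comm (η • 1) (s * G * s), tr_smul, tr_smul, smul_tr, tr_one,
        tr_one, trace_one, Complex.natCast_re]
      ring
    rw [← e2]
    obtain ⟨c, hc⟩ : ∃ c, c = tr (s * G * s + η • 1) (s * G * s + η • 1) := ⟨_, rfl⟩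
    have c0 : 0 < c := by
      have := H42.card_pos (A := A × B)
      rw [hc, e2]
      positivity
    have h0 := pd_conj (pd_rsmul Ypd (inv_pos.2 (sqrt_pos.2 c0))) spd
    rw [spd.1.eq] at h0
    have h1 := hG.2 (s * ((√c)⁻¹ • (s * G * s + η • 1)) * s) (subset_convexHull _ _
      ⟨h0, u, v,
        fun x => a x * a x / ca, fun x => b x * b x / cb, hu, hv,
        fun x => div_pos (mul_pos (a0 _) (a0 _)) ca0, fun x => div_pos (mul_pos (b0 _) (b0 _)) cb0,
        by rw [← Finset.sum_div, hca, div_self ca0.ne'],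
        by rw [← Finset.sum_div, hcb, div_self cb0.ne'], by
          have := root_inv uv r0
          rw [← hs] at this
          rw [tr_conj_sq, this, Matrix.mul_one, tr_smul, smul_tr, ← hc,
            ← mul_assoc, ← mul_inv, mul_self_sqrt c0.le, inv_mul_cancel₀ c0.ne']⟩)
    rw [← Matrix.mul_assoc, ← Matrix.mul_assoc, trace_mul_cycle, ← Matrix.mul_assoc, ← tr, tr_smul,
      tr_add, tr_smul, tr_one, inv_mul_le_iff₀ (sqrt_pos.2 c0), mul_one] at h1
    rw [← hc, ← sq_sqrt c0.le]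
    exact pow_le_pow_left₀ x0 (by nlinarith) 2
  have lim : tr (s * G * s) (s * G * s) ^ 2 ≤ tr (s * G * s) (s * G * s) := by
    have h1 : ContinuousAt (fun η : ℝ => tr (s * G * s) (s * G * s) +
      (2 * η * (s * G * s).trace.re + η ^ 2 * Fintype.card (A × B))) 0 := by fun_prop
    simpa using ge_of_tendsto (h1.tendsto.mono_left (nhdsWithin_le_nhds (s := Set.Ioi 0)))
      (eventually_nhdsWithin_of_forall key)
  have h2 : tr (s * G * s) (s * G * s) = tr (G * (s * s)) (G * (s * s)) := by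
    simpa using tr_conj_sq s G 1
  have h3 : tr (s * G * s) (s * G * s) ≤ 1 := by nlinarith
  have e3 : ∀ K : Matrix (A × B) (A × B) ℂ, (K * G * K * G).trace.re = tr (G * K) (G * K) :=
    fun K => by
      rw [tr, trace_mul_comm]
      simp only [Matrix.mul_assoc]
  rw [e1, e3, Matrix.mul_smul, tr_smul, smul_tr, ← mul_assoc, mul_self_sqrt (mul_pos ca0 cb0).le, ← h2]
  exact mul_le_of_le_one_right (mul_pos ca0 cb0).le h3

end Pool.Agent.MP_47bb2a_mp.H20
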