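import Pool.Agent.MP_47bb2a_mp.H20.Sp

/-! Relative entropy of matrices: Klein and Pinsker type inequalities. -/

open scoped ComplexOrder MatrixOrder ComplexConjugate Kronecker
open Matrix

namespace Pool.Agent.MP_47bb2a_mp.H20

open H97

variable {ι : Type*} [Fintype ι] [DecidableEq ι]

open scoped Matrix.Norms.L2Operator in
theorem log_mono {A B : Matrix ι ι ℂ} (hA : A.PosDef) (h : (B - A).PosSemidef) :
    (cfc Real.log B - cfc Real.log A).PosSemidef :=
  CFC.log_le_log (a := A) (b := B) h (isStrictlyPositive_iff_posDef.2 hA)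

open scoped Matrix.Norms.L2Operator in
theorem log_mul {A B : Matrix ι ι ℂ} (hA : A.PosDef) (hB : B.PosDef) (h : A * B = B * A) :
    cfc Real.log (A * B) = cfc Real.log A + cfc Real.log B := by
  have h1 : cfc Real.log A * cfc Real.log B = cfc Real.log B * cfc Real.log A :=
    cfc_intertwine hA.1 hA.1 (cfc_intertwine hB.1 hB.1 h.symm _).symm _
  have h2 : NormedSpace.exp (cfc Real.log A + cfc Real.log B) = A * B := by
    rw [Matrix.exp_add_of_commute _ _ h1]
    exact congrArg₂ _ (CFC.exp_log A (isStrictlyPositive_iff_posDef.2 hA))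
      (CFC.exp_log B (isStrictlyPositive_iff_posDef.2 hB))
  rw [← h2]
  exact CFC.log_exp _ ((cfc_herm _ _).add (cfc_herm _ _))

open scoped Matrix.Norms.L2Operator in
theorem sqrt_mono {A B : Matrix ι ι ℂ} (h : (B - A).PosSemidef) :
    (CFC.sqrt B - CFC.sqrt A).PosSemidef :=
  CFC.sqrt_le_sqrt A B h

theorem log_smul {A : Matrix ι ι ℂ} (hA : A.PosDef) {c : ℝ} (hc : 0 < c) :
    cfc Real.log (c • A) = Real.log c • 1 + cfc Real.log A := by
  obtain ⟨U, d, hU, hd, rfl⟩ := exists_sp_pd hA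
  rw [sp_smul, cfc_sp hU, cfc_sp hU, ← sp_const hU, sp_add]
  simp only [Real.log_mul hc.ne' (hd _).ne']

omit [Fintype ι] [DecidableEq ι] in
theorem pd_rsmul {A : Matrix ι ι ℂ} (hA : A.PosDef) {c : ℝ} (hc : 0 < c) : (c • A).PosDef :=
  hA.smul hc

omit [Fintype ι] [DecidableEq ι] in
theorem pd_of_le {A B : Matrix ι ι ℂ} (hA : A.PosDef) (h : (B - A).PosSemidef) : B.PosDef := by
  simpa using hA.add_posSemidef h

/-- The real part of the trace of a product. -/
noncomputable def tr (A B : Matrix ι ι ℂ) : ℝ := (A * B).trace.re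

omit [DecidableEq ι] in
theorem tr_comm (A B : Matrix ι ι ℂ) : tr A B = tr B A := by rw [tr, trace_mul_comm, tr]

omit [DecidableEq ι] in
theorem tr_add (A B C : Matrix ι ι ℂ) : tr A (B + C) = tr A B + tr A C := by
  simp [tr, Matrix.mul_add]

omit [DecidableEq ι] in
theorem tr_sub (A B C : Matrix ι ι ℂ) : tr A (B - C) = tr A B - tr A C := by
  simp [tr, Matrix.mul_sub]

omit [DecidableEq ι] in
theorem tr_neg (A B : Matrix ι ι ℂ) : tr A (-B) = -tr A B := by simp [tr]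

omit [DecidableEq ι] in
theorem tr_smul (A B : Matrix ι ι ℂ) (c : ℝ) : tr A (c • B) = c * tr A B := by simp [tr]

omit [DecidableEq ι] in
theorem add_tr (A B C : Matrix ι ι ℂ) : tr (A + B) C = tr A C + tr B C := by
  simp [tr, Matrix.add_mul]

omit [DecidableEq ι] in
theorem sub_tr (A B C : Matrix ι ι ℂ) : tr (A - B) C = tr A C - tr B C := by
  simp [tr, Matrix.sub_mul]

omit [DecidableEq ι] in
theorem smul_tr (A B : Matrix ι ι ℂ) (c : ℝ) : tr (c • A) B = c * tr A B := by simp [tr]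

omit [DecidableEq ι] in
theorem tr_sum {α : Type*} (s : Finset α) (A : Matrix ι ι ℂ) (B : α → Matrix ι ι ℂ) :
    tr A (∑ a ∈ s, B a) = ∑ a ∈ s, tr A (B a) := by simp [tr, Finset.mul_sum]

omit [DecidableEq ι] in
theorem sum_tr {α : Type*} (s : Finset α) (A : α → Matrix ι ι ℂ) (B : Matrix ι ι ℂ) :
    tr (∑ a ∈ s, A a) B = ∑ a ∈ s, tr (A a) B := by simp [tr, Finset.sum_mul]

theorem tr_one (A : Matrix ι ι ℂ) : tr A 1 = A.trace.re := by simp [tr]

theorem tr_one_state {A : Matrix ι ι ℂ} (h : IsState A) : tr A 1 = 1 := by simp [tr, h.2]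

omit [DecidableEq ι] in
theorem tr_le {G M N : Matrix ι ι ℂ} (hG : G.PosSemidef) (h : (N - M).PosSemidef) :
    tr G M ≤ tr G N := tr_mono hG h

omit [DecidableEq ι] in
theorem le_tr {G M N : Matrix ι ι ℂ} (hG : G.PosSemidef) (h : (N - M).PosSemidef) :
    tr M G ≤ tr N G := by rw [tr_comm M, tr_comm N]; exact tr_le hG h

theorem tr_le_of_le {G M : Matrix ι ι ℂ} (hG : G.PosSemidef) {c : ℝ}
    (h : (c • (1 : Matrix ι ι ℂ) - M).PosSemidef) : tr G M ≤ c * G.trace.re := by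
  simpa only [tr_smul, tr_one] using tr_le hG h

/-- The relative entropy as a real number. -/
noncomputable def rel (ρ σ : Matrix ι ι ℂ) : ℝ := tr ρ (cfc Real.log ρ - cfc Real.log σ)

theorem relEnt_eq (ρ : Matrix ι ι ℂ) {σ : Matrix ι ι ℂ} (hσ : σ.PosDef) :
    relEnt ρ σ = rel ρ σ := by
  rw [relEnt, if_pos fun v hv => ?_]
  · rfl
  · have : v = 0 := by
      by_contra h0
      have := hσ.re_dotProduct_pos h0
      simp [hv] at this
    simp [this]

theorem rel_ge {ρ σ : Matrix ι ι ℂ} (hρ : ρ.PosSemidef) (hσ : σ.PosDef) :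
    2 * ρ.trace.re - 2 * tr (CFC.sqrt ρ) (CFC.sqrt σ) ≤ rel ρ σ := by
  obtain ⟨U, p, hU, hp, rfl⟩ := exists_sp_psd hρ
  obtain ⟨V, r, hV, hr, rfl⟩ := exists_sp_pd hσ
  have e1 : ∀ f : ι → ℝ, (sp U f).trace.re = tr (sp U f) (sp V fun _ => 1) := fun f => by
    rw [sp_const hV, one_smul, tr_one]
  rw [rel, tr_sub, sqrt_sp hU hp, sqrt_sp hV fun i => (hr i).le, cfc_sp hU, cfc_sp hV, e1,
    tr.eq_1 (sp U p) (sp U _), sp_mul hU, e1]
  simp only [tr, tr_sp_sp, Finset.mul_sum, ← Finset.sum_sub_distrib]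
  refine Finset.sum_le_sum fun i _ => Finset.sum_le_sum fun k _ => ?_
  have h : 2 * p k - 2 * (√(r i) * √(p k)) ≤ p k * Real.log (p k) - Real.log (r i) * p k := by
    rcases (hp k).eq_or_lt with h0 | h0
    · simp [← h0]
    · have a := Real.sqrt_pos.2 (hr i)
      have b := Real.sqrt_pos.2 h0
      have h1 := Real.log_le_sub_one_of_pos (div_pos a b)
      rw [Real.log_div a.ne' b.ne', Real.log_sqrt (hr i).le, Real.log_sqrt h0.le] at h1
      have h2 : p k * (√(r i) / √(p k)) = √(r i) * √(p k) := by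
        nth_rewrite 1 [← Real.mul_self_sqrt h0.le]
        field_simp
      nlinarith
  nlinarith [mul_le_mul_of_nonneg_right h (sq_nonneg ‖(Vᴴ * U) i k‖)]

omit [DecidableEq ι] in
theorem tr_sq_nonneg {E : Matrix ι ι ℂ} (h : E.IsHermitian) : 0 ≤ tr E E := by
  have := (Complex.nonneg_iff.1 (posSemidef_conjTranspose_mul_self E).trace_nonneg).1
  rwa [h.eq] at this

theorem tr_sqrt_self {ρ : Matrix ι ι ℂ} (hρ : ρ.PosSemidef) :
    tr (CFC.sqrt ρ) (CFC.sqrt ρ) = ρ.trace.re := by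
  rw [tr, CFC.sqrt_mul_sqrt_self ρ hρ.nonneg]

theorem sqrt_psd (ρ : Matrix ι ι ℂ) : (CFC.sqrt ρ).PosSemidef := (CFC.sqrt_nonneg ρ).posSemidef

theorem overlap_le {ρ σ : Matrix ι ι ℂ} (hρ : IsState ρ) (hσ : IsState σ) :
    tr (CFC.sqrt ρ) (CFC.sqrt σ) ≤ 1 := by
  have := tr_sq_nonneg ((sqrt_psd ρ).1.sub (sqrt_psd σ).1)
  rw [tr_sub, sub_tr, sub_tr, tr_sqrt_self hρ.1, tr_sqrt_self hσ.1, hρ.2, hσ.2,
    tr_comm (CFC.sqrt σ)] at this
  simp only [Complex.one_re] at this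
  linarith

theorem rel_nonneg {ρ σ : Matrix ι ι ℂ} (hρ : IsState ρ) (hσ : IsState σ) (h : σ.PosDef) :
    0 ≤ rel ρ σ := by
  have := rel_ge hρ.1 h
  have := overlap_le hρ hσ
  simp only [hρ.2, Complex.one_re] at *
  linarith

/-- A linearised Pinsker inequality. -/
theorem pinsker {ρ σ H : Matrix ι ι ℂ} (hρ : IsState ρ) (hσ : IsState σ) (h : σ.PosDef) {C s : ℝ}
    (hC : 0 ≤ C) (hs : 0 < s) (h1 : (C • (1 : Matrix ι ι ℂ) - H).PosSemidef)
    (h2 : (C • (1 : Matrix ι ι ℂ) + H).PosSemidef) :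
    tr σ H ≤ tr ρ H + C * (s * rel ρ σ + 1 / s) := by
  obtain ⟨t, ht, rfl⟩ : ∃ t : ℝ, 0 < t ∧ s = t ^ 2 / 2 :=
    ⟨√(2 * s), Real.sqrt_pos.2 (by linarith), by rw [Real.sq_sqrt (by linarith)]; ring⟩
  set a := CFC.sqrt ρ with ha
  set b := CFC.sqrt σ with hb
  have aa : a * a = ρ := CFC.sqrt_mul_sqrt_self ρ hρ.1.nonneg
  have bb : b * b = σ := CFC.sqrt_mul_sqrt_self σ hσ.1.nonneg
  have aH : a.IsHermitian := (sqrt_psd ρ).1
  have bH : b.IsHermitian := (sqrt_psd σ).1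
  set X := t • (a - b) + t⁻¹ • (a + b) with hX
  set Y := t • (a - b) - t⁻¹ • (a + b) with hY
  have XH : X.IsHermitian := (herm_rsmul (aH.sub bH) _).add (herm_rsmul (aH.add bH) _)
  have YH : Y.IsHermitian := (herm_rsmul (aH.sub bH) _).sub (herm_rsmul (aH.add bH) _)
  have XX : (X * X).PosSemidef := by simpa [XH.eq] using posSemidef_conjTranspose_mul_self X
  have YY : (Y * Y).PosSemidef := by simpa [YH.eq] using posSemidef_conjTranspose_mul_self Y
  have e1 : Y * Y - X * X = (4 : ℝ) • (σ - ρ) := by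
    rw [hX, hY, ← aa, ← bb]
    simp only [Matrix.mul_add, Matrix.add_mul, Matrix.mul_sub, Matrix.sub_mul, Matrix.smul_mul,
      Matrix.mul_smul, smul_smul, mul_inv_cancel₀ ht.ne', inv_mul_cancel₀ ht.ne', one_smul,
      smul_add, smul_sub]
    module
  have e2 : Y * Y + X * X = (2 * t ^ 2) • ((a - b) * (a - b)) +
      (2 * t⁻¹ ^ 2) • ((a + b) * (a + b)) := by
    rw [hX, hY]
    simp only [Matrix.mul_add, Matrix.add_mul, Matrix.mul_sub, Matrix.sub_mul, Matrix.smul_mul,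
      Matrix.mul_smul, smul_smul, smul_add, smul_sub]
    module
  have f1 := tr_le_of_le YY h1
  have f2 := tr_le_of_le XX (M := -H) (by rwa [sub_neg_eq_add])
  have f3 := congrArg (fun M => tr M H) e1
  have f4 := congrArg (fun M : Matrix ι ι ℂ => M.trace.re) e2
  have g1 := rel_ge hρ.1 h
  have g2 := overlap_le hρ hσ
  have k1 : ((a - b) * (a - b)).trace.re = 2 - 2 * tr a b := by
    change tr _ _ = _
    rw [tr_sub, sub_tr, sub_tr, tr_comm b a, tr_sqrt_self hρ.1, tr_sqrt_self hσ.1, hρ.2, hσ.2]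
    simp only [Complex.one_re]
    ring
  have k2 : ((a + b) * (a + b)).trace.re = 2 + 2 * tr a b := by
    change tr _ _ = _
    rw [tr_add, add_tr, add_tr, tr_comm b a, tr_sqrt_self hρ.1, tr_sqrt_self hσ.1, hρ.2, hσ.2]
    simp only [Complex.one_re]
    ring
  simp only [sub_tr, smul_tr, tr_neg, trace_add, trace_smul, Complex.add_re, Complex.smul_re,
    smul_eq_mul, k1, k2, hρ.2, Complex.one_re, ← ha, ← hb] at f2 f3 f4 g1 g2
  have m1 : t ^ 2 * (2 - 2 * tr a b) ≤ t ^ 2 * rel ρ σ := by gcongr; linarith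
  have m2 : t⁻¹ ^ 2 * (2 + 2 * tr a b) ≤ t⁻¹ ^ 2 * 4 := by gcongr; linarith
  have m3 : 1 / (t ^ 2 / 2) = 2 * t⁻¹ ^ 2 := by field_simp
  have m4 : (Y * Y).trace.re + (X * X).trace.re ≤ 4 * (t ^ 2 / 2 * rel ρ σ + 2 * t⁻¹ ^ 2) := by
    linarith
  rw [m3]
  nlinarith [mul_le_mul_of_nonneg_left m4 hC]

theorem rel_le_log {ρ σ : Matrix ι ι ℂ} (hρ : IsState ρ) (h : ρ.PosDef) (hσ : σ.PosDef) {c : ℝ}
    (hc : 0 < c) (hle : (c • σ - ρ).PosSemidef) : rel ρ σ ≤ Real.log c := by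
  have := tr_le hρ.1 (log_mono h hle)
  rw [log_smul hσ hc, tr_add, tr_smul, tr_one_state hρ] at this
  rw [rel, tr_sub]
  linarith

/-- The relative entropy is at most the sandwiched Renyi divergence of order two. -/
theorem rel_le_two {ρ U : Matrix ι ι ℂ} (hρ : IsState ρ) (hU : Uni U) {r : ι → ℝ}
    (hr : ∀ i, 0 < r i) {M : ℝ} (hM : 0 < M)
    (h : tr (ρ * sp U fun i => (√(r i))⁻¹) (ρ * sp U fun i => (√(r i))⁻¹) ≤ M) :
    rel ρ (sp U r) ≤ Real.log M := by
  obtain ⟨V, p, hV, hp, rfl⟩ := exists_sp_psd hρ.1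
  have p1 : ∑ i, p i = 1 := by
    have := hρ.2
    rw [sp_trace hV] at this
    exact_mod_cast this
  set w : ι → ι → ℝ := fun i l => ‖(Vᴴ * U) i l‖ ^ 2 with hw
  have w1 : ∀ i, ∑ l, w i l = 1 := (hV.ct.mul hU).sum_row
  set c : ι → ℝ := fun i => ∑ l, (√(r l))⁻¹ * w i l with hc
  have cpos : ∀ i, 0 < c i := fun i => by
    obtain ⟨l, -, hl⟩ := Finset.exists_ne_zero_of_sum_ne_zero ((w1 i).trans_ne one_ne_zero)
    exact Finset.sum_pos' (fun l _ => by positivity) ⟨l, Finset.mem_univ _,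
      mul_pos (inv_pos.2 (Real.sqrt_pos.2 (hr l))) (lt_of_le_of_ne (sq_nonneg _) hl.symm)⟩
  set R := Vᴴ * (sp U fun i => (√(r i))⁻¹) * V with hR
  have eR : R = sp (Vᴴ * U) fun i => (√(r i))⁻¹ := by
    rw [← conj_sp, conjTranspose_conjTranspose]
  have RH : R.IsHermitian := eR ▸ sp_herm _ _
  have e1 : tr (sp V p * sp U fun i => (√(r i))⁻¹) (sp V p * sp U fun i => (√(r i))⁻¹) =
      ∑ i, ∑ k, p i * p k * ‖R i k‖ ^ 2 := by
    have : (sp V p * sp U fun i => (√(r i))⁻¹) * (sp V p * sp U fun i => (√(r i))⁻¹) =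
        V * (rd p * R * (rd p * R) * Vᴴ) := by
      rw [hR, sp.eq_1 V]
      simp only [Matrix.mul_assoc]
      rw [hV.mul_ct, Matrix.mul_one]
    rw [tr, this, trace_mul_comm, Matrix.mul_assoc, hV, Matrix.mul_one]
    simp only [trace, diag_apply, mul_apply (M := rd p * R), Complex.re_sum]
    refine Finset.sum_congr rfl fun i _ => Finset.sum_congr rfl fun k _ => ?_
    rw [rd, diagonal_mul, diagonal_mul, ← RH.apply k i, mul_mul_mul_comm, RCLike.star_def,
      Complex.mul_conj']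
    norm_cast
  have e2 : ∑ i, p i * (p i * c i ^ 2) ≤ M := by
    refine le_trans (Finset.sum_le_sum fun i _ => ?_) (e1 ▸ h)
    refine le_trans ?_ (Finset.single_le_sum (f := fun k => p i * p k * ‖R i k‖ ^ 2)
      (fun k _ => mul_nonneg (mul_nonneg (hp i) (hp k)) (sq_nonneg _)) (Finset.mem_univ i))
    have : c i ≤ ‖R i i‖ := by
      refine le_trans (le_of_eq ?_) (Complex.re_le_norm _)
      rw [eR, sp_apply_self]
    rw [mul_assoc]
    exact mul_le_mul_of_nonneg_left (mul_le_mul_of_nonneg_left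
      (pow_le_pow_left₀ (cpos i).le this 2) (hp i)) (hp i)
  have e3 : ∀ i, -(∑ l, Real.log (r l) * w i l) ≤ 2 * Real.log (c i) := fun i => by
    have : ∀ l, -(Real.log (r l) * w i l) ≤
        2 * (Real.log (c i) * w i l + (√(r l))⁻¹ * w i l / c i - w i l) := fun l => by
      have h1 := Real.log_le_sub_one_of_pos (div_pos (inv_pos.2 (Real.sqrt_pos.2 (hr l))) (cpos i))
      rw [Real.log_div (inv_pos.2 (Real.sqrt_pos.2 (hr l))).ne' (cpos i).ne', Real.log_inv,
        Real.log_sqrt (hr l).le] at h1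
      have h2 := mul_le_mul_of_nonneg_right h1 (show 0 ≤ w i l from sq_nonneg _)
      rw [mul_div_right_comm]
      linarith
    have h2 := Finset.sum_le_sum fun l (_ : l ∈ Finset.univ) => this l
    rw [Finset.sum_neg_distrib, ← Finset.mul_sum, Finset.sum_sub_distrib, Finset.sum_add_distrib,
      ← Finset.mul_sum, ← Finset.sum_div, w1, div_self (cpos i).ne'] at h2
    linarith
  have e4 : rel (sp V p) (sp U r) =
      ∑ i, (p i * Real.log (p i) + p i * -(∑ l, Real.log (r l) * w i l)) := by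
    rw [rel, tr_sub, cfc_sp hV, cfc_sp hU, tr.eq_1 (sp V p) (sp V _), sp_mul hV, sp_trace hV,
      Complex.ofReal_re, tr_comm, tr, tr_sp_sp, ← Finset.sum_sub_distrib]
    refine Finset.sum_congr rfl fun i _ => ?_
    rw [mul_neg, Finset.mul_sum, sub_eq_add_neg]
    simp only [hw, mul_assoc]
  have e5 : ∀ i, p i * Real.log (p i) + p i * -(∑ l, Real.log (r l) * w i l) ≤
      Real.log M * p i + p i * (p i * c i ^ 2) / M - p i := fun i => by
    rcases (hp i).eq_or_lt with h0 | h0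
    · simp [← h0]
    · have h1 := Real.log_le_sub_one_of_pos (div_pos (mul_pos h0 (pow_pos (cpos i) 2)) hM)
      rw [Real.log_div (mul_pos h0 (pow_pos (cpos i) 2)).ne' hM.ne',
        Real.log_mul h0.ne' (pow_pos (cpos i) 2).ne', Real.log_pow] at h1
      have h2 := mul_le_mul_of_nonneg_left h1 h0.le
      have h3 := mul_le_mul_of_nonneg_left (e3 i) h0.le
      rw [mul_div_assoc]
      push_cast at h2
      linarith
  have e6 := Finset.sum_le_sum fun i (_ : i ∈ Finset.univ) => e5 i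
  rw [← e4, Finset.sum_sub_distrib, Finset.sum_add_distrib, ← Finset.mul_sum, ← Finset.sum_div,
    p1] at e6
  have := (div_le_one hM).2 e2
  linarith

end Pool.Agent.MP_47bb2a_mp.H20
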