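import Pool.Agent.MP_47bb2a_mp.H97.Net

/-! The universal measure with weights that are large only eventually, state by state. -/

open scoped ComplexOrder MatrixOrder ComplexConjugate Topology
open Matrix Filter MeasureTheory Real

namespace Pool.Agent.MP_47bb2a_mp.H20

open H97

variable {ι : Type*} [Fintype ι] [DecidableEq ι] {C : Set (Matrix ι ι ℂ)} {c : ℝ}

theorem dominated_ev [Nonempty ι] (h : Base C c) :
    ∃ μ : Measure (States ι), IsProbabilityMeasure μ ∧ (∀ᵐ ω ∂μ, ∃ t : ℝ, t • ω.1 ∈ C) ∧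
      ∀ Δ > (0 : ℝ), ∀ W : ℕ → States ι → ℝ, (∀ n ω, 0 ≤ W n ω) → (∀ n, ∃ B, ∀ ω, W n ω ≤ B) →
        (∀ (ω : States ι) (t : ℝ), t • ω.1 ∈ C → ∀ᶠ n : ℕ in atTop, rexp (n * Δ) * t ^ n ≤ W n ω) →
        ∀ᶠ n : ℕ in atTop, ∀ σ : Matrix (Fin n → ι) (Fin n → ι) ℂ, σ.PosSemidef → Symm σ →
          (∀ G, Polar C G → (tp n G * σ).trace.re ≤ 1) → Dominated μ (W n) σ := by
  obtain ⟨ω, t, ht, hnet⟩ := h.net
  have : BorelSpace (States ι) := ⟨rfl⟩
  have : T1Space (States ι) := inferInstanceAs (T1Space {ρ : Matrix ι ι ℂ // IsState ρ})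
  let ν := ProbabilityTheory.geometricMeasure ⟨1 / 2, by norm_num, by norm_num⟩
  have hν : ∀ j, 0 < (ν.map ω).real {ω j} := fun j => by
    rw [map_measureReal_apply Measurable.of_discrete (measurableSet_singleton _)]
    exact (ProbabilityTheory.geometricMeasure_real_singleton_pos
      (fun h => by simpa using congrArg Subtype.val h)
      (fun h => by have := congrArg Subtype.val h; norm_num at this) j).trans_le
      (measureReal_mono (by simp) (measure_ne_top _ _))
  refine ⟨ν.map ω, Measure.isProbabilityMeasure_map Measurable.of_discrete.aemeasurable,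
    ((ae_map_iff Measurable.of_discrete.aemeasurable (Set.countable_range ω).measurableSet).2
      (Eventually.of_forall fun j => ⟨j, rfl⟩)).mono (by rintro _ ⟨j, rfl⟩; exact ⟨_, (ht j).2⟩),
    fun Δ hΔ W W0 WB hW => ?_⟩
  obtain ⟨N₁, hN₁⟩ := core h (show 0 < Δ / 3 by positivity)
  obtain ⟨J, hJ⟩ := hnet (1 - rexp (-(Δ / 3))) (by simpa using hΔ)
    (by linarith [Real.exp_pos (-(Δ / 3))])
  have hev : ∀ᶠ n : ℕ in atTop, ∀ j ∈ J, ((ν.map ω).real {ω j})⁻¹ ≤ rexp (n * (Δ / 3)) :=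
    (eventually_all_finset J).2 fun j _ => (tendsto_exp_atTop.comp
      (tendsto_natCast_atTop_atTop.atTop_mul_const (by positivity))).eventually_ge_atTop _
  filter_upwards [hev, (eventually_all_finset J).2 fun j _ => hW (ω j) (t j) (ht j).2,
    eventually_ge_atTop N₁] with n hN₂ hw hn σ hσ hs hG
  obtain ⟨B, wB⟩ := WB n
  have w0 := W0 n
  generalize W n = w at *
  have hi : ∀ x y, Integrable (fun ρ : States ι => (w ρ : ℂ) * tp n ρ.1 x y) (ν.map ω) :=
    fun x y => integrable_of_bdd ω ν (B := B) fun ρ => by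
      rw [norm_mul, Complex.norm_real, Real.norm_of_nonneg (w0 ρ)]
      refine (mul_le_of_le_one_right (w0 ρ) ?_).trans (wB ρ)
      exact entry_le (tp_psd ρ.2.1) (by rw [tp_trace, ρ.2.2]; simp) x y
  refine ⟨hi, psd_of_q (IsHermitian.sub ?_ hσ.1) fun v => ?_⟩
  · ext x y
    simp only [conjTranspose_apply, of_apply, RCLike.star_def, ← integral_conj, map_mul,
      Complex.conj_ofReal]
    exact integral_congr_ae (Eventually.of_forall fun ρ =>
      congrArg _ ((tp_psd (n := n) ρ.2.1).1.apply x y))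
  have e1 : ∀ ρ : States ι, w ρ * q (tp n ρ.1) v =
      (∑ x, ∑ y, star v x * ((w ρ : ℂ) * tp n ρ.1 x y * v y)).re := fun ρ => by
    rw [← q_rsmul]
    simp [q, dotProduct, mulVec, Finset.mul_sum]
  have hi2 : Integrable (fun ρ : States ι =>
      ∑ x, ∑ y, star v x * ((w ρ : ℂ) * tp n ρ.1 x y * v y)) (ν.map ω) :=
    integrable_finsetSum _ fun x _ => integrable_finsetSum _ fun y _ =>
      ((hi x y).mul_const _).const_mul _
  have hi3 : Integrable (fun ρ : States ι => w ρ * q (tp n ρ.1) v) (ν.map ω) := by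
    simp only [e1]; exact hi2.re
  have e2 : q (of fun x y => ∫ ρ : States ι, (w ρ : ℂ) * tp n ρ.1 x y ∂(ν.map ω)) v =
      ∫ ρ : States ι, w ρ * q (tp n ρ.1) v ∂(ν.map ω) := by
    simp only [e1]
    refine Eq.trans (congrArg Complex.re ?_) (integral_re hi2).symm
    rw [integral_finsetSum _ fun x _ => integrable_finsetSum _ fun y _ =>
      ((hi x y).mul_const _).const_mul _]
    refine Finset.sum_congr rfl fun x _ => ?_
    rw [integral_finsetSum _ fun y _ => ((hi x y).mul_const _).const_mul _]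
    simp only [integral_const_mul, integral_mul_const, mulVec, dotProduct, of_apply, Finset.mul_sum]
  rw [q_sub, e2, sub_nonneg]
  set I := ∫ ρ : States ι, w ρ * q (tp n ρ.1) v ∂(ν.map ω) with hI
  refine (hN₁ n hn σ hσ hs hG v (rexp (-(n * (Δ / 3))) * I)
    fun τ hτ => ?_).trans (le_of_eq ?_)
  · obtain ⟨j, hj, h1⟩ := hJ τ hτ
    rw [sub_sub_cancel] at h1
    have a1 := q_le (tp_mono (n := n) (psd_rsmul (h.psd τ hτ) (Real.exp_pos _).le) h1) v
    rw [tp_rsmul, tp_rsmul, q_rsmul, q_rsmul, ← Real.exp_nat_mul] at a1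
    have a2 := setIntegral_le_integral (s := {ω j}) hi3 (Eventually.of_forall fun ρ =>
      mul_nonneg (w0 ρ) (q_nonneg (tp_psd ρ.2.1) v))
    rw [integral_singleton, smul_eq_mul, ← le_inv_mul_iff₀ (hν j), ← hI] at a2
    have a3 := hw j hj
    have a4 := q_nonneg (tp_psd (n := n) (ω j).2.1) v
    have I0 : 0 ≤ I := integral_nonneg fun ρ => mul_nonneg (w0 ρ) (q_nonneg (tp_psd ρ.2.1) v)
    have a5 := hN₂ j hj
    refine le_of_mul_le_mul_left (a := rexp (n * Δ) * rexp (n * -(Δ / 3))) ?_ (by positivity)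
    calc _ = rexp (n * Δ) * (rexp (n * -(Δ / 3)) * q (tp n τ) v) := by ring
      _ ≤ rexp (n * Δ) * (t j ^ n * q (tp n (ω j).1) v) := by gcongr
      _ ≤ w (ω j) * q (tp n (ω j).1) v := by rw [← mul_assoc]; gcongr
      _ ≤ rexp (n * (Δ / 3)) * I := a2.trans (by gcongr)
      _ = _ := by
          rw [← mul_assoc, ← Real.exp_add, ← Real.exp_add]
          congr 2
          ring
  · rw [← mul_assoc, ← Real.exp_add, add_neg_cancel, Real.exp_zero, one_mul]

end Pool.Agent.MP_47bb2a_mp.H20
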