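import Pool.Agent.MP_47bb2a_mp.H20.Succ
import Pool.Agent.MP_47bb2a_mp.H20.NetEv
import Pool.Agent.MP_47bb2a_mp.H42.ThmM

/-! The de Finetti reductions. -/

open scoped ComplexOrder MatrixOrder ComplexConjugate Kronecker Topology
open Matrix Filter Real MeasureTheory

namespace Pool.Agent.MP_47bb2a_mp.H20

open H97

theorem dominated_exp {ι : Type*} [Fintype ι] [DecidableEq ι] [Nonempty ι]
    {C : Set (Matrix ι ι ℂ)} {c : ℝ} (h : Base C c) :
    ∃ μ : Measure (States ι), IsProbabilityMeasure μ ∧ (∀ᵐ ω ∂μ, ∃ t : ℝ, t • ω.1 ∈ C) ∧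
      ∀ E : ℕ → States ι → EReal, (∀ n, ∃ B : ℝ, ∀ ω, (B : EReal) ≤ E n ω) →
        (∀ (ω : States ι) (t : ℝ), t • ω.1 ∈ C → 0 < t ∧ ∀ ε > (0 : ℝ), ∀ᶠ n : ℕ in atTop,
          E n ω ≤ (n * (-log t + ε) : ℝ)) →
        ∀ Δ > (0 : ℝ), ∀ᶠ n : ℕ in atTop, ∀ σ : Matrix (Fin n → ι) (Fin n → ι) ℂ, σ.PosSemidef →
          Symm σ → (∀ G, Polar C G → (tp n G * σ).trace.re ≤ 1) →
          Dominated μ (fun ω => (EReal.exp (-E n ω + (n * Δ : ℝ))).toReal) σ := by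
  obtain ⟨μ, h1, h2, h3⟩ := dominated_ev h
  refine ⟨μ, h1, h2, fun E hB hE Δ hΔ => ?_⟩
  choose B hB using hB
  have ub : ∀ n ω, EReal.exp (-E n ω + (n * Δ : ℝ)) ≤ ENNReal.ofReal (rexp (-B n + n * Δ)) :=
    fun n ω => by
      rw [← EReal.exp_coe, EReal.exp_le_exp_iff, EReal.coe_add, EReal.coe_neg]
      exact add_le_add_left (EReal.neg_le_neg_iff.2 (hB n ω)) _
  refine h3 (Δ / 2) (half_pos hΔ) (fun n ω => (EReal.exp (-E n ω + (n * Δ : ℝ))).toReal)
    (fun _ _ => ENNReal.toReal_nonneg) (fun n => ⟨_, fun ω =>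
      ENNReal.toReal_le_of_le_ofReal (exp_pos _).le (ub n ω)⟩) fun ω t ht => ?_
  obtain ⟨t0, h4⟩ := hE ω t ht
  filter_upwards [h4 _ (half_pos hΔ)] with n hn
  rw [← ENNReal.ofReal_le_iff_le_toReal ((ub n ω).trans_lt ENNReal.ofReal_lt_top).ne,
    ← exp_log (pow_pos t0 n), ← exp_add, ← EReal.exp_coe, EReal.exp_le_exp_iff]
  refine le_trans (le_of_eq ?_) (add_le_add_left (EReal.neg_le_neg_iff.2 hn) _)
  rw [← EReal.coe_neg, ← EReal.coe_add, log_pow]
  congr 1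
  ring

variable {A B : Type} [Fintype A] [DecidableEq A] [Fintype B] [DecidableEq B] [Nonempty A]
  [Nonempty B] {n : ℕ}

theorem sep_polar {σ : Matrix (Fin n → A × B) (Fin n → A × B) ℂ} (hσ : σ ∈ Sep A B n)
    (G : Matrix (A × B) (A × B) ℂ) (hG : Polar (convexHull ℝ (C0 A B)) G) :
    (tp n G * σ).trace.re ≤ 1 := sep_bound (H42.thmM G hG.1 (polar_good hG) n) hσ

omit [Nonempty A] [Nonempty B] in
theorem relEntSep_ge {ρ : Matrix (Fin n → A × B) (Fin n → A × B) ℂ} (h : ρ.PosSemidef) :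
    ((-Fintype.card (Fin n → A × B) : ℝ) : EReal) ≤ relEntSep ρ :=
  le_iInf₂ fun _ hτ => relEnt_ge h (sep_state hτ)

omit [Nonempty A] [Nonempty B] in
theorem roofInfo_ge (ω : Matrix (A × B) (A × B) ℂ) :
    ((-Fintype.card (A × B) : ℝ) : EReal) ≤ roofInfo ω := by
  unfold roofInfo
  refine le_iInf fun k => le_iInf fun q => le_iInf fun τ => le_iInf fun α => le_iInf fun β =>
    le_iInf fun h => ?_
  rw [← one_mul (-_ : ℝ), ← h.2.1, Finset.sum_mul, coe_sum]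
  refine Finset.sum_le_sum fun j _ => ?_
  rw [EReal.coe_mul]
  exact mul_le_mul_of_nonneg_left (relEnt_ge (h.1 j).2.1.1 (kron_state (h.1 j).2.2.1 (h.1 j).2.2.2))
    (EReal.coe_nonneg.2 (h.1 j).1)

omit [Fintype A] [DecidableEq A] [Fintype B] [DecidableEq B] [Nonempty A] [Nonempty B] in
theorem pair_eq {ω : Matrix (A × B) (A × B) ℂ} (h : ω.IsHermitian) :
    pair n ω = k2 (tp n ω) (tp n ωᵀ) := by
  ext x y
  simp only [pair, k2, tp, of_apply, lf, rt, transpose_apply, h.apply]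

theorem dominated_both : ∃ μ : Measure (States (A × B)), IsProbabilityMeasure μ ∧
    (∀ Δ > (0 : ℝ), ∃ N : ℕ, ∀ n, N ≤ n → ∀ σ ∈ Sep A B n, Symm σ → Dominated μ (fun ω =>
      (EReal.exp (-(((n / 2 : ℝ) : EReal) * roofInfo ω.1) + (n * Δ : ℝ))).toReal) σ) ∧
    ∀ Δ > (0 : ℝ), ∃ N : ℕ, ∀ n, N ≤ n → ∀ σ ∈ Sep A B n, Symm σ → Dominated μ (fun ω =>
      (EReal.exp (-(((1 / 2 : ℝ) : EReal) * relEntSep (pair n ω.1)) + (n * Δ : ℝ))).toReal) σ := by
  obtain ⟨μ, h1, -, h2⟩ := dominated_exp (base_C0 (A := A) (B := B))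
  refine ⟨μ, h1, fun Δ hΔ => ?_, fun Δ hΔ => ?_⟩
  · refine (eventually_atTop.1 (h2 (fun n ω => ((n / 2 : ℝ) : EReal) * roofInfo ω.1)
      (fun n => ⟨n / 2 * -Fintype.card (A × B), fun ω => ?_⟩)
      (fun ω t ht => ⟨(hull_rep ω.2 ht).1, fun ε hε => Eventually.of_forall fun n => ?_⟩)
      Δ hΔ)).imp fun N hN n hn σ hσ hs => hN n hn σ (sep_state hσ).1 hs (sep_polar hσ)
    · rw [EReal.coe_mul]
      exact mul_le_mul_of_nonneg_left (roofInfo_ge _) (EReal.coe_nonneg.2 (by positivity))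
    · refine (mul_le_mul_of_nonneg_left (hull_roof ω.2 ht)
        (EReal.coe_nonneg.2 (by positivity))).trans ?_
      rw [← EReal.coe_mul, EReal.coe_le_coe_iff]
      nlinarith [mul_nonneg (n.cast_nonneg (α := ℝ)) hε.le]
  · refine (eventually_atTop.1 (h2 (fun n ω => ((1 / 2 : ℝ) : EReal) * relEntSep (pair n ω.1))
      (fun n => ⟨1 / 2 * -Fintype.card (Fin (n + n) → A × B), fun ω => ?_⟩)
      (fun ω t ht => ⟨(hull_rep ω.2 ht).1, fun ε hε => ?_⟩)
      Δ hΔ)).imp fun N hN n hn σ hσ hs => hN n hn σ (sep_state hσ).1 hs (sep_polar hσ)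
    · rw [EReal.coe_mul]
      refine mul_le_mul_of_nonneg_left (relEntSep_ge ?_) (EReal.coe_nonneg.2 (by positivity))
      rw [pair_eq ω.2.1.1, ← tpF_app fun M => M]
      exact tpF_psd (forall_app (P := PosSemidef) ω.2.1 ω.2.1.transpose)
    · filter_upwards [hull_pair ω.2 ht hε] with n ⟨σ, s1, s2, s3⟩
      have : relEntSep (pair n ω.1) ≤ (n * (-2 * log t + ε) : ℝ) := by
        refine (iInf₂_le _ s1).trans ?_
        rwa [relEnt_eq _ s2, EReal.coe_le_coe_iff, pair_eq ω.2.1.1]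
      refine (mul_le_mul_of_nonneg_left this (EReal.coe_nonneg.2 (by positivity))).trans ?_
      rw [← EReal.coe_mul, EReal.coe_le_coe_iff]
      nlinarith [mul_nonneg (n.cast_nonneg (α := ℝ)) hε.le]

theorem dominated_real : ∃ μ : Measure (States (A × B)), IsProbabilityMeasure μ ∧
    ∀ Δ > (0 : ℝ), ∃ N : ℕ, ∀ n, N ≤ n → ∀ σ ∈ Sep A B n, Symm σ → SiteSymm σ →
      Dominated μ (fun ω => (EReal.exp (-relEntSep (tp n ω.1) + (n * Δ : ℝ))).toReal) σ := by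
  have b := base_C0 (A := A) (B := B)
  have cv : Convex ℝ {M : Matrix (A × B) (A × B) ℂ | Mᵀ = M} := fun x hx y hy a b _ _ _ => by
    change (a • x + b • y)ᵀ = _
    rw [transpose_add, transpose_smul, transpose_smul, hx, hy]
  have tp' : ∀ M ∈ convexHull ℝ (C0 A B), Mᵀ ∈ convexHull ℝ (C0 A B) := fun M hM => by
    refine convexHull_min (t := {M | Mᵀ ∈ convexHull ℝ (C0 A B)})
      (fun _ h => subset_convexHull _ _ (C0_transpose h)) (fun x hx y hy a b ha hb e => ?_) hM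
    change (a • x + b • y)ᵀ ∈ convexHull ℝ (C0 A B)
    rw [transpose_add, transpose_smul, transpose_smul]
    exact convex_convexHull ℝ _ hx hy ha hb e
  obtain ⟨μ, h1, -, h2⟩ := dominated_exp (C := convexHull ℝ (C0 A B) ∩ {M | Mᵀ = M})
    ⟨b.convex.inter cv, fun _ h => b.psd _ h.1, fun _ h => b.tr _ h.1, b.pos, b.one, by simp⟩
  refine ⟨μ, h1, fun Δ hΔ => (eventually_atTop.1 (h2 (fun n ω => relEntSep (tp n ω.1))
      (fun n => ⟨_, fun ω => relEntSep_ge (tp_psd ω.2.1)⟩)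
      (fun ω t ht => ⟨(hull_rep ω.2 ht.1).1, fun ε hε => hull_real ω.2 ht.1 ?_ hε⟩)
      Δ hΔ)).imp fun N hN n hn σ hσ hs hs' => hN n hn σ (sep_state hσ).1 hs fun G hG => ?_⟩
  · have := ht.2
    rw [Set.mem_ofPred_eq, transpose_smul] at this
    exact smul_right_injective _ (hull_rep ω.2 ht.1).1.ne' this
  · rw [tr_site hs']
    refine sep_polar hσ _ ⟨psd_rsmul (hG.1.add hG.1.transpose) (by norm_num), fun M hM => ?_⟩
    have h3 := hG.2 ((1 / 2 : ℝ) • M + (1 / 2 : ℝ) • Mᵀ)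
      ⟨b.convex hM (tp' M hM) (by norm_num) (by norm_num) (by norm_num), by
        change _ᵀ = _
        rw [transpose_add, transpose_smul, transpose_smul, transpose_transpose, add_comm]⟩
    have h4 : tr Gᵀ M = tr G Mᵀ := by
      rw [tr, ← trace_transpose, transpose_mul, transpose_transpose, trace_mul_comm, tr]
    rw [← tr, tr_add, tr_smul, tr_smul] at h3
    rw [← tr, smul_tr, add_tr, h4]
    linarith

end Pool.Agent.MP_47bb2a_mp.H20
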