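import Pool.Agent.MP_47bb2a_mp.H20.Blur

/-! Classical flags attached to every site and their removal. -/

open scoped ComplexOrder MatrixOrder ComplexConjugate Kronecker
open Matrix

namespace Pool.Agent.MP_47bb2a_mp.H20

open H97

variable {α X : Type*} {m : ℕ}

/-- A configuration with prescribed flags. -/
def ins (s : Fin m → X) (u : Fin m → α) : Fin m → α × X := fun i => (u i, s i)

theorem ins_inj (s : Fin m → X) : Function.Injective (ins (α := α) s) :=
  fun _ _ h => funext fun i => congrArg Prod.fst (congrFun h i)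

variable [Fintype X] [DecidableEq X]

/-- An operator that is block diagonal in the flags. -/
def blk (M : (Fin m → X) → Matrix (Fin m → α) (Fin m → α) ℂ) :
    Matrix (Fin m → α × X) (Fin m → α × X) ℂ :=
  (blockDiagonal M).submatrix (Equiv.arrowProdEquivProdArrow _ _ _)
    (Equiv.arrowProdEquivProdArrow _ _ _)

/-- The trace over the flags. -/
def trX (T : Matrix (Fin m → α × X) (Fin m → α × X) ℂ) : Matrix (Fin m → α) (Fin m → α) ℂ :=
  ∑ s, T.submatrix (ins s) (ins s)

omit [Fintype X] in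
theorem blk_apply (M : (Fin m → X) → Matrix (Fin m → α) (Fin m → α) ℂ) (s s' : Fin m → X)
    (u u' : Fin m → α) : blk M (ins s u) (ins s' u') = if s = s' then M s u u' else 0 := rfl

omit [Fintype X] in
theorem blk_ct (M : (Fin m → X) → Matrix (Fin m → α) (Fin m → α) ℂ) :
    (blk M)ᴴ = blk fun s => (M s)ᴴ := by
  rw [blk, conjTranspose_submatrix, blockDiagonal_conjTranspose, blk]

omit [Fintype X] in
theorem tpF_blk (F : Fin m → X → Matrix α α ℂ) :
    tpF (fun i => blockDiagonal (F i)) = blk fun s => tpF fun i => F i (s i) := by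
  ext z z'
  change _ = blk _ (ins (fun i => (z i).2) fun i => (z i).1) (ins (fun i => (z' i).2) fun i => (z' i).1)
  rw [blk_apply]
  simp only [tpF, of_apply, blockDiagonal_apply, Finset.prod_ite_zero, Finset.mem_univ,
    true_imp_iff, funext_iff]

omit [Fintype X] in
theorem cut_blk (Y : Matrix (Fin m → α) (Fin m → α) ℂ) :
    cut Y (1 : Matrix (Fin m → X) (Fin m → X) ℂ) = blk fun _ => Y := by
  rw [blk, ← kronecker_one]
  rfl

theorem trX_blk (M : (Fin m → X) → Matrix (Fin m → α) (Fin m → α) ℂ) : trX (blk M) = ∑ s, M s :=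
  Finset.sum_congr rfl fun s _ => by
    ext u u'
    simp [blk_apply]

omit [DecidableEq X] in
theorem trX_add (S T : Matrix (Fin m → α × X) (Fin m → α × X) ℂ) :
    trX (S + T) = trX S + trX T := by simp [trX, Finset.sum_add_distrib, submatrix_add]

omit [DecidableEq X] in
theorem trX_sub (S T : Matrix (Fin m → α × X) (Fin m → α × X) ℂ) :
    trX (S - T) = trX S - trX T := by simp [trX, submatrix_sub]

omit [DecidableEq X] in
theorem trX_smul (r : ℝ) (T : Matrix (Fin m → α × X) (Fin m → α × X) ℂ) :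
    trX (r • T) = r • trX T := by simp [trX, Finset.smul_sum, submatrix_smul]

variable [Fintype α]

omit [DecidableEq X] in
theorem sum_ins (f : (Fin m → α × X) → ℂ) : ∑ z, f z = ∑ s, ∑ u, f (ins s u) := by
  rw [Finset.sum_comm, ← Fintype.sum_prod_type']
  exact Fintype.sum_equiv (Equiv.arrowProdEquivProdArrow _ _ _) _ _ fun _ => rfl

theorem blk_mul (M N : (Fin m → X) → Matrix (Fin m → α) (Fin m → α) ℂ) :
    blk M * blk N = blk fun s => M s * N s := by
  rw [blk, blk, submatrix_mul_equiv, ← blockDiagonal_mul, blk]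

theorem sub_blk {K : Type*} (M : (Fin m → X) → Matrix (Fin m → α) (Fin m → α) ℂ)
    (T : Matrix (Fin m → α × X) K ℂ) (s : Fin m → X) {K' : Type*} (f : K' → K) :
    (blk M * T).submatrix (ins s) f = M s * T.submatrix (ins s) f := by
  ext u z
  simp only [submatrix_apply, mul_apply]
  rw [sum_ins, Finset.sum_eq_single s (fun s' _ h => by simp [blk_apply, Ne.symm h]) (by simp)]
  simp [blk_apply]

theorem trX_conj (M : (Fin m → X) → Matrix (Fin m → α) (Fin m → α) ℂ)
    (T : Matrix (Fin m → α × X) (Fin m → α × X) ℂ) :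
    trX (blk M * T * (blk M)ᴴ) = ∑ s, M s * T.submatrix (ins s) (ins s) * (M s)ᴴ :=
  Finset.sum_congr rfl fun s _ => by
    rw [Matrix.mul_assoc, sub_blk, Matrix.mul_assoc]
    congr 1
    rw [← conjTranspose_inj, conjTranspose_submatrix, conjTranspose_mul,
      conjTranspose_conjTranspose, sub_blk, conjTranspose_mul, conjTranspose_conjTranspose,
      conjTranspose_submatrix]

omit [DecidableEq X] in
theorem trX_trace (T : Matrix (Fin m → α × X) (Fin m → α × X) ℂ) : (trX T).trace = T.trace := by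
  rw [trX, trace_sum, trace.eq_1 T, sum_ins]
  rfl

theorem tr_cut (T : Matrix (Fin m → α × X) (Fin m → α × X) ℂ)
    (Y : Matrix (Fin m → α) (Fin m → α) ℂ) : tr T (cut Y 1) = tr (trX T) Y := by
  rw [tr_comm, tr, ← trX_trace, cut_blk, tr_comm, trX, trX, tr_sum, trace_sum, Complex.re_sum]
  simp only [sub_blk, tr]

omit [DecidableEq X] [Fintype α] in
theorem trX_psd {T : Matrix (Fin m → α × X) (Fin m → α × X) ℂ} (h : T.PosSemidef) :
    (trX T).PosSemidef := posSemidef_sum _ fun _ _ => h.submatrix _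

omit [Fintype α] in
theorem trX_pd [Nonempty X] {T : Matrix (Fin m → α × X) (Fin m → α × X) ℂ} (h : T.PosDef) :
    (trX T).PosDef := by
  obtain ⟨s⟩ : Nonempty (Fin m → X) := inferInstance
  rw [trX, ← Finset.add_sum_erase _ _ (Finset.mem_univ s)]
  exact (h.submatrix (ins_inj s)).add_posSemidef
    (posSemidef_sum _ fun _ _ => h.posSemidef.submatrix _)

omit [Fintype α] in
theorem trX_tpF (F : Fin m → X → Matrix α α ℂ) :
    trX (tpF fun i => blockDiagonal (F i)) = tpF fun i => ∑ j, F i j := by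
  rw [tpF_blk, trX_blk]
  ext x y
  simp only [tpF, Matrix.sum_apply, of_apply, Fintype.prod_sum]

open H42 in
theorem descend {A B : Type*} [Fintype A] [Fintype B] [DecidableEq A] [DecidableEq B] [Nonempty A]
    [Nonempty B] [Nonempty X] {F k : Fin m → X → Matrix (A × B) (A × B) ℂ}
    (hF : ∀ i, (blockDiagonal (F i)).PosDef) (hF1 : ∀ i, (blockDiagonal (F i)).trace = 1)
    {μ δ c t ρ r Λ : ℝ} (hμ : 0 < μ) (h0 : 0 < δ) (h1 : δ < 1) (hc : 0 < c) (hr : 0 < r)
    (hΛ : 0 < Λ) (hΛ1 : Real.log ((Fintype.card (A × B) : ℝ) ^ 2) - Real.log μ ≤ Λ)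
    (hΛ2 : -Real.log δ ≤ Λ) (hω : ∀ i, μ • 1 ≤ ∑ j, F i j ∧ ∑ j, F i j ≤ 1)
    (hk : ∀ i j, (k i j - 1) * (k i j - 1)ᴴ ≤ (δ / Fintype.card (A × B)) ^ 2 • 1)
    {S τ : Matrix (Fin m → (A × B) × X) (Fin m → (A × B) × X) ℂ} (hS : S.PosDef)
    (hS1 : SC (trX S)) (hS2 : S.trace.re ≤ t) (hτ : IsState τ) (hτ1 : τ.PosDef)
    (hle : (c • ((tpF fun i => blockDiagonal (k i)) * S * (tpF fun i => blockDiagonal (k i))ᴴ) -
      τ).PosSemidef) (hρ : rel τ (tpF fun i => blockDiagonal (F i)) ≤ ρ) :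
    ∃ σ ∈ Sep A B m, σ.PosDef ∧ rel (tpF fun i => ∑ j, F i j) σ ≤
      Real.log c + m * Real.log ((1 + δ) / (1 - δ)) + Real.log t + Λ * (m * r + ρ / r) := by
  set l := List.finRange m with hl
  have l0 : 0 < (1 + δ) / (1 - δ) := div_pos (by linarith) (by linarith)
  have Spd := trX_pd hS
  have t0 : 0 < (dep δ l (trX S)).trace.re := by
    rw [dep_trace]
    exact (Complex.pos_iff.1 Spd.trace_pos).1
  have t1 : (dep δ l (trX S)).trace.re ≤ t := by rwa [dep_trace, trX_trace]
  have a1 : trX τ ≤ (c * ((1 + δ) / (1 - δ)) ^ m) • dep δ l (trX S) := by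
    have b1 := trX_psd hle
    rw [trX_sub, trX_smul, tpF_blk, trX_conj] at b1
    refine le_trans (le_iff.2 b1) ?_
    rw [mul_smul]
    refine smul_le ?_ hc.le
    rw [trX.eq_1 S, dep_sum, Finset.smul_sum]
    refine Finset.sum_le_sum fun s _ => ?_
    have := tens_conj_le h0 h1 (fun u => hk u (s u)) (hS.posSemidef.submatrix (ins s)).nonneg
      (List.nodup_finRange m)
    simp only [List.toFinset_finRange, Finset.mem_univ, if_true, List.length_finRange] at this
    exact this
  have τpd := trX_pd hτ1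
  have dpd : (dep δ l (trX S)).PosDef := by
    have := pd_smul (H42.pd_of_le τpd a1) (inv_pos.2 (mul_pos hc (pow_pos l0 m)))
    rwa [inv_smul_smul₀ (mul_pos hc (pow_pos l0 m)).ne'] at this
  set σ := (dep δ l (trX S)).trace.re⁻¹ • dep δ l (trX S) with hσ
  have σpd : σ.PosDef := pd_smul dpd (inv_pos.2 t0)
  have ωpd : ∀ i, (∑ j, F i j).PosDef := fun i => H42.pd_of_le (pd_smul PosDef.one hμ) (hω i).1
  have ω1 : ∀ i, (∑ j, F i j).trace = 1 := fun i => by
    rw [trace_sum, ← trace_blockDiagonal, hF1]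
  set W := tpF fun i => ∑ j, F i j with hW
  have Wpd : W.PosDef := tens_pd ωpd
  have Wst : IsState W := ⟨Wpd.posSemidef, by simp [hW, tpF_trace, ω1]⟩
  have τst : IsState (trX τ) := ⟨τpd.posSemidef, by rw [trX_trace, hτ.2]⟩
  refine ⟨σ, (hS1.dep h0.le h1.le l).sep t0, σpd, ?_⟩
  have a2 := rel_le_log τst τpd σpd (mul_pos (mul_pos hc (pow_pos l0 m)) t0) (by
    rw [hσ, smul_smul, mul_inv_cancel_right₀ t0.ne']
    exact a1)
  have a3 := rel_nonneg τst Wst Wpd
  have a4 := marton hF hF1 hτ1 hτ.2 (L := cut (lg W - lg σ) 1) hΛ hr fun u => by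
    obtain ⟨b1, b2, b3⟩ := lip (u := u) σpd h0 (by
      rw [hσ, T_rsmul, smul_comm]
      exact smul_le (dep_T h0.le h1.le (List.mem_finRange u) Spd.posSemidef.nonneg)
        (inv_pos.2 t0).le)
    set M := tens (Function.update (fun i => ∑ j, F i j) u 1) with hM
    have Mpd : M.PosDef := tens_pd fun i => by
      by_cases h : i = u <;> simp [h, ωpd, PosDef.one]
    have e : ∀ a, emb u a * M = tens (Function.update (fun i => ∑ j, F i j) u a) := fun a => by
      simp [hM, emb_mul_tens]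
    have nn : ∀ a, 0 ≤ a → 0 ≤ emb u a * M := fun a ha => by
      rw [e]
      exact tens_nn fun i => by by_cases h : i = u <;> simp [h, ha, pd_nn (ωpd _)]
    have eW : emb u (∑ j, F u j) * M = W := by rw [e, Function.update_eq_self]; rfl
    have c1 := nn _ (sub_nonneg.2 (hω u).1)
    have c2 := nn _ (sub_nonneg.2 (hω u).2)
    rw [map_sub, Matrix.sub_mul, eW, sub_nonneg] at c1 c2
    rw [emb_rsmul, map_one, Matrix.smul_mul, Matrix.one_mul] at c1
    rw [map_one, Matrix.one_mul] at c2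
    have d1 := le_lg_sub Mpd hμ c1
    have d2 := lg_mono Wpd c2
    have lift : ∀ Y Z : Matrix (Fin m → A × B) (Fin m → A × B) ℂ, Y ≤ Z →
        cut Y (1 : Matrix (Fin m → X) _ ℂ) ≤ cut Z 1 := fun Y Z h => by
      have := cut_psd (le_iff.1 h) (PosSemidef.one (n := Fin m → X))
      have e : cut (Z - Y) (1 : Matrix (Fin m → X) _ ℂ) = cut Z 1 - cut Y 1 := by
        ext; simp [cut, sub_mul]
      exact le_iff.2 (e ▸ this)
    have e1 : cut (lg W - lg σ) (1 : Matrix (Fin m → X) _ ℂ) - cut (lg M - lg (T u σ)) 1 =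
        cut (lg W - lg M - (lg σ - lg (T u σ))) 1 := by
      ext; simp only [cut, of_apply, Matrix.sub_apply]; ring
    have e2 : ∀ x : ℝ, x • (1 : Matrix (Fin m → (A × B) × X) _ ℂ) = cut (x • 1) 1 := fun x => by
      rw [← cut_one]
      ext; simp [cut, mul_assoc]
    refine ⟨cut (lg M - lg (T u σ)) 1, cut_comm fun a => Commute.sub_left
      ((tens_comm (by simp)).cfc_real _) (b1 a), ?_, ?_⟩
    · rw [e1, e2]
      refine lift _ _ (le_trans ?_ (sub_le_sub d1 b3))
      rw [← sub_smul]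
      exact le_smul one_nn (by linarith)
    · rw [e1, e2]
      refine lift _ _ ((sub_le_sub (sub_nonpos.2 d2) b2).trans ?_)
      rw [zero_sub, ← neg_smul]
      exact le_smul one_nn hΛ2
  change H20.tr (tpF _) _ - H20.tr _ _ ≤ Λ * (_ + rel τ (tpF _) / r) at a4
  rw [tr_cut, tr_cut, trX_tpF, ← hW, Fintype.card_fin] at a4
  have a5 : H20.tr (trX τ) (lg W - lg σ) = rel (trX τ) σ - rel (trX τ) W := by
    simp only [rel, lg, tr_sub]
    ring
  rw [Real.log_mul (mul_pos hc (pow_pos l0 m)).ne' t0.ne', Real.log_mul hc.ne' (pow_pos l0 m).ne',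
    Real.log_pow] at a2
  have a6 := Real.log_le_log t0 t1
  have a7 : Λ * (m * r + rel τ (tpF fun i => blockDiagonal (F i)) / r) ≤ Λ * (m * r + ρ / r) := by
    gcongr
  change H20.tr W (lg W - lg σ) ≤ _
  linarith

end Pool.Agent.MP_47bb2a_mp.H20
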