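import Pool.Agent.MP_47bb2a_mp.H20.Cone

/-! Entanglement bounds for the elements of the convex hull. -/

open scoped ComplexOrder MatrixOrder ComplexConjugate Kronecker Topology
open Matrix Filter Real

namespace Pool.Agent.MP_47bb2a_mp.H20

open H97

variable {A B : Type} [Fintype A] [DecidableEq A] [Fintype B] [DecidableEq B]
  {ω : Matrix (A × B) (A × B) ℂ} {t : ℝ}

theorem coe_sum {X : Type*} (s : Finset X) (f : X → ℝ) :
    ((∑ j ∈ s, f j : ℝ) : EReal) = ∑ j ∈ s, (f j : EReal) := by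
  classical
  induction s using Finset.induction_on with
  | empty => simp
  | insert a s ha ih => rw [Finset.sum_insert ha, Finset.sum_insert ha, EReal.coe_add, ih]

theorem hull_rep (hω : IsState ω) (h : t • ω ∈ convexHull ℝ (C0 A B)) :
    0 < t ∧ ∃ (X : Type) (_ : Fintype X) (_ : Nonempty X) (l : X → ℝ)
      (Z : X → Matrix (A × B) (A × B) ℂ), (∀ j, 0 < l j) ∧ ∑ j, l j = 1 ∧ (∀ j, Z j ∈ C0 A B) ∧
      ω = ∑ j, (l j / t) • Z j := by
  obtain ⟨X, _, Z, l, h1, -, h2, h3, h4⟩ := eq_pos_convex_span_of_mem_convexHull h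
  have ne : Nonempty X := by
    by_contra h
    rw [not_nonempty_iff] at h
    simp at h3
  have : Nonempty (A × B) := by
    by_contra h
    rw [not_nonempty_iff] at h
    simpa [trace] using hω.2
  have t0 : 0 < t := by
    have := congrArg (fun M : Matrix (A × B) (A × B) ℂ => M.trace.re) h4
    simp only [trace_sum, trace_smul, hω.2, Complex.re_sum, Complex.smul_re, Complex.one_re,
      smul_eq_mul, mul_one] at this
    exact this ▸ Finset.sum_pos (fun j _ => mul_pos (h2 j)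
      (Complex.pos_iff.1 (h1 ⟨j, rfl⟩).1.trace_pos).1) Finset.univ_nonempty
  refine ⟨t0, X, inferInstance, ne, l, Z, h2, h3, fun j => h1 ⟨j, rfl⟩, ?_⟩
  simp only [div_eq_inv_mul, mul_smul, ← Finset.smul_sum, h4, inv_smul_smul₀ t0.ne']

theorem hull_pair [Nonempty A] [Nonempty B] (hω : IsState ω)
    (h : t • ω ∈ convexHull ℝ (C0 A B)) {Δ : ℝ} (hΔ : 0 < Δ) :
    ∀ᶠ n : ℕ in atTop, ∃ σ ∈ Sep A B (n + n), σ.PosDef ∧
      rel (k2 (tp n ω) (tp n ωᵀ)) σ ≤ n * (-2 * log t + Δ) := by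
  classical
  obtain ⟨t0, X, _, _, l, Z, l0, l1, hZ, e⟩ := hull_rep hω h
  choose Zpd u v a b hu hv a0 b0 a1 b1 hq using hZ
  choose U z hU z0 eZ using fun j => exists_sp_pd (Zpd j)
  have uU : Uni (blockDiagonal U) := Uni.block hU
  have e1 : ∀ j, sp (U j) (fun x => l j / t * z j x) = (l j / t) • Z j := fun j => by
    rw [eZ, sp_smul]
  have p0 : ∀ j x, 0 < l j / t * z j x := fun j x => mul_pos (div_pos (l0 j) t0) (z0 j x)
  have tr1 : (blockDiagonal fun j => sp (U j) fun x => l j / t * z j x).trace = 1 := by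
    rw [trace_blockDiagonal, ← trace_sum, funext e1, ← e, hω.2]
  have p1 : ∑ w : (A × B) × X, l w.2 / t * z w.2 w.1 = 1 := by
    rwa [block_sp, sp_trace uU, Complex.ofReal_eq_one] at tr1
  have a0' : ∀ j x, 0 < l j * a j x := fun j x => mul_pos (l0 j) (a0 j x)
  have key := rel_le_two (ρ := blockDiagonal fun j => sp (U j) fun x => l j / t * z j x)
    ⟨by rw [block_sp]; exact sp_psd _ fun w => (p0 _ _).le, tr1⟩
    (Uni.block fun j => (hu j).kron (hv j)) (r := fun w => l w.2 * a w.2 w.1.1 * b w.2 w.1.2)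
    (fun w => mul_pos (a0' _ _) (b0 _ _)) (M := (t ^ 2)⁻¹) (by positivity) (by
      rw [← block_sp (fun j => u j ⊗ₖ v j) fun j x => (√(l j * a j x.1 * b j x.2))⁻¹,
        ← blockDiagonal_mul, tr, ← blockDiagonal_mul, trace_blockDiagonal, Complex.re_sum,
        ← mul_one (t ^ 2)⁻¹, ← l1, Finset.mul_sum]
      refine Finset.sum_le_sum fun j _ => ?_
      have e2 : sp (u j ⊗ₖ v j) (fun x => (√(l j * a j x.1 * b j x.2))⁻¹) =
          (√(l j))⁻¹ • sp (u j ⊗ₖ v j) fun x => (√(a j x.1 * b j x.2))⁻¹ := by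
        simp only [sp_smul, mul_assoc, sqrt_mul (l0 j).le, mul_inv]
      rw [e1, e2, ← tr, Matrix.smul_mul, Matrix.mul_smul, smul_smul, tr_smul, smul_tr, ← mul_assoc,
        mul_mul_mul_comm, ← mul_inv, mul_self_sqrt (l0 j).le]
      refine (mul_le_of_le_one_right (by have := l0 j; positivity) (hq j)).trans (le_of_eq ?_)
      have := (l0 j).ne'
      field_simp)
  filter_upwards [pair_le hU p0 p1 hu hv a0' b0 (le_of_eq (by
    simp only [Fintype.sum_prod_type_right, mul_assoc, ← Finset.mul_sum,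
      ← Finset.sum_mul, a1, b1, mul_one, l1])) hΔ] with n ⟨σ, s1, s2, s3⟩
  refine ⟨σ, s1, s2, ?_⟩
  rw [log_inv, log_pow] at key
  simp only [e1, ← e] at s3 key
  refine s3.trans (mul_le_mul_of_nonneg_left ?_ n.cast_nonneg)
  push_cast at key
  linarith

theorem hull_roof (hω : IsState ω) (h : t • ω ∈ convexHull ℝ (C0 A B)) :
    roofInfo ω ≤ (-2 * log t : ℝ) := by
  obtain ⟨t0, X, _, _, l, Z, l0, l1, hZ, e⟩ := hull_rep hω h
  choose Zpd u v a b hu hv a0 b0 a1 b1 hq using hZ
  have : Nonempty (A × B) := by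
    by_contra h
    rw [not_nonempty_iff] at h
    simpa [trace] using hω.2
  have s0 : ∀ j, 0 < (Z j).trace.re := fun j => (Complex.pos_iff.1 (Zpd j).trace_pos).1
  have st : ∀ j, IsState ((Z j).trace.re⁻¹ • Z j) := fun j => norm_state (Zpd j).posSemidef (s0 j)
  have q1 : ∑ j, l j / t * (Z j).trace.re = 1 := by
    have := congrArg Complex.re hω.2
    rw [e] at this
    simpa only [trace_sum, trace_smul, Complex.re_sum, Complex.smul_re, Complex.one_re,
      smul_eq_mul] using this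
  let f := (Fintype.equivFin X).symm
  unfold roofInfo
  refine iInf_le_of_le (Fintype.card X) (iInf_le_of_le (fun j => l (f j) / t * (Z (f j)).trace.re)
    (iInf_le_of_le (fun j => (Z (f j)).trace.re⁻¹ • Z (f j)) (iInf_le_of_le
    (fun j => sp (u (f j)) (a (f j))) (iInf_le_of_le (fun j => sp (v (f j)) (b (f j)))
    (iInf_le_of_le ⟨fun j => ⟨(mul_pos (div_pos (l0 _) t0) (s0 _)).le, st _,
      ⟨sp_psd _ fun x => (a0 _ x).le, by rw [sp_trace (hu _), a1, Complex.ofReal_one]⟩,
      sp_psd _ fun x => (b0 _ x).le, by rw [sp_trace (hv _), b1, Complex.ofReal_one]⟩,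
      (f.sum_comp fun j => l j / t * (Z j).trace.re).trans q1, ?_⟩ ?_)))))
  · rw [f.sum_comp fun j => (l j / t * (Z j).trace.re) • (Z j).trace.re⁻¹ • Z j, e]
    exact Finset.sum_congr rfl fun j _ => by rw [smul_smul, mul_inv_cancel_right₀ (s0 j).ne']
  rw [f.sum_comp fun j => ((l j / t * (Z j).trace.re : ℝ) : EReal) *
    relEnt ((Z j).trace.re⁻¹ • Z j) (sp (u j) (a j) ⊗ₖ sp (v j) (b j))]
  simp only [kron_sp, fun j ρ => relEnt_eq ρ (sp_pd ((hu j).kron (hv j))
    (d := fun x => a j x.1 * b j x.2) fun x => mul_pos (a0 _ _) (b0 _ _)), ← EReal.coe_mul]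
  rw [← coe_sum, EReal.coe_le_coe_iff]
  have key : ∀ j, l j / t * (Z j).trace.re * rel ((Z j).trace.re⁻¹ • Z j)
      (sp (u j ⊗ₖ v j) fun x => a j x.1 * b j x.2) ≤
      -2 * log t * (l j / t * (Z j).trace.re) + 2 * (l j - l j / t * (Z j).trace.re) := fun j => by
    have s := s0 j
    have h1 := rel_le_two (st j) ((hu j).kron (hv j)) (r := fun x => a j x.1 * b j x.2)
      (fun x => mul_pos (a0 _ _) (b0 _ _)) (M := ((Z j).trace.re ^ 2)⁻¹) (by positivity) (by
        rw [Matrix.smul_mul, tr_smul, smul_tr, ← mul_assoc, ← mul_inv, ← sq]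
        exact mul_le_of_le_one_right (by positivity) (hq j))
    have h2 := log_le_sub_one_of_pos (div_pos t0 s)
    rw [log_div t0.ne' s.ne'] at h2
    rw [log_inv, log_pow] at h1
    have h3 : l j / t * (Z j).trace.re * (t / (Z j).trace.re) = l j := by field_simp
    have h4 := mul_pos (div_pos (l0 j) t0) s
    push_cast at h1
    nlinarith [mul_le_mul_of_nonneg_left h1 h4.le, mul_le_mul_of_nonneg_left h2 h4.le]
  refine (Finset.sum_le_sum fun j _ => key j).trans (le_of_eq ?_)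
  rw [Finset.sum_add_distrib, ← Finset.mul_sum, ← Finset.mul_sum, Finset.sum_sub_distrib, q1, l1]
  ring

end Pool.Agent.MP_47bb2a_mp.H20
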