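import Pool.Agent.MP_47bb2a_mp.H20.Typ

/-! The relative entropy of entanglement of a state tensored with its conjugate. -/

open scoped ComplexOrder MatrixOrder ComplexConjugate Kronecker Topology
open Matrix Filter Real

namespace Pool.Agent.MP_47bb2a_mp.H20

open H97

variable {ι A B X : Type*} [Fintype ι] [DecidableEq ι] [Fintype A] [DecidableEq A] [Fintype B]
  [DecidableEq B] [Fintype X] [DecidableEq X] {n : ℕ}

omit [Fintype ι] [DecidableEq ι] in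
theorem tpF_app {Y : Type*} (φ : Y → Matrix ι ι ℂ) (f g : Y) :
    tpF (fun i => φ (Fin.append (fun _ : Fin n => f) (fun _ : Fin n => g) i)) =
      k2 (tp n (φ f)) (tp n (φ g)) := by
  ext x y
  simp only [tp, tpF, k2, Fin.prod_univ_add, lf, rt, of_apply, Fin.append_left, Fin.append_right]

theorem forall_app {Y : Type*} {P : Y → Prop} {f g : Y} (hf : P f) (hg : P g) (i : Fin (n + n)) :
    P (Fin.append (fun _ : Fin n => f) (fun _ : Fin n => g) i) := by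
  refine Fin.addCases (fun i => ?_) (fun i => ?_) i
  · rwa [Fin.append_left]
  · rwa [Fin.append_right]

theorem exists_lb [Nonempty ι] {ω : Matrix ι ι ℂ} (h : ω.PosDef) (h1 : ω.trace = 1) :
    ∃ μ : ℝ, 0 < μ ∧ (μ • 1 ≤ ω ∧ ω ≤ 1) ∧ μ • 1 ≤ ωᵀ ∧ ωᵀ ≤ 1 := by
  obtain ⟨U, d, hU, hd, rfl⟩ := exists_sp_pd h
  obtain ⟨i, -, hi⟩ := Finset.exists_min_image Finset.univ d Finset.univ_nonempty
  rw [sp_trace hU, Complex.ofReal_eq_one] at h1
  have key : ∀ V, Uni V → d i • 1 ≤ sp V d ∧ sp V d ≤ 1 := fun V hV => by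
    rw [← one_smul ℝ (1 : Matrix ι ι ℂ), smul_smul, ← sp_const hV, ← sp_const hV]
    exact ⟨sp_le _ fun k => by simpa using hi k (Finset.mem_univ k), sp_le _ fun k =>
      h1 ▸ Finset.single_le_sum (f := d) (fun k _ => (hd k).le) (Finset.mem_univ k)⟩
  exact ⟨d i, hd i, key U hU, sp_transpose U d ▸ key _ hU.cj⟩

theorem near_one {U : Matrix ι ι ℂ} (hU : Uni U) {f : ι → ℝ} {c : ℝ} (h : ∀ i, |f i - 1| ≤ c) :
    (sp U f - 1) * (sp U f - 1)ᴴ ≤ c ^ 2 • 1 := by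
  rw [← sp_const hU, ← one_smul ℝ (1 : Matrix ι ι ℂ), ← sp_const hU, sp_sub, (sp_herm _ _).eq,
    sp_mul hU]
  exact sp_le _ fun i => by
    rw [← sq, ← sq_abs]
    exact pow_le_pow_left₀ (abs_nonneg _) (h i) 2

theorem pair_le [Nonempty A] [Nonempty B] [Nonempty X] {U : X → Matrix (A × B) (A × B) ℂ}
    (hU : ∀ j, Uni (U j)) {p : X → A × B → ℝ} (p0 : ∀ j x, 0 < p j x)
    (p1 : ∑ z : (A × B) × X, p z.2 z.1 = 1) {u : X → Matrix A A ℂ}
    {v : X → Matrix B B ℂ} (hu : ∀ j, Uni (u j)) (hv : ∀ j, Uni (v j)) {a : X → A → ℝ}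
    {b : X → B → ℝ} (a0 : ∀ j x, 0 < a j x) (b0 : ∀ j x, 0 < b j x)
    (ab : ∑ z : (A × B) × X, a z.2 z.1.1 * b z.2 z.1.2 ≤ 1) {Δ : ℝ} (hΔ : 0 < Δ) :
    ∀ᶠ n : ℕ in atTop, ∃ σ ∈ Sep A B (n + n), σ.PosDef ∧
      rel (k2 (tp n (∑ j, sp (U j) (p j))) (tp n (∑ j, sp (U j) (p j))ᵀ)) σ ≤
        n * (rel (blockDiagonal fun j => sp (U j) (p j))
          (sp (blockDiagonal fun j => u j ⊗ₖ v j) fun z => a z.2 z.1.1 * b z.2 z.1.2) + Δ) := by
  have uU : Uni (blockDiagonal U) := Uni.block hU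
  have uV : Uni (blockDiagonal fun j => u j ⊗ₖ v j) := Uni.block fun j => (hu j).kron (hv j)
  have Ωpd : (blockDiagonal fun j => sp (U j) (p j)).PosDef := by
    rw [block_sp]
    exact sp_pd uU fun z => p0 _ _
  have Ω1 : (blockDiagonal fun j => sp (U j) (p j)).trace = 1 := by
    rw [block_sp, sp_trace uU, p1, Complex.ofReal_one]
  have ωpd : (∑ j, sp (U j) (p j)).PosDef := by
    obtain ⟨j⟩ := ‹Nonempty X›
    rw [← Finset.add_sum_erase _ _ (Finset.mem_univ j)]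
    exact (sp_pd (hU j) (p0 j)).add_posSemidef
      (posSemidef_sum _ fun j _ => sp_psd _ fun x => (p0 j x).le)
  obtain ⟨μ, hμ, m1, m2⟩ := exists_lb ωpd (by rw [trace_sum, ← trace_blockDiagonal, Ω1])
  obtain ⟨S, hS⟩ : ∃ S, S = ∑ z : (A × B) × X, p z.2 z.1 * -log (p z.2 z.1) := ⟨_, rfl⟩
  set M := -tr (blockDiagonal fun j => sp (U j) (p j)) (sp (blockDiagonal fun j => u j ⊗ₖ v j)
    fun z => log (a z.2 z.1.1 * b z.2 z.1.2)) with hM
  have eR : rel (blockDiagonal fun j => sp (U j) (p j))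
      (sp (blockDiagonal fun j => u j ⊗ₖ v j) fun z => a z.2 z.1.1 * b z.2 z.1.2) = M - S := by
    rw [rel, tr_sub, cfc_sp uV, hM, block_sp, cfc_sp uU, tr.eq_1 _ (sp (blockDiagonal U) _),
      sp_mul uU, sp_trace uU, Complex.ofReal_re, hS]
    simp only [mul_neg, Finset.sum_neg_distrib]
    ring
  obtain ⟨δ, d1, d2, d0⟩ : ∃ δ : ℝ, log ((1 + δ) / (1 - δ)) < Δ / 6 ∧ δ < 1 ∧ 0 < δ := by
    have h1 : ContinuousAt (fun δ : ℝ => log ((1 + δ) / (1 - δ))) 0 := by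
      fun_prop (disch := norm_num)
    have h2 := h1.tendsto.eventually_lt_const (u := Δ / 6) (by simpa using hΔ)
    exact (((h2.and (eventually_lt_nhds one_pos)).filter_mono nhdsWithin_le_nhds).and
      (self_mem_nhdsWithin (s := Set.Ioi (0 : ℝ)))).exists.imp fun _ h => ⟨h.1.1, h.1.2, h.2⟩
  obtain ⟨Λ, hΛ, L1, L2⟩ : ∃ Λ : ℝ, 0 < Λ ∧ log ((Fintype.card (A × B) : ℝ) ^ 2) - log μ ≤ Λ ∧
      -log δ ≤ Λ := ⟨max 1 (max _ _), lt_max_of_lt_left one_pos,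
    le_max_of_le_right (le_max_left _ _), le_max_of_le_right (le_max_right _ _)⟩
  have hr : 0 < Δ / (6 * Λ) := by positivity
  obtain ⟨κ, k1, k2', k3, k0⟩ : ∃ κ : ℝ, 2 * κ * S + 5 * κ ^ 2 +
      Λ * ((2 * κ * S + 7 * κ ^ 2 + 8 * κ) / (Δ / (6 * Λ))) < Δ / 3 ∧ κ < 1 / 2 ∧
      (∀ j x, |p j x ^ (κ / 2) - 1| < δ / Fintype.card (A × B)) ∧ 0 < κ := by
    have h1 : ContinuousAt (fun κ : ℝ => 2 * κ * S + 5 * κ ^ 2 +
      Λ * ((2 * κ * S + 7 * κ ^ 2 + 8 * κ) / (Δ / (6 * Λ)))) 0 := by fun_prop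
    have h2 := h1.tendsto.eventually_lt_const (u := Δ / 3) (by simpa using hΔ)
    have h3 : ∀ᶠ κ : ℝ in 𝓝 0, ∀ j x, |p j x ^ (κ / 2) - 1| < δ / Fintype.card (A × B) :=
      eventually_all.2 fun j => eventually_all.2 fun x => by
        have h4 : ContinuousAt (fun κ : ℝ => |p j x ^ (κ / 2) - 1|) 0 :=
          ((((continuous_const_rpow (p0 j x).ne').comp (continuous_id.div_const 2)).sub
            continuous_const).abs).continuousAt
        exact h4.tendsto.eventually_lt_const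
          (by simpa using div_pos d0 (H42.card_pos (A := A × B)))
    exact ((((h2.and (eventually_lt_nhds (show (0 : ℝ) < 1 / 2 by norm_num))).and h3).filter_mono
      nhdsWithin_le_nhds).and (self_mem_nhdsWithin (s := Set.Ioi (0 : ℝ)))).exists.imp
      fun _ h => ⟨h.1.1.1, h.1.1.2, h.1.2, h.2⟩
  have hγ : 0 < κ ^ 2 := by positivity
  filter_upwards [tau uU (p := fun z => p z.2 z.1) (fun z => p0 _ _) p1 hS k0 k2'.le hγ,
    typ ⟨Ωpd.posSemidef, Ω1⟩ hu hv a0 b0 ab hγ, poly_le 0 hγ 2] with n c1 c2 c3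
  obtain ⟨Q, q1, q2, q3, q4, q5, q6⟩ := c2
  rw [← block_sp, ← block_sp U fun j x => p j x ^ (κ / 2)] at c1
  rw [← hM] at q5
  obtain ⟨η, τ, η0, η1, t1, t2, t3, t4⟩ := c1 Q _ q1 q2 q3 q4 (exp_pos (n * (M + 2 * κ ^ 2)))
  have P0 := (orb_psd (pv ((A × B) × X)) (v2 (1 : Matrix (Fin n → (A × B) × X) _ ℂ))
    ).mul_mul_conjTranspose_same (k2 Q 1)
  obtain ⟨σ, s1, s2, s3⟩ := descend (m := n + n)
    (F := Fin.append (fun _ j => sp (U j) (p j)) fun _ j => (sp (U j) (p j))ᵀ)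
    (k := Fin.append (fun _ j => sp (U j) fun x => p j x ^ (κ / 2))
      fun _ j => (sp (U j) fun x => p j x ^ (κ / 2))ᵀ)
    (forall_app (P := fun F => (blockDiagonal F).PosDef) Ωpd
      (by rw [← blockDiagonal_transpose]; exact Ωpd.transpose))
    (forall_app (P := fun F => (blockDiagonal F).trace = 1) Ω1
      (by rw [← blockDiagonal_transpose, trace_transpose, Ω1]))
    hμ d0 d2 (exp_pos (n * (-S + 2 * κ * S + 2 * κ ^ 2))) hr hΛ L1 L2
    (forall_app (P := fun F : X → Matrix (A × B) (A × B) ℂ => μ • 1 ≤ ∑ j, F j ∧ ∑ j, F j ≤ 1) m1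
      (by rwa [← transpose_sum]))
    (forall_app (P := fun F : X → Matrix (A × B) (A × B) ℂ => ∀ j, (F j - 1) * (F j - 1)ᴴ ≤
      (δ / Fintype.card (A × B)) ^ 2 • 1) (fun j => near_one (hU j) fun x => (k3 j x).le)
      fun j => by rw [sp_transpose]; exact near_one (hU j).cj fun x => (k3 j x).le)
    (S := k2 Q 1 * orb (pv _) (v2 1) * (k2 Q 1)ᴴ + η • 1) (τ := τ)
    (t := 2 * rexp (n * (M + 2 * κ ^ 2))) (ρ := n * (2 * κ * S + 7 * κ ^ 2 + 8 * κ ^ 2 / κ))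
    (pd_of_le (pd_rsmul PosDef.one η0) (by simpa using P0))
    (by
      rw [trX_add, trX_smul, ← cut_one (n := n + n), cut_blk, trX_blk]
      exact q6.add ((sc_sum _ fun _ => sc_one).smul η0.le))
    (by
      rw [trace_add, Complex.add_re, trace_conj_orb pv_uni (k2_comm q3 _), k2_v2, v2_nsq,
        transpose_one, Matrix.mul_one, Matrix.mul_one, q1.eq, q2, trace_smul, trace_one,
        Complex.smul_re, Complex.natCast_re, smul_eq_mul]
      linarith)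
    t1 t2 (by rwa [tpF_app blockDiagonal, ← blockDiagonal_transpose])
    (by rwa [tpF_app blockDiagonal, ← blockDiagonal_transpose])
  refine ⟨σ, s1, s2, ?_⟩
  rw [tpF_app fun F : X → Matrix (A × B) (A × B) ℂ => ∑ j, F j, ← transpose_sum, log_exp,
    Real.log_mul two_ne_zero (exp_pos _).ne', log_exp] at s3
  rw [pow_zero, mul_one, ← log_le_iff_le_exp two_pos] at c3
  have n0 : (0 : ℝ) ≤ n := n.cast_nonneg
  have e1 : Λ * ((n + n : ℕ) * (Δ / (6 * Λ)) + n * (2 * κ * S + 7 * κ ^ 2 + 8 * κ ^ 2 / κ) /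
      (Δ / (6 * Λ))) = n * (Δ / 3 + Λ * ((2 * κ * S + 7 * κ ^ 2 + 8 * κ) / (Δ / (6 * Λ)))) := by
    push_cast
    field_simp
    ring
  rw [e1] at s3
  rw [eR]
  push_cast at s3
  nlinarith [mul_le_mul_of_nonneg_left k1.le n0, mul_le_mul_of_nonneg_left d1.le n0]

end Pool.Agent.MP_47bb2a_mp.H20
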