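import Pool.Agent.MP_47bb2a_mp.H20.Tilt

/-! Permutation operators, doubled systems and the number of orbits. -/

open scoped ComplexOrder MatrixOrder ComplexConjugate
open Matrix

namespace Pool.Agent.MP_47bb2a_mp.H20

open H97

variable {ι : Type*} {n : ℕ}

/-- First half of a configuration on `n + n` sites. -/
def lf (x : Fin (n + n) → ι) : Fin n → ι := fun i => x (Fin.castAdd n i)

/-- Second half of a configuration on `n + n` sites. -/
def rt (x : Fin (n + n) → ι) : Fin n → ι := fun i => x (Fin.natAdd n i)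

/-- Tensor product of operators on the two halves. -/
def k2 (M N : Matrix (Fin n → ι) (Fin n → ι) ℂ) :
    Matrix (Fin (n + n) → ι) (Fin (n + n) → ι) ℂ :=
  of fun x y => M (lf x) (lf y) * N (rt x) (rt y)

/-- An operator on one half as a vector on both halves. -/
def v2 (X : Matrix (Fin n → ι) (Fin n → ι) ℂ) : (Fin (n + n) → ι) → ℂ := fun x => X (lf x) (rt x)

theorem tpF_append (F G : Fin n → Matrix ι ι ℂ) : tpF (Fin.append F G) = k2 (tpF F) (tpF G) := by
  ext x y
  simp only [tpF, k2, Fin.prod_univ_add, lf, rt, of_apply, Fin.append_left, Fin.append_right]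

theorem k2_ct (M N : Matrix (Fin n → ι) (Fin n → ι) ℂ) : (k2 M N)ᴴ = k2 Mᴴ Nᴴ := by
  ext x y
  simp [k2]

theorem tp_transpose (M : Matrix ι ι ℂ) : (tp n M)ᵀ = tp n Mᵀ := rfl

variable [Fintype ι]

theorem sum2 (f : (Fin n → ι) → (Fin n → ι) → ℂ) :
    ∑ x : Fin (n + n) → ι, f (lf x) (rt x) = ∑ a, ∑ b, f a b := by
  rw [← Fintype.sum_prod_type']
  exact Fintype.sum_equiv (Fin.appendEquiv n n).symm _ _ fun _ => rfl

theorem k2_mul (M N M' N' : Matrix (Fin n → ι) (Fin n → ι) ℂ) :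
    k2 M N * k2 M' N' = k2 (M * M') (N * N') := by
  ext x y
  simp only [k2, mul_apply, of_apply, Finset.sum_mul_sum]
  rw [← sum2]
  exact Finset.sum_congr rfl fun _ _ => by ring

theorem k2_trace (M N : Matrix (Fin n → ι) (Fin n → ι) ℂ) : (k2 M N).trace = M.trace * N.trace := by
  simp only [k2, trace, diag_apply, of_apply, Finset.sum_mul_sum]
  rw [← sum2]

theorem k2_v2 (M N X : Matrix (Fin n → ι) (Fin n → ι) ℂ) :
    k2 M N *ᵥ v2 X = v2 (M * X * Nᵀ) := by
  ext x
  simp only [k2, v2, mulVec, dotProduct, mul_apply, of_apply, Finset.sum_mul, transpose_apply]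
  rw [Finset.sum_comm, ← sum2]
  exact Finset.sum_congr rfl fun _ _ => by ring

theorem v2_dot (X Y : Matrix (Fin n → ι) (Fin n → ι) ℂ) :
    star (v2 X) ⬝ᵥ v2 Y = (Xᴴ * Y).trace := by
  simp only [v2, dotProduct, trace, diag_apply, mul_apply, conjTranspose_apply, Pi.star_apply]
  rw [Finset.sum_comm, ← sum2]

theorem v2_nsq (X : Matrix (Fin n → ι) (Fin n → ι) ℂ) : nsq (v2 X) = (Xᴴ * X).trace.re := by
  rw [← v2_dot, dot_self, Complex.ofReal_re]

variable [DecidableEq ι]

omit [Fintype ι] in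
theorem k2_one : k2 (1 : Matrix (Fin n → ι) (Fin n → ι) ℂ) 1 = 1 := by
  rw [← tp_one, tp_eq, ← tpF_append, ← tp_one, tp_eq]
  congr 1
  ext1 i
  refine Fin.addCases (fun i => ?_) (fun i => ?_) i
  exacts [Fin.append_left _ _ _, Fin.append_right _ _ _]

/-- The operator permuting the sites. -/
def pm (ι : Type*) [DecidableEq ι] (g : Equiv.Perm (Fin n)) : Matrix (Fin n → ι) (Fin n → ι) ℂ :=
  of fun x y => if x ∘ g = y then 1 else 0

theorem pm_mul_apply {K : Type*} (g : Equiv.Perm (Fin n)) (M : Matrix (Fin n → ι) K ℂ)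
    (x : Fin n → ι) (y : K) : (pm ι g * M) x y = M (x ∘ g) y := by
  simp [pm, mul_apply]

theorem mul_pm_apply {K : Type*} (g : Equiv.Perm (Fin n)) (M : Matrix K (Fin n → ι) ℂ)
    (x : K) (y : Fin n → ι) : (M * pm ι g) x y = M x (y ∘ g.symm) := by
  simp [pm, mul_apply, ← Equiv.eq_comp_symm]

theorem pm_mul (g h : Equiv.Perm (Fin n)) : pm ι (g * h) = pm ι g * pm ι h := by
  ext x y
  rw [pm_mul_apply]
  rfl

theorem pm_uni (g : Equiv.Perm (Fin n)) : Uni (pm ι g) := by
  refine mul_eq_one_comm.1 ?_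
  ext x y
  rw [pm_mul_apply]
  simp [pm, one_apply, eq_comm, g.surjective.right_cancellable]

theorem symm_comm {M : Matrix (Fin n → ι) (Fin n → ι) ℂ} (h : Symm M) (g : Equiv.Perm (Fin n)) :
    M * pm ι g = pm ι g * M := by
  ext x y
  rw [pm_mul_apply, mul_pm_apply, ← h g]
  simp [Function.comp_assoc]

theorem sp_comm {U : Matrix ι ι ℂ} {d : (Fin n → ι) → ℝ}
    (hd : ∀ (g : Equiv.Perm (Fin n)) x, d (x ∘ g) = d x) (g : Equiv.Perm (Fin n)) :
    sp (tp n U) d * pm ι g = pm ι g * sp (tp n U) d := by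
  have h : Symm (rd d) := fun g x y => by
    simp [rd, diagonal_apply, g.surjective.right_cancellable, hd]
  rw [sp, tp_ct, Matrix.mul_assoc, symm_comm (tp_symm _), Matrix.mul_assoc,
    ← Matrix.mul_assoc (rd d), symm_comm h, ← Matrix.mul_assoc, ← Matrix.mul_assoc,
    symm_comm (tp_symm _)]
  simp only [Matrix.mul_assoc]

/-- The action of permutations on the first half. -/
def pv (ι : Type*) [DecidableEq ι] (g : Equiv.Perm (Fin n)) :
    Matrix (Fin (n + n) → ι) (Fin (n + n) → ι) ℂ := k2 (pm ι g) 1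

theorem pv_uni (g : Equiv.Perm (Fin n)) : Uni (pv ι g) := by
  rw [Uni, pv, k2_ct, k2_mul, pm_uni, conjTranspose_one, Matrix.mul_one, k2_one]

theorem pv_mul (g h : Equiv.Perm (Fin n)) : pv ι (g * h) = pv ι g * pv ι h := by
  rw [pv, pv, pv, k2_mul, pm_mul, Matrix.mul_one]

theorem k2_comm {M : Matrix (Fin n → ι) (Fin n → ι) ℂ} (h : ∀ g, M * pm ι g = pm ι g * M)
    (N : Matrix (Fin n → ι) (Fin n → ι) ℂ) (g : Equiv.Perm (Fin n)) :
    k2 M N * pv ι g = pv ι g * k2 M N := by
  rw [pv, k2_mul, k2_mul, h, Matrix.mul_one, Matrix.one_mul]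

theorem sum_fix (κ : Type*) [Fintype κ] [DecidableEq κ] :
    ∑ g : Equiv.Perm (Fin n), (Finset.univ.filter fun x : Fin n → κ => x ∘ g = x).card ≤
      (n + 1) ^ Fintype.card κ * Fintype.card (Equiv.Perm (Fin n)) := by
  classical
  let _ : MulAction (Equiv.Perm (Fin n)) (Fin n → κ) := arrowAction
  have h1 := MulAction.sum_card_fixedBy_eq_card_orbits_mul_card_group (Equiv.Perm (Fin n))
    (Fin n → κ)
  have h2 : ∑ g : Equiv.Perm (Fin n), (Finset.univ.filter fun x : Fin n → κ => x ∘ g = x).card =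
      ∑ g : Equiv.Perm (Fin n), Fintype.card (MulAction.fixedBy (Fin n → κ) g) :=
    Fintype.sum_equiv (Equiv.inv _) _ _ fun g => by
      rw [Fintype.card_subtype]
      rfl
  rw [h2, h1]
  refine Nat.mul_le_mul_right _ ?_
  let t : (Fin n → κ) → κ → Fin (n + 1) := fun x c =>
    ⟨Fintype.card {i // x i = c}, Nat.lt_succ_of_le ((Fintype.card_subtype_le _).trans (by simp))⟩
  have := Fintype.card_le_of_injective
    (fun o : Quotient (MulAction.orbitRel (Equiv.Perm (Fin n)) (Fin n → κ)) => t o.out)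
    fun o o' h => by
      rw [← o.out_eq, ← o'.out_eq]
      refine Quotient.sound ⟨(Equiv.ofFiberEquiv (f := o.out) (g := o'.out) fun c =>
        Fintype.equivOfCardEq (congrArg Fin.val (congrFun h c))).symm, ?_⟩
      ext i
      exact Equiv.ofFiberEquiv_map _ i
  simpa using this

theorem orb_sq : tr (orb (pv ι) (v2 (1 : Matrix (Fin n → ι) _ ℂ))) (orb (pv ι) (v2 1)) ≤
    ((n : ℝ) + 1) ^ (Fintype.card ι * Fintype.card ι) := by
  have c0 : (0 : ℝ) < Fintype.card (Equiv.Perm (Fin n)) := by exact_mod_cast Fintype.card_pos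
  set o := orb (pv ι) (v2 (1 : Matrix (Fin n → ι) _ ℂ)) with ho
  have po : o.PosSemidef := orb_psd _ _
  have h1 := trace_conj_orb (v := v2 (1 : Matrix (Fin n → ι) _ ℂ)) pv_uni (Y := CFC.sqrt o)
    fun g => by
      obtain ⟨U, d, hU, hd, e⟩ := exists_sp_psd po
      rw [e, sqrt_sp hU hd]
      exact sp_intertwine hU hU (e ▸ orb_comm pv_uni pv_mul g) _
  rw [← q_ct_mul, trace_mul_cycle, (sqrt_psd o).1.eq, CFC.sqrt_mul_sqrt_self o po.nonneg] at h1
  rw [tr, h1, ← tr_vecMulVec, ← tr, tr_comm, ho, orb, tr_smul, tr_sum, inv_mul_le_iff₀ c0, mul_comm]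
  have h2 := sum_fix (n := n) (ι × ι)
  rw [Fintype.card_prod] at h2
  have h2' := (Nat.cast_le (α := ℝ)).2 h2
  push_cast at h2'
  refine le_trans (le_of_eq ?_) h2'
  refine Finset.sum_congr rfl fun g _ => ?_
  rw [tr, tr_vecMulVec, q, vecMulVec_mulVec, pv, k2_v2, op_smul_eq_smul, dotProduct_smul,
    star_dotProduct (v2 1), v2_dot, smul_eq_mul, RCLike.star_def, Complex.conj_mul']
  have h3 : ((pm ι g * 1 * 1ᵀ)ᴴ * 1).trace =
      ((Finset.univ.filter fun x : Fin n → ι => x ∘ g = x).card : ℂ) := by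
    simp [trace, pm]
  have h4 : (Finset.univ.filter fun x : Fin n → ι × ι => x ∘ g = x).card =
      (Finset.univ.filter fun x : Fin n → ι => x ∘ g = x).card ^ 2 := by
    rw [sq, ← Finset.card_product]
    refine Finset.card_equiv (Equiv.arrowProdEquivProdArrow _ _ _) fun x => ?_
    simp [funext_iff, Prod.ext_iff, forall_and]
  rw [h3, h4]
  norm_cast

end Pool.Agent.MP_47bb2a_mp.H20
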