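import Pool.Agent.MP_47bb2a_mp.H97.Sep

/-! Spectral forms `U * diag d * Uᴴ` and the functional calculus of Hermitian matrices. -/

open scoped ComplexOrder MatrixOrder ComplexConjugate Kronecker
open Matrix

namespace Pool.Agent.MP_47bb2a_mp.H20

open H97

variable {ι κ : Type*} [Fintype ι] [DecidableEq ι] [Fintype κ] [DecidableEq κ] {n : ℕ}

/-- A real diagonal matrix. -/
def rd (d : ι → ℝ) : Matrix ι ι ℂ := diagonal fun i => (d i : ℂ)

/-- The matrix with eigenvectors the columns of `U` and eigenvalues `d`. -/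
def sp (U : Matrix ι ι ℂ) (d : ι → ℝ) : Matrix ι ι ℂ := U * rd d * Uᴴ

/-- Unitary matrices. -/
def Uni (U : Matrix ι ι ℂ) : Prop := Uᴴ * U = 1

theorem Uni.mul_ct {U : Matrix ι ι ℂ} (h : Uni U) : U * Uᴴ = 1 := mul_eq_one_comm.1 h

theorem Uni.ct {U : Matrix ι ι ℂ} (h : Uni U) : Uni Uᴴ := by
  unfold Uni; rw [conjTranspose_conjTranspose]; exact h.mul_ct

theorem Uni.mul {U V : Matrix ι ι ℂ} (h : Uni U) (h' : Uni V) : Uni (U * V) := by
  unfold Uni at *
  rw [conjTranspose_mul, Matrix.mul_assoc, ← Matrix.mul_assoc Uᴴ, h, Matrix.one_mul, h']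

theorem uni_one : Uni (1 : Matrix ι ι ℂ) := by simp [Uni]

theorem Uni.tpF {U : Fin n → Matrix ι ι ℂ} (h : ∀ i, Uni (U i)) : Uni (tpF U) := by
  unfold Uni at *
  rw [tpF_ct, tpF_mul, funext h]
  exact tp_one

theorem Uni.kron {U : Matrix ι ι ℂ} {V : Matrix κ κ ℂ} (h : Uni U) (h' : Uni V) :
    Uni (U ⊗ₖ V) := by
  unfold Uni at *
  rw [conjTranspose_kronecker, ← mul_kronecker_mul, h, h', one_kronecker_one]

theorem rd_mul (d e : ι → ℝ) : rd d * rd e = rd fun i => d i * e i := by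
  simp [rd, diagonal_mul_diagonal]

omit [Fintype ι] in
theorem rd_ct (d : ι → ℝ) : (rd d)ᴴ = rd d := by
  simp only [rd, diagonal_conjTranspose]
  congr 1
  ext i
  simp

theorem sp_herm (U : Matrix ι ι ℂ) (d : ι → ℝ) : (sp U d).IsHermitian := by
  unfold sp IsHermitian
  rw [conjTranspose_mul, conjTranspose_mul, conjTranspose_conjTranspose, rd_ct, Matrix.mul_assoc]

theorem sp_mul {U : Matrix ι ι ℂ} (h : Uni U) (d e : ι → ℝ) :
    sp U d * sp U e = sp U fun i => d i * e i := by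
  unfold sp
  rw [← rd_mul]
  simp only [Matrix.mul_assoc]
  rw [← Matrix.mul_assoc Uᴴ U, h, Matrix.one_mul]

theorem sp_add (U : Matrix ι ι ℂ) (d e : ι → ℝ) : sp U d + sp U e = sp U fun i => d i + e i := by
  unfold sp
  rw [← Matrix.add_mul, ← Matrix.mul_add]
  simp [rd, diagonal_add]

theorem sp_sub (U : Matrix ι ι ℂ) (d e : ι → ℝ) : sp U d - sp U e = sp U fun i => d i - e i := by
  unfold sp
  rw [← Matrix.sub_mul, ← Matrix.mul_sub]
  simp [rd, diagonal_sub]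

theorem sp_smul (U : Matrix ι ι ℂ) (c : ℝ) (d : ι → ℝ) : c • sp U d = sp U fun i => c * d i := by
  unfold sp
  rw [← Matrix.smul_mul, ← Matrix.mul_smul]
  congr 2
  ext i j
  by_cases h : i = j <;> simp [rd, h]

theorem sp_const {U : Matrix ι ι ℂ} (h : Uni U) (c : ℝ) : sp U (fun _ => c) = c • 1 := by
  have : sp U (fun _ => 1) = 1 := by simp [sp, rd, h.mul_ct]
  rw [← this, sp_smul]
  simp

theorem sp_sum {α : Type*} (s : Finset α) (U : Matrix ι ι ℂ) (d : α → ι → ℝ) :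
    ∑ a ∈ s, sp U (d a) = sp U fun i => ∑ a ∈ s, d a i := by
  classical
  induction s using Finset.induction_on with
  | empty => simp [sp, rd]
  | insert a s ha ih => simp only [Finset.sum_insert ha, ih, sp_add]

theorem sp_psd (U : Matrix ι ι ℂ) {d : ι → ℝ} (h : ∀ i, 0 ≤ d i) : (sp U d).PosSemidef :=
  (PosSemidef.diagonal fun i => by simpa using h i).mul_mul_conjTranspose_same U

theorem sp_le (U : Matrix ι ι ℂ) {d e : ι → ℝ} (h : ∀ i, d i ≤ e i) :
    (sp U e - sp U d).PosSemidef := by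
  rw [sp_sub]; exact sp_psd U fun i => sub_nonneg.2 (h i)

theorem sp_pd {U : Matrix ι ι ℂ} (hU : Uni U) {d : ι → ℝ} (h : ∀ i, 0 < d i) :
    (sp U d).PosDef := by
  rw [(sp_psd U fun i => (h i).le).posDef_iff_isUnit]
  refine IsUnit.of_mul_eq_one (sp U fun i => (d i)⁻¹) ?_
  rw [sp_mul hU, funext fun i => mul_inv_cancel₀ (h i).ne', sp_const hU, one_smul]

theorem tr_mul_sp (M U : Matrix ι ι ℂ) (d : ι → ℝ) :
    (M * sp U d).trace.re = ∑ i, d i * ((Uᴴ * M * U) i i).re := by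
  unfold sp
  rw [← Matrix.mul_assoc, trace_mul_comm, ← Matrix.mul_assoc, ← Matrix.mul_assoc]
  simp [trace, rd, mul_comm]

theorem sp_trace {U : Matrix ι ι ℂ} (h : Uni U) (d : ι → ℝ) :
    (sp U d).trace = (∑ i, d i : ℝ) := by
  unfold sp
  rw [trace_mul_cycle, h]
  simp [rd]

theorem sp_apply_self (U : Matrix ι ι ℂ) (d : ι → ℝ) (i : ι) :
    (sp U d i i).re = ∑ k, d k * ‖U i k‖ ^ 2 := by
  simp only [sp, rd, mul_apply (M := U * _), mul_diagonal, conjTranspose_apply, Complex.re_sum]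
  refine Finset.sum_congr rfl fun k _ => ?_
  rw [mul_right_comm, RCLike.star_def, Complex.mul_conj', mul_comm]
  norm_cast

theorem conj_sp (V U : Matrix ι ι ℂ) (d : ι → ℝ) : V * sp U d * Vᴴ = sp (V * U) d := by
  simp only [sp, conjTranspose_mul, Matrix.mul_assoc]

theorem tr_sp_sp (U V : Matrix ι ι ℂ) (d e : ι → ℝ) :
    (sp U d * sp V e).trace.re = ∑ i, ∑ k, e i * d k * ‖(Vᴴ * U) i k‖ ^ 2 := by
  rw [tr_mul_sp]
  refine Finset.sum_congr rfl fun i _ => ?_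
  have := conj_sp Vᴴ U d
  rw [conjTranspose_conjTranspose] at this
  rw [this, sp_apply_self, Finset.mul_sum]
  exact Finset.sum_congr rfl fun k _ => by ring

theorem Uni.sum_row {U : Matrix ι ι ℂ} (h : Uni U) (i : ι) : ∑ k, ‖U i k‖ ^ 2 = 1 := by
  have := sp_apply_self U (fun _ => 1) i
  rw [sp_const h] at this
  simpa using this.symm

theorem Uni.sum_col {U : Matrix ι ι ℂ} (h : Uni U) (k : ι) : ∑ i, ‖U i k‖ ^ 2 = 1 := by
  simpa using h.ct.sum_row k

theorem rd_intertwine {d : ι → ℝ} {e : κ → ℝ} {Y : Matrix ι κ ℂ} (h : rd d * Y = Y * rd e)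
    (f : ℝ → ℝ) : rd (fun i => f (d i)) * Y = Y * rd fun i => f (e i) := by
  ext i k
  have := congrFun (congrFun h i) k
  simp only [rd, diagonal_mul, mul_diagonal] at this ⊢
  by_cases h0 : Y i k = 0
  · simp [h0]
  · rw [mul_comm] at this
    have h1 : d i = e k := by exact_mod_cast mul_left_cancel₀ h0 this
    rw [h1, mul_comm]

theorem sp_intertwine {U : Matrix ι ι ℂ} {V : Matrix κ κ ℂ} (hU : Uni U) (hV : Uni V)
    {d : ι → ℝ} {e : κ → ℝ} {X : Matrix ι κ ℂ} (h : sp U d * X = X * sp V e) (f : ℝ → ℝ) :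
    sp U (fun i => f (d i)) * X = X * sp V fun i => f (e i) := by
  have key : ∀ (d : ι → ℝ) (e : κ → ℝ), sp U d * X = X * sp V e ↔
      rd d * (Uᴴ * X * V) = (Uᴴ * X * V) * rd e := fun d e => by
    constructor
    · intro h
      have := congrArg (fun M => Uᴴ * M * V) h
      simp only [sp, Matrix.mul_assoc] at this
      rw [← Matrix.mul_assoc Uᴴ U, hU, hV, Matrix.one_mul, Matrix.mul_one] at this
      simpa only [Matrix.mul_assoc] using this
    · intro h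
      have := congrArg (fun M => U * M * Vᴴ) h
      simp only [Matrix.mul_assoc] at this
      rw [hV.mul_ct, Matrix.mul_one, ← Matrix.mul_assoc U Uᴴ, hU.mul_ct, Matrix.one_mul] at this
      simpa only [sp, Matrix.mul_assoc] using this
  exact (key _ _).2 (rd_intertwine ((key _ _).1 h) f)

theorem exists_sp' {A : Matrix ι ι ℂ} (hA : A.IsHermitian) :
    ∃ U d, Uni U ∧ A = sp U d ∧ ∀ f : ℝ → ℝ, cfc f A = sp U fun i => f (d i) := by
  refine ⟨hA.eigenvectorUnitary, hA.eigenvalues, ?_, ?_, fun f => ?_⟩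
  · exact hA.eigenvectorUnitary.2.1
  · conv_lhs => rw [hA.spectral_theorem]
    rfl
  · rw [hA.cfc_eq]
    rfl

theorem cfc_sp {U : Matrix ι ι ℂ} (hU : Uni U) (d : ι → ℝ) (f : ℝ → ℝ) :
    cfc f (sp U d) = sp U fun i => f (d i) := by
  obtain ⟨V, e, hV, h1, h2⟩ := exists_sp' (sp_herm U d)
  have := sp_intertwine hV hU (X := 1) (d := e) (e := d) (by simp [h1]) f
  rw [h2]
  simpa using this

theorem exists_sp {A : Matrix ι ι ℂ} (hA : A.IsHermitian) : ∃ U d, Uni U ∧ A = sp U d := by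
  obtain ⟨U, d, h1, h2, -⟩ := exists_sp' hA
  exact ⟨U, d, h1, h2⟩

theorem sp_diag_entry {U : Matrix ι ι ℂ} (hU : Uni U) (d : ι → ℝ) : Uᴴ * sp U d * U = rd d := by
  simp only [sp, Matrix.mul_assoc]
  rw [hU, ← Matrix.mul_assoc, hU, Matrix.one_mul, Matrix.mul_one]

theorem nonneg_of_sp {U : Matrix ι ι ℂ} (hU : Uni U) {d : ι → ℝ} (h : (sp U d).PosSemidef)
    (i : ι) : 0 ≤ d i := by
  have := (h.conjTranspose_mul_mul_same U).diag_nonneg (i := i)
  rw [sp_diag_entry hU] at this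
  simpa [rd] using this

theorem pos_of_sp {U : Matrix ι ι ℂ} (hU : Uni U) {d : ι → ℝ} (h : (sp U d).PosDef)
    (i : ι) : 0 < d i := by
  have h1 : (Uᴴ * sp U d * U).PosDef := by
    rw [(h.posSemidef.conjTranspose_mul_mul_same U).posDef_iff_isUnit]
    exact ((IsUnit.of_mul_eq_one U hU).mul h.isUnit).mul (IsUnit.of_mul_eq_one _ hU.mul_ct)
  have := h1.diag_pos (i := i)
  rw [sp_diag_entry hU] at this
  simpa [rd] using this

theorem exists_sp_psd {A : Matrix ι ι ℂ} (hA : A.PosSemidef) :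
    ∃ U d, Uni U ∧ (∀ i, 0 ≤ d i) ∧ A = sp U d := by
  obtain ⟨U, d, h1, rfl⟩ := exists_sp hA.1
  exact ⟨U, d, h1, nonneg_of_sp h1 hA, rfl⟩

theorem exists_sp_pd {A : Matrix ι ι ℂ} (hA : A.PosDef) :
    ∃ U d, Uni U ∧ (∀ i, 0 < d i) ∧ A = sp U d := by
  obtain ⟨U, d, h1, rfl⟩ := exists_sp hA.1
  exact ⟨U, d, h1, pos_of_sp h1 hA, rfl⟩

theorem cfc_intertwine {A : Matrix ι ι ℂ} {B : Matrix κ κ ℂ} (hA : A.IsHermitian)
    (hB : B.IsHermitian) {X : Matrix ι κ ℂ} (h : A * X = X * B) (f : ℝ → ℝ) :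
    cfc f A * X = X * cfc f B := by
  obtain ⟨U, d, hU, rfl⟩ := exists_sp hA
  obtain ⟨V, e, hV, rfl⟩ := exists_sp hB
  rw [cfc_sp hU, cfc_sp hV]
  exact sp_intertwine hU hV h f

theorem cfc_herm (f : ℝ → ℝ) (A : Matrix ι ι ℂ) : (cfc f A).IsHermitian :=
  cfc_predicate f A

omit [Fintype ι] in
theorem tpF_rd (d : Fin n → ι → ℝ) : tpF (fun i => rd (d i)) = rd fun x => ∏ i, d i (x i) := by
  ext x y
  by_cases h : x = y
  · subst h
    simp [tpF, rd]
  · obtain ⟨i, hi⟩ := Function.ne_iff.1 h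
    rw [rd, diagonal_apply_ne _ h]
    exact Finset.prod_eq_zero (Finset.mem_univ i) (diagonal_apply_ne _ hi)

theorem tpF_sp (U : Fin n → Matrix ι ι ℂ) (d : Fin n → ι → ℝ) :
    tpF (fun i => sp (U i) (d i)) = sp (tpF U) fun x => ∏ i, d i (x i) := by
  unfold sp
  rw [← tpF_rd, tpF_ct, tpF_mul, tpF_mul]

theorem kron_sp (U : Matrix ι ι ℂ) (V : Matrix κ κ ℂ) (d : ι → ℝ) (e : κ → ℝ) :
    sp U d ⊗ₖ sp V e = sp (U ⊗ₖ V) fun p => d p.1 * e p.2 := by
  unfold sp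
  rw [mul_kronecker_mul, mul_kronecker_mul, conjTranspose_kronecker]
  simp [rd, diagonal_kronecker_diagonal]

theorem sqrt_sp {U : Matrix ι ι ℂ} (hU : Uni U) {d : ι → ℝ} (h : ∀ i, 0 ≤ d i) :
    CFC.sqrt (sp U d) = sp U fun i => √(d i) :=
  CFC.sqrt_unique (by rw [sp_mul hU]; simp only [Real.mul_self_sqrt (h _)])
    (sp_psd U fun _ => Real.sqrt_nonneg _).nonneg

end Pool.Agent.MP_47bb2a_mp.H20
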