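import Pool.Agent.MP_47bb2a_mp.H20.Hull

/-! One more copy; real states; invariance under one copy transpositions. -/

open scoped ComplexOrder MatrixOrder ComplexConjugate Kronecker Topology
open Matrix Filter Real

namespace Pool.Agent.MP_47bb2a_mp.H20

open H97

section

variable {ι κ J : Type*} [Fintype ι] [DecidableEq ι] [Fintype κ] [DecidableEq κ] [Fintype J]
  [DecidableEq J] {m : ℕ}

theorem cfc_sub_equiv (e : J ≃ ι) {M : Matrix ι ι ℂ} (h : M.IsHermitian) (f : ℝ → ℝ) :
    cfc f (M.submatrix e e) = (cfc f M).submatrix e e := by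
  obtain ⟨U, d, hU, rfl⟩ := exists_sp h
  have h1 : ∀ d : ι → ℝ, (sp U d).submatrix e e = sp (U.submatrix e e) fun j => d (e j) :=
    fun d => by
      rw [sp, sp, conjTranspose_submatrix, ← submatrix_mul_equiv _ _ _ e,
        ← submatrix_mul_equiv _ _ _ e, rd, submatrix_diagonal_equiv]
      rfl
  rw [h1, cfc_sp hU, h1, cfc_sp]
  rw [Uni, conjTranspose_submatrix, submatrix_mul_equiv, hU, submatrix_one_equiv]

theorem rel_sub_equiv (e : J ≃ ι) {M N : Matrix ι ι ℂ} (h : M.IsHermitian) (h' : N.IsHermitian) :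
    rel (M.submatrix e e) (N.submatrix e e) = rel M N := by
  rw [rel, cfc_sub_equiv e h, cfc_sub_equiv e h', tr]
  change (M.submatrix e e * (cfc log M - cfc log N).submatrix e e).trace.re = _
  rw [submatrix_mul_equiv]
  exact congrArg Complex.re (e.sum_comp (diag (M * (cfc log M - cfc log N))))

theorem log_kron {M : Matrix ι ι ℂ} {N : Matrix κ κ ℂ} (h : M.PosDef) (h' : N.PosDef) :
    cfc log (M ⊗ₖ N) = cfc log M ⊗ₖ 1 + 1 ⊗ₖ cfc log N := by
  obtain ⟨U, d, hU, hd, rfl⟩ := exists_sp_pd h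
  obtain ⟨V, e, hV, he, rfl⟩ := exists_sp_pd h'
  rw [← one_smul ℝ (1 : Matrix ι ι ℂ), ← one_smul ℝ (1 : Matrix κ κ ℂ), ← sp_const hU,
    ← sp_const hV, cfc_sp hU, cfc_sp hV, kron_sp, kron_sp, kron_sp, cfc_sp (hU.kron hV), sp_add]
  simp only [Real.log_mul (hd _).ne' (he _).ne', mul_one, one_mul]

theorem rel_kron {M M' : Matrix ι ι ℂ} {N N' : Matrix κ κ ℂ} (h1 : M.PosDef) (h2 : M'.PosDef)
    (h3 : N.PosDef) (h4 : N'.PosDef) (t1 : M.trace = 1) (t2 : N.trace = 1) :
    rel (M ⊗ₖ N) (M' ⊗ₖ N') = rel M M' + rel N N' := by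
  simp only [rel, log_kron h1 h3, log_kron h2 h4, tr, Matrix.mul_sub, Matrix.mul_add,
    ← mul_kronecker_mul, trace_sub, trace_add, trace_kronecker, t1, t2, mul_one,
    one_mul, Complex.sub_re, Complex.add_re]
  ring

/-- An operator on the first copy tensored with an operator on the other copies. -/
def k1 (N : Matrix ι ι ℂ) (M : Matrix (Fin m → ι) (Fin m → ι) ℂ) :
    Matrix (Fin (m + 1) → ι) (Fin (m + 1) → ι) ℂ :=
  (N ⊗ₖ M).submatrix (Fin.consEquiv fun _ => ι).symm (Fin.consEquiv fun _ => ι).symm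

omit [Fintype ι] [DecidableEq ι] in
theorem tp_succ (ω : Matrix ι ι ℂ) : tp (m + 1) ω = k1 ω (tp m ω) := by
  ext x y
  exact Fin.prod_univ_succ _

omit [DecidableEq ι] in
theorem k1_state {N : Matrix ι ι ℂ} {M : Matrix (Fin m → ι) (Fin m → ι) ℂ} (h : IsState N)
    (h' : IsState M) : IsState (k1 N M) :=
  ⟨(kron_state h h').1.submatrix _, (Equiv.sum_comp _ (diag (N ⊗ₖ M))).trans (kron_state h h').2⟩

omit [DecidableEq ι] [DecidableEq κ] in
theorem k1_sep {α : Matrix ι ι ℂ} {β : Matrix κ κ ℂ} (h : IsState α) (h' : IsState β)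
    {σ : Matrix (Fin m → ι × κ) (Fin m → ι × κ) ℂ} (hσ : σ ∈ Sep ι κ m) :
    k1 (α ⊗ₖ β) σ ∈ Sep ι κ (m + 1) := by
  refine convexHull_min (t := {σ | k1 (α ⊗ₖ β) σ ∈ Sep ι κ (m + 1)}) ?_ ?_ hσ
  · rintro _ ⟨α', β', h1, h2, rfl⟩
    refine subset_convexHull _ _ ⟨_, _, k1_state h h1, k1_state h' h2, ?_⟩
    ext x y
    exact mul_mul_mul_comm _ _ _ _
  · intro x hx y hy a b ha hb e
    have := convex_convexHull ℝ _ hx hy ha hb e
    change k1 _ _ ∈ Sep ι κ (m + 1)
    refine Set.mem_of_eq_of_mem ?_ this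
    simp only [k1, kronecker_add, kronecker_smul, submatrix_add, submatrix_smul, Pi.add_apply,
      Pi.smul_apply]

omit [DecidableEq ι] in
theorem tr_site {σ : Matrix (Fin m → ι) (Fin m → ι) ℂ} (h : SiteSymm σ) (G : Matrix ι ι ℂ) :
    (tp m G * σ).trace = (tp m ((1 / 2 : ℝ) • (G + Gᵀ)) * σ).trace := by
  have one : ∀ (F : Fin m → Matrix ι ι ℂ) (i : Fin m) (a : Matrix ι ι ℂ),
      (H42.tens (Function.update F i aᵀ) * σ).trace =
        (H42.tens (Function.update F i a) * σ).trace := fun F i a => by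
    simp only [trace, diag_apply, mul_apply, ← Fintype.sum_prod_type', H42.tens_update]
    refine Fintype.sum_bijective (fun p : (Fin m → ι) × (Fin m → ι) =>
      (Function.update p.1 i (p.2 i), Function.update p.2 i (p.1 i)))
      (Function.Involutive.bijective fun p => by simp) _ _ fun p => ?_
    simp only [Function.update_self, transpose_apply, h i]
    congr 2
    exact Finset.prod_congr rfl fun k hk => by simp [Finset.ne_of_mem_erase hk]
  have key : ∀ s : Finset (Fin m), (tp m G * σ).trace =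
      (H42.tens (fun i => if i ∈ s then (1 / 2 : ℝ) • (G + Gᵀ) else G) * σ).trace := fun s => by
    induction s using Finset.induction_on with
    | empty => rfl
    | insert u s hu ih =>
      set F := fun i => if i ∈ s then (1 / 2 : ℝ) • (G + Gᵀ) else G with hF
      have e1 : (fun i => if i ∈ insert u s then (1 / 2 : ℝ) • (G + Gᵀ) else G) =
          Function.update F u ((1 / 2 : ℝ) • (G + Gᵀ)) := by
        funext i
        by_cases hi : i = u <;> simp [hi, hF]
      have e2 : H42.tens (Function.update F u ((1 / 2 : ℝ) • (G + Gᵀ))) = (1 / 2 : ℝ) •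
          (H42.tens (Function.update F u G) + H42.tens (Function.update F u Gᵀ)) := by
        ext x y
        simp only [H42.tens_update, Matrix.smul_apply, Matrix.add_apply, add_mul, smul_mul_assoc]
      have e3 : Function.update F u G = F := by
        rw [Function.update_eq_self_iff]
        simp [hF, hu]
      rw [e1, e2, Matrix.smul_mul, Matrix.add_mul, trace_smul, trace_add, one, e3, ← ih]
      module
  have := key Finset.univ
  simp only [Finset.mem_univ, if_true] at this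
  exact this

end

variable {A B : Type} [Fintype A] [DecidableEq A] [Fintype B] [DecidableEq B] [Nonempty A]
  [Nonempty B] {ω : Matrix (A × B) (A × B) ℂ} {t : ℝ}

theorem hull_real (hω : IsState ω) (h : t • ω ∈ convexHull ℝ (C0 A B)) (hr : ωᵀ = ω) {Δ : ℝ}
    (hΔ : 0 < Δ) : ∀ᶠ n : ℕ in atTop, relEntSep (tp n ω) ≤ (n * (-log t + Δ) : ℝ) := by
  have c := H42.card_pos (A := A × B)
  obtain ⟨t0, X, _, _, l, Z, l0, -, hZ, e⟩ := hull_rep hω h
  have t1 : t ≤ 1 := by simpa [hω.2] using (base_C0 (A := A) (B := B)).tr _ h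
  have ωpd : ω.PosDef := by
    classical
    obtain ⟨j⟩ := ‹Nonempty X›
    rw [e, ← Finset.add_sum_erase _ _ (Finset.mem_univ j)]
    exact (pd_rsmul (hZ j).1 (div_pos (l0 j) t0)).add_posSemidef
      (posSemidef_sum _ fun j _ => psd_rsmul (hZ j).1.posSemidef (div_pos (l0 j) t0).le)
  have one : (((Fintype.card A : ℝ)⁻¹ • (1 : Matrix A A ℂ)) ⊗ₖ
      ((Fintype.card B : ℝ)⁻¹ • (1 : Matrix B B ℂ))).PosDef :=
    (pd_rsmul PosDef.one (inv_pos.2 H42.card_pos)).kronecker
      (pd_rsmul PosDef.one (inv_pos.2 H42.card_pos))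
  set r := rel ω (((Fintype.card A : ℝ)⁻¹ • (1 : Matrix A A ℂ)) ⊗ₖ
      ((Fintype.card B : ℝ)⁻¹ • (1 : Matrix B B ℂ))) with hr'
  obtain ⟨N, hN⟩ := eventually_atTop.1 ((hull_pair hω h hΔ).and
    (tendsto_natCast_atTop_atTop.eventually_ge_atTop (r / Δ)))
  have lt : log t ≤ 0 := log_nonpos t0.le t1
  have e2 : ∀ k, k2 (tp k ω) (tp k ωᵀ) = tp (k + k) ω := fun k => by
    rw [hr]
    exact (tpF_app id ω ω).symm.trans
      (congrArg tpF (funext (forall_app (P := fun M => id M = ω) rfl rfl)))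
  filter_upwards [eventually_ge_atTop (2 * N + 1)] with n hn
  obtain ⟨k, hk | hk⟩ : ∃ k, n = k + k ∨ n = k + k + 1 := ⟨n / 2, by omega⟩
  all_goals
    obtain ⟨⟨σ, s1, s2, s3⟩, s4⟩ := hN k (by omega)
    subst hk
    rw [e2] at s3
    rw [div_le_iff₀ hΔ] at s4
    have k0 : (0 : ℝ) ≤ k * Δ := by positivity
  · refine (iInf₂_le _ s1).trans ?_
    rw [relEnt_eq _ s2, EReal.coe_le_coe_iff]
    push_cast
    linarith
  · refine (iInf₂_le _ (k1_sep one_state one_state s1)).trans ?_
    have Wpd : (tp (k + k) ω).PosDef := H42.tens_pd fun _ => ωpd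
    rw [tp_succ, k1, k1, relEnt_eq _ ((one.kronecker s2).submatrix (Equiv.injective _)),
      EReal.coe_le_coe_iff, rel_sub_equiv _ (ωpd.kronecker Wpd).1 (one.kronecker s2).1,
      rel_kron ωpd one Wpd s2 hω.2 (by rw [tp_trace, hω.2, one_pow])]
    push_cast
    linarith

end Pool.Agent.MP_47bb2a_mp.H20
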