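import Pool.Agent.MP_47bb2a_mp.H20.Perm
import Pool.Agent.MP_47bb2a_mp.H20.Cheb

/-! A state close to the doubled product state and dominated by a tilted orbit average. -/

open scoped ComplexOrder MatrixOrder ComplexConjugate
open Matrix Filter Real

namespace Pool.Agent.MP_47bb2a_mp.H20

open H97

variable {ι : Type*} [Fintype ι] [DecidableEq ι] {n : ℕ}

omit [Fintype ι] [DecidableEq ι] in
theorem tct (M : Matrix ι ι ℂ) : Mᵀᴴ = Mᴴᵀ := rfl

theorem sp_transpose (U : Matrix ι ι ℂ) (d : ι → ℝ) : (sp U d)ᵀ = sp Uᴴᵀ d := by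
  simp only [sp, transpose_mul, rd, diagonal_transpose, Matrix.mul_assoc]
  congr 2
  ext i j
  simp

theorem Uni.cj {U : Matrix ι ι ℂ} (h : Uni U) : Uni Uᴴᵀ := by
  have := congrArg transpose h
  rw [transpose_mul, transpose_one] at this
  rw [Uni, ← this]
  congr 1
  ext i j
  simp

theorem tp_sp (U : Matrix ι ι ℂ) (d : ι → ℝ) :
    tp n (sp U d) = sp (tp n U) fun x => ∏ i, d (x i) := tpF_sp _ _

theorem Uni.tp {U : Matrix ι ι ℂ} (h : Uni U) : Uni (tp n U) := Uni.tpF fun _ => h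

theorem Uni.k2 {U V : Matrix (Fin n → ι) (Fin n → ι) ℂ} (h : Uni U) (h' : Uni V) :
    Uni (k2 U V) := by rw [Uni, k2_ct, k2_mul, h, h', k2_one]

theorem k2_sp (U V : Matrix (Fin n → ι) (Fin n → ι) ℂ) (d e : (Fin n → ι) → ℝ) :
    k2 (sp U d) (sp V e) = sp (k2 U V) fun x => d (lf x) * e (rt x) := by
  rw [sp, sp, sp, k2_ct, ← k2_mul, ← k2_mul]
  congr 2
  ext x y
  by_cases h : x = y
  · simp [k2, rd, h]
  · rw [rd, rd, rd, diagonal_apply_ne _ h, k2, of_apply, mul_eq_zero]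
    by_contra h'
    rw [not_or] at h'
    refine h ((Fin.appendEquiv n n).symm.injective (Prod.ext ?_ ?_))
    · exact by_contra fun h1 => h'.1 (diagonal_apply_ne _ h1)
    · exact by_contra fun h1 => h'.2 (diagonal_apply_ne _ h1)

theorem nsq_v2_sp {U : Matrix (Fin n → ι) (Fin n → ι) ℂ} (h : Uni U) (d : (Fin n → ι) → ℝ) :
    nsq (v2 (sp U d)) = ∑ x, d x * d x := by
  rw [v2_nsq, (sp_herm _ _).eq, sp_mul h, sp_trace h, Complex.ofReal_re]

theorem proj_psd {Q : Matrix ι ι ℂ} (h : Q.IsHermitian) (h2 : Q * Q = Q) :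
    Q.PosSemidef ∧ (1 - Q).PosSemidef := by
  constructor
  · simpa [h.eq, h2] using posSemidef_conjTranspose_mul_self Q
  · have := posSemidef_conjTranspose_mul_self (1 - Q)
    rwa [conjTranspose_sub, conjTranspose_one, h.eq, Matrix.mul_sub, Matrix.mul_one,
      Matrix.sub_mul, Matrix.one_mul, h2, sub_self, sub_zero] at this

theorem tau {U : Matrix ι ι ℂ} (hU : Uni U) {p : ι → ℝ} (p0 : ∀ i, 0 < p i) (p1 : ∑ i, p i = 1)
    {S κ γ : ℝ} (hS : S = ∑ i, p i * -log (p i)) (hκ : 0 < κ) (hκ' : κ ≤ 1 / 2) (hγ : 0 < γ) :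
    ∀ᶠ n : ℕ in atTop, ∀ (Q : Matrix (Fin n → ι) (Fin n → ι) ℂ) (B : ℝ), Q.IsHermitian →
      Q * Q = Q → (∀ g, Q * pm ι g = pm ι g * Q) → tr (tp n (sp U p)) (1 - Q) ≤ 1 / 8 → 0 < B →
      ∃ (η : ℝ) (τ : Matrix (Fin (n + n) → ι) (Fin (n + n) → ι) ℂ), 0 < η ∧
        η * Fintype.card (Fin (n + n) → ι) ≤ B ∧ IsState τ ∧ τ.PosDef ∧
        (rexp (n * (-S + 2 * κ * S + 2 * γ)) •
          (k2 (tp n (sp U fun i => p i ^ (κ / 2))) (tp n (sp U fun i => p i ^ (κ / 2))ᵀ) *
            (k2 Q 1 * orb (pv ι) (v2 1) * (k2 Q 1)ᴴ + η • 1) *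
            (k2 (tp n (sp U fun i => p i ^ (κ / 2))) (tp n (sp U fun i => p i ^ (κ / 2))ᵀ))ᴴ) -
          τ).PosSemidef ∧
        rel τ (k2 (tp n (sp U p)) (tp n (sp U p)ᵀ)) ≤ n * (2 * κ * S + 7 * γ + 8 * γ / κ) := by
  have pl : ∀ i, p i ≤ 1 := fun i =>
    p1 ▸ Finset.single_le_sum (f := p) (fun i _ => (p0 i).le) (Finset.mem_univ i)
  have S0 : 0 ≤ S := hS ▸ Finset.sum_nonneg fun i _ =>
    mul_nonneg (p0 i).le (neg_nonneg.2 (log_nonpos (p0 i).le (pl i)))
  filter_upwards [cheb (fun i => (p0 i).le) p1 (fun i => -log (p i)) hγ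
    (show (0 : ℝ) < 1 / 8 by norm_num), poly_le (Fintype.card ι * Fintype.card ι) hγ 16]
    with n c1 c2 Q B hQ QQ Qp QW hB
  rw [← hS] at c1
  have : Nonempty ι := by
    by_contra h
    rw [not_nonempty_iff] at h
    simp at p1
  set O := ((n : ℝ) + 1) ^ (Fintype.card ι * Fintype.card ι) with hO
  have O1 : 1 ≤ O := one_le_pow₀ (by linarith [n.cast_nonneg (α := ℝ)])
  obtain ⟨x, hx⟩ : ∃ x : ℝ, x = n * S := ⟨_, rfl⟩
  obtain ⟨y, hy⟩ : ∃ y : ℝ, y = γ * n := ⟨_, rfl⟩
  have x0 : 0 ≤ x := hx ▸ by positivity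
  have y0 : 0 ≤ y := hy ▸ by positivity
  rw [← hx, ← hy] at c1
  rw [← hy] at c2
  set V := tp n U with hV
  have uV : Uni V := hU.tp
  let w : (Fin n → ι) → ℝ := fun a => ∏ i, p (a i)
  let χ : (Fin n → ι) → ℝ := fun a => if |∑ i, -log (p (a i)) - x| ≤ y then 1 else 0
  have w0 : ∀ a, 0 < w a := fun a => Finset.prod_pos fun _ _ => p0 _
  have wl : ∀ a, w a ≤ 1 := fun a => Finset.prod_le_one (fun _ _ => (p0 _).le) fun _ _ => pl _
  have w1 : ∑ a, w a = 1 := by
    rw [← Fintype.prod_sum fun (_ : Fin n) k => p k]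
    simp [p1]
  have wp : ∀ (g : Equiv.Perm (Fin n)) a, w (a ∘ g) = w a := fun g a =>
    Equiv.prod_comp g fun i => p (a i)
  have χp : ∀ (g : Equiv.Perm (Fin n)) a, χ (a ∘ g) = χ a := fun g a => by
    simp only [χ, Function.comp, Equiv.sum_comp g fun i => -log (p (a i))]
  have χc : ∀ a, χ a = 0 ∨ χ a = 1 ∧ rexp (-x - y) ≤ w a ∧ w a ≤ rexp (-x + y) := fun a => by
    simp only [χ]
    split_ifs with h
    · rw [Finset.sum_neg_distrib, ← log_prod fun i _ => (p0 _).ne', abs_le] at h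
      rw [← exp_log (w0 a), exp_le_exp, exp_le_exp]
      exact Or.inr ⟨rfl, by linarith [h.2], by linarith [h.1]⟩
    · exact Or.inl rfl
  have χχ : ∀ a, χ a * χ a = χ a := fun a => by rcases χc a with h | h <;> simp [h]
  have χ0 : ∀ a, 0 ≤ χ a := fun a => by rw [← χχ]; exact mul_self_nonneg _
  have χ1 : ∀ a, χ a ≤ 1 := fun a => by rcases χc a with h | h <;> simp [h]
  have χw : 7 / 8 ≤ ∑ a, χ a * w a := by
    have : ∑ a, w a * (if |∑ i, -log (p (a i)) - x| ≤ y then 0 else 1) =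
        ∑ a, w a - ∑ a, χ a * w a := by
      rw [← Finset.sum_sub_distrib]
      exact Finset.sum_congr rfl fun a _ => by simp only [χ]; split_ifs <;> simp
    linarith
  have χs : ∑ a, χ a ≤ rexp (x + y) := by
    rw [← mul_one (rexp _), ← w1, Finset.mul_sum]
    refine Finset.sum_le_sum fun a _ => ?_
    rcases χc a with h | h
    · rw [h]; exact (mul_pos (exp_pos _) (w0 a)).le
    · have := mul_le_mul_of_nonneg_left h.2.1 (exp_pos (x + y)).le
      rwa [← exp_add, show x + y + (-x - y) = 0 by ring, exp_zero, ← h.1] at this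
  have χt : ∀ t : ℝ, 0 ≤ t → ∑ a, χ a * w a ^ ((1 + t) / 2) * (χ a * w a ^ ((1 + t) / 2)) ≤
      rexp ((-x + y) * t) := fun t ht => by
    refine le_of_le_of_eq ?_ (by rw [w1, mul_one] : rexp ((-x + y) * t) * ∑ a, w a = _)
    rw [Finset.mul_sum]
    refine Finset.sum_le_sum fun a _ => ?_
    rcases χc a with h | h
    · rw [h, zero_mul, zero_mul]; exact (mul_pos (exp_pos _) (w0 a)).le
    · rw [h.1, one_mul, ← rpow_add (w0 a), add_halves, add_comm, rpow_add (w0 a), rpow_one,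
        exp_mul]
      exact mul_le_mul_of_nonneg_right (rpow_le_rpow (w0 a).le h.2.2 ht) (w0 a).le
  obtain ⟨Q0, Q1⟩ := proj_psd hQ QQ
  have YY : (1 - (k2 Q 1)ᴴ * k2 Q 1).PosSemidef := by
    rw [k2_ct, k2_mul, hQ.eq, QQ, conjTranspose_one, Matrix.mul_one]
    exact (proj_psd (by rw [IsHermitian, k2_ct, hQ.eq, conjTranspose_one])
      (by rw [k2_mul, QQ, Matrix.mul_one])).2
  have e16 : 16 ≤ rexp y := by linarith
  obtain ⟨S', s1, s2, s3, s4, s5⟩ := window (v := v2 (1 : Matrix (Fin n → ι) _ ℂ)) pv_uni pv_mul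
    (exp_pos (-x)) (exp_pos (4 * y)) orb_sq (φ := v2 (sp V fun a => χ a * w a)) (Y := k2 Q 1)
    (Y' := k2 (sp V χ) (sp V χ)ᵀ) (F := rexp (-x + y)) (R := rexp (x + y) * rexp (x + y))
    (k2_comm Qp _) (k2_comm (sp_comm χp) _)
    (fun z => by simpa only [q_ct_mul, q_one] using q_le YY z)
    (by
      rw [k2_ct, k2_v2, tct, (sp_herm _ _).eq, transpose_transpose,
        sp_mul uV, sp_mul uV]
      congr 2
      ext a
      rw [← mul_assoc, χχ, mul_right_comm, χχ])
    (by simpa [nsq_v2_sp uV] using χt 1 zero_le_one)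
    (by
      rw [k2_mul, k2_ct, k2_mul, k2_trace, Matrix.mul_one, conjTranspose_mul, hQ.eq,
        (sp_herm _ _).eq, tct, (sp_herm _ _).eq, ← transpose_mul,
        trace_transpose, sp_mul uV, sp_trace uV, Complex.mul_re, Complex.ofReal_re,
        Complex.ofReal_im, mul_zero, sub_zero, Matrix.mul_assoc, ← Matrix.mul_assoc Q, QQ,
        ← Matrix.mul_assoc, trace_mul_cycle, sp_mul uV]
      simp only [χχ]
      have := tr_le (sp_psd V χ0) Q1
      rw [tr_one, sp_trace uV, Complex.ofReal_re] at this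
      exact mul_le_mul (this.trans χs) χs (Finset.sum_nonneg fun a _ => χ0 a) (exp_pos _).le)
    (by
      rw [k2_v2, v2_dot, transpose_one, Matrix.mul_one, Matrix.mul_one, (sp_herm _ _).eq]
      have h1 := le_tr Q1 (sp_le V (d := fun a => χ a * w a) (e := w) fun a =>
        mul_le_of_le_one_left (w0 a).le (χ1 a))
      rw [tr_sub, tr_one, sp_trace uV, Complex.ofReal_re] at h1
      rw [tp_sp] at QW
      change _ ≤ tr _ _
      linarith)
    (by
      rw [← exp_add, mul_right_comm]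
      refine (mul_le_mul_of_nonneg_right c2 (exp_pos _).le).trans ?_
      rw [← exp_add, exp_le_exp]
      linarith)
    (by
      rw [mul_assoc, mul_assoc]
      refine (mul_le_mul_of_nonneg_right e16 (by positivity)).trans ?_
      simp only [← exp_add, exp_le_exp]
      linarith)
  have eT : k2 (tp n (sp U fun i => p i ^ (κ / 2))) (tp n (sp U fun i => p i ^ (κ / 2))ᵀ) =
      k2 (sp V fun a => w a ^ (κ / 2)) (sp V fun a => w a ^ (κ / 2))ᵀ := by
    rw [← tp_transpose, tp_sp]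
    simp only [w, Real.finsetProd_rpow _ _ (fun i _ => (p0 _).le), hV]
  have eT' : k2 (sp V fun a => w a ^ (κ / 2)) (sp V fun a => w a ^ (κ / 2))ᵀ =
      sp (k2 V Vᴴᵀ) fun z => (w (lf z) * w (rt z)) ^ (κ / 2) := by
    rw [sp_transpose, k2_sp]
    simp only [mul_rpow (w0 _).le (w0 _).le]
  have eW : k2 (tp n (sp U p)) (tp n (sp U p)ᵀ) =
      sp (k2 V Vᴴᵀ) fun z => w (lf z) * w (rt z) := by
    rw [← tp_transpose, tp_sp, sp_transpose, k2_sp]
  have s6 := s5 (k2 (sp V fun a => w a ^ (κ / 2)) (sp V fun a => w a ^ (κ / 2))ᵀ)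
    (v2 (sp V fun a => χ a * w a ^ ((1 + (1 - 2 * κ)) / 2)))
    (k2_comm (sp_comm fun g a => by rw [wp]) _) (by
      rw [k2_ct, k2_v2, tct, (sp_herm _ _).eq, transpose_transpose,
        sp_mul uV, sp_mul uV]
      congr 2
      ext a
      rw [mul_left_comm, mul_assoc, ← rpow_add (w0 a), ← rpow_add (w0 a),
        show κ / 2 + (1 + (1 - 2 * κ)) / 2 + κ / 2 = 1 by ring, rpow_one])
  rw [nsq_v2_sp uV, eT'] at s6
  rw [eT, eT', eW]
  set T := sp (k2 V Vᴴᵀ) fun z => (w (lf z) * w (rt z)) ^ (κ / 2) with hT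
  have D0 : (0 : ℝ) < Fintype.card (Fin (n + n) → ι) := by exact_mod_cast Fintype.card_pos
  set D := (Fintype.card (Fin (n + n) → ι) : ℝ) with hD
  set η := min (rexp (-x)) (min B 1 / D) with hη
  have η0 : 0 < η := lt_min (exp_pos _) (div_pos (lt_min hB one_pos) D0)
  have η1 : η * D ≤ min B 1 := (le_div_iff₀ D0).1 (min_le_right _ _)
  have P0 : (k2 Q 1 * S' * (k2 Q 1)ᴴ).PosSemidef := s1.mul_mul_conjTranspose_same _
  have YY' : (1 - k2 Q 1 * (k2 Q 1)ᴴ).PosSemidef := by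
    rwa [k2_ct, hQ.eq, conjTranspose_one] at YY ⊢
  obtain ⟨τ, t1, t2, t3, t4⟩ := tilt (S := k2 Q 1 * S' * (k2 Q 1)ᴴ + η • 1) (uV.k2 uV.cj)
    (w := fun z => w (lf z) * w (rt z)) (fun z => mul_pos (w0 _) (w0 _))
    (fun z => mul_le_one₀ (wl _) (w0 _).le (wl _)) hκ (exp_pos (-x + 5 * y))
    (exp_pos (x + 6 * y)) (exp_pos (x - 2 * κ * x - 2 * y))
    (pd_of_le (pd_rsmul PosDef.one η0) (by simpa using P0))
    (by
      have a1 := s3.mul_mul_conjTranspose_same (k2 Q 1)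
      have a2 := psd_rsmul YY' (mul_pos (exp_pos (-x)) (exp_pos (4 * y))).le
      have a3 : 0 ≤ rexp (-x + 5 * y) - rexp (-x) * rexp (4 * y) - η := by
        have b1 : η ≤ rexp (-x) * rexp (4 * y) := (min_le_left _ _).trans
          (le_mul_of_one_le_right (exp_pos _).le (one_le_exp (by linarith)))
        have b2 : rexp (-x + 5 * y) = rexp (-x) * rexp (4 * y) * rexp y := by
          rw [← exp_add, ← exp_add]; congr 1; ring
        nlinarith [mul_pos (exp_pos (-x)) (exp_pos (4 * y))]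
      have a4 := (a1.add a2).add (psd_rsmul PosSemidef.one a3)
      rw [Matrix.mul_sub, Matrix.sub_mul, Matrix.mul_smul, Matrix.mul_one, Matrix.smul_mul] at a4
      convert a4 using 1
      module)
    (by
      have a1 := tr_le s1 YY
      rw [tr_one, tr, ← Matrix.mul_assoc, ← trace_mul_cycle, ← trace_mul_cycle] at a1
      rw [trace_add, trace_smul, trace_one, Complex.add_re, Complex.smul_re, Complex.natCast_re,
        smul_eq_mul, ← hD]
      have b1 : rexp (4 * y) / rexp (-x) * O ≤ rexp (x + 5 * y) := by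
        rw [← exp_sub, show x + 5 * y = 4 * y - -x + y by ring, exp_add]
        exact mul_le_mul_of_nonneg_left (by linarith) (exp_pos _).le
      have b2 : rexp (x + 6 * y) = rexp (x + 5 * y) * rexp y := by
        rw [← exp_add]; congr 1; ring
      have b3 : 1 ≤ rexp (x + 5 * y) := one_le_exp (by linarith)
      have b4 := η1.trans (min_le_right _ _)
      nlinarith)
    (by
      rw [← hT]
      refine le_trans ?_ (trace_conj_le T (M := k2 Q 1 * S' * (k2 Q 1)ᴴ)
        (by simpa using psd_rsmul PosSemidef.one η0.le))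
      have a0 : T * (k2 Q 1 * S' * (k2 Q 1)ᴴ) * Tᴴ = T * k2 Q 1 * S' * (T * k2 Q 1)ᴴ := by
        simp only [conjTranspose_mul, Matrix.mul_assoc]
      have a1 := (Complex.nonneg_iff.1
        (s1.mul_mul_conjTranspose_same (T * k2 Q 1)).trace_nonneg).1
      have a2 := s6.trans (mul_le_mul_of_nonneg_right (χt (1 - 2 * κ) (by linarith)) a1)
      rw [a0]
      refine le_of_mul_le_mul_left (le_trans ?_ a2) (exp_pos _)
      have b1 : rexp ((-x + y) * (1 - 2 * κ)) * rexp (x - 2 * κ * x - 2 * y) ≤ rexp (-y) := by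
        rw [← exp_add, exp_le_exp]
        nlinarith
      rw [exp_neg] at b1
      exact b1.trans ((inv_anti₀ (by norm_num) e16).trans (by norm_num)))
  refine ⟨η, τ, η0, η1.trans (min_le_left _ _), t1, t2, ?_, t4.trans (le_of_eq ?_)⟩
  · have a1 := psd_rsmul ((s2.mul_mul_conjTranspose_same (k2 Q 1)).mul_mul_conjTranspose_same T)
      (exp_pos (n * (-S + 2 * κ * S + 2 * γ))).le
    rw [← hT, ← exp_neg, show -(x - 2 * κ * x - 2 * y) = n * (-S + 2 * κ * S + 2 * γ) by
      rw [hx, hy]; ring] at t3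
    convert a1.add t3 using 1
    simp only [Matrix.mul_sub, Matrix.sub_mul, Matrix.mul_add, Matrix.add_mul]
    module
  · rw [← exp_sub, ← exp_sub, log_exp, log_exp, hx, hy]
    field_simp
    ring

end Pool.Agent.MP_47bb2a_mp.H20
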