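import Pool.Agent.MP_47bb2a_mp.H20.Window

/-! Tilting an operator by a small power of a state. -/

open scoped ComplexOrder MatrixOrder ComplexConjugate
open Matrix

namespace Pool.Agent.MP_47bb2a_mp.H20

open H97

variable {J : Type*} [Fintype J] [DecidableEq J]

omit [DecidableEq J] in
theorem trace_re {M : Matrix J J ℂ} (h : M.PosSemidef) : M.trace = (M.trace.re : ℝ) :=
  Complex.ext rfl (Complex.nonneg_iff.1 h.trace_nonneg).2.symm

omit [DecidableEq J] in
theorem norm_state {M : Matrix J J ℂ} (h : M.PosSemidef) (h0 : 0 < M.trace.re) :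
    IsState ((M.trace.re)⁻¹ • M) :=
  ⟨psd_rsmul h (inv_pos.2 h0).le, by
    rw [trace_smul, trace_re h, Complex.ofReal_re, Complex.real_smul, ← Complex.ofReal_mul,
      inv_mul_cancel₀ h0.ne', Complex.ofReal_one]⟩

theorem pd_conj {M T : Matrix J J ℂ} (h : M.PosDef) (hT : T.PosDef) : (T * M * Tᴴ).PosDef := by
  rw [(h.posSemidef.mul_mul_conjTranspose_same T).posDef_iff_isUnit, hT.1.eq]
  exact (hT.isUnit.mul h.isUnit).mul hT.isUnit

theorem tilt {U S : Matrix J J ℂ} (hU : Uni U) {w : J → ℝ} (w0 : ∀ i, 0 < w i) (w1 : ∀ i, w i ≤ 1)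
    {κ a b z : ℝ} (hκ : 0 < κ) (ha : 0 < a) (hb : 0 < b) (hz : 0 < z) (hS : S.PosDef)
    (h1 : (a • (1 : Matrix J J ℂ) - S).PosSemidef) (h2 : S.trace.re ≤ b)
    (h3 : z ≤ (sp U (fun i => w i ^ (κ / 2)) * S * (sp U fun i => w i ^ (κ / 2))ᴴ).trace.re) :
    ∃ τ : Matrix J J ℂ, IsState τ ∧ τ.PosDef ∧
      (z⁻¹ • (sp U (fun i => w i ^ (κ / 2)) * S * (sp U fun i => w i ^ (κ / 2))ᴴ) - τ).PosSemidef ∧
      rel τ (sp U w) ≤ Real.log (a / z) + Real.log (b / z) / κ := by
  set T := sp U fun i => w i ^ (κ / 2) with hT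
  have Tpd : T.PosDef := sp_pd hU fun i => Real.rpow_pos_of_pos (w0 i) _
  set X := T * S * Tᴴ with hX
  have Xpd : X.PosDef := pd_conj hS Tpd
  have Z0 : 0 < X.trace.re := hz.trans_le h3
  have zi : (X.trace.re)⁻¹ ≤ z⁻¹ := inv_anti₀ hz h3
  have st := norm_state Xpd.posSemidef Z0
  have pd := pd_rsmul Xpd (inv_pos.2 Z0)
  have le : (z⁻¹ • X - (X.trace.re)⁻¹ • X).PosSemidef := by
    rw [← sub_smul]
    exact psd_rsmul Xpd.posSemidef (sub_nonneg.2 zi)
  refine ⟨_, st, pd, le, ?_⟩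
  have TT : ((1 : Matrix J J ℂ) - T * Tᴴ).PosSemidef := by
    rw [Tpd.1.eq, hT, sp_mul hU, ← one_smul ℝ (1 : Matrix J J ℂ), ← sp_const hU]
    exact sp_le _ fun i => mul_le_one₀ (Real.rpow_le_one (w0 i).le (w1 i) (by positivity))
      (Real.rpow_pos_of_pos (w0 i) _).le (Real.rpow_le_one (w0 i).le (w1 i) (by positivity))
  have a1 : (a • (1 : Matrix J J ℂ) - X).PosSemidef := by
    have := (psd_rsmul TT ha.le).add (h1.mul_mul_conjTranspose_same T)
    rw [Matrix.mul_sub, Matrix.sub_mul, Matrix.mul_smul, Matrix.mul_one, Matrix.smul_mul,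
      smul_sub] at this
    simpa using this
  have a2 := rel_le_log st pd PosDef.one (div_pos ha hz) (by
    have := (psd_rsmul a1 (inv_pos.2 hz).le).add le
    rw [smul_sub, smul_smul, sub_add_sub_cancel, inv_mul_eq_div] at this
    exact this)
  rw [rel, tr_sub, cfc_apply_one, Real.log_one, map_zero, tr.eq_1 _ 0, Matrix.mul_zero] at a2
  have a3 : tr ((X.trace.re)⁻¹ • X) (sp U fun i => w i ^ (-κ)) ≤ b / z := by
    have : Tᴴ * (sp U fun i => w i ^ (-κ)) * T = 1 := by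
      rw [Tpd.1.eq, hT, sp_mul hU, sp_mul hU, ← one_smul ℝ (1 : Matrix J J ℂ), ← sp_const hU]
      congr 1
      ext i
      rw [← Real.rpow_add (w0 i), ← Real.rpow_add (w0 i), show κ / 2 + -κ + κ / 2 = 0 by ring,
        Real.rpow_zero]
    have e : tr X (sp U fun i => w i ^ (-κ)) = S.trace.re := by
      rw [tr, hX, Matrix.mul_assoc, Matrix.mul_assoc, trace_mul_comm T, Matrix.mul_assoc,
        this, Matrix.mul_one]
    rw [smul_tr, e, div_eq_inv_mul]
    exact mul_le_mul zi h2 (Complex.nonneg_iff.1 hS.posSemidef.trace_nonneg).1 (inv_pos.2 hz).le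
  have bz := div_pos hb hz
  have a4 := tr_le st.1 (sp_le U (d := fun i => -κ * Real.log (w i))
    (e := fun i => (Real.log (b / z) - 1) + (b / z)⁻¹ * w i ^ (-κ)) fun i => by
      have := Real.log_le_sub_one_of_pos (mul_pos (inv_pos.2 bz) (Real.rpow_pos_of_pos (w0 i) (-κ)))
      rw [Real.log_mul (inv_pos.2 bz).ne' (Real.rpow_pos_of_pos (w0 i) (-κ)).ne', Real.log_inv,
        Real.log_rpow (w0 i)] at this
      linarith)
  rw [← sp_add, ← sp_smul, ← sp_smul, sp_const hU, tr_add, tr_smul, tr_smul, tr_smul,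
    tr_one_state st] at a4
  have a5 := mul_le_mul_of_nonneg_left a3 (inv_pos.2 bz).le
  rw [inv_mul_cancel₀ bz.ne'] at a5
  rw [rel, tr_sub, cfc_sp hU]
  have a6 : -tr ((X.trace.re)⁻¹ • X) (sp U fun i => Real.log (w i)) ≤ Real.log (b / z) / κ := by
    rw [le_div_iff₀ hκ]
    linarith
  simp only [trace_zero, Complex.zero_re, sub_zero] at a2
  linarith

end Pool.Agent.MP_47bb2a_mp.H20
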