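import Pool.Agent.MP_47bb2a_mp.H20.Flag

/-! Local typical projectors. -/

open scoped ComplexOrder MatrixOrder ComplexConjugate Kronecker
open Matrix Filter Real

namespace Pool.Agent.MP_47bb2a_mp.H20

open H97

variable {ι A B X : Type*} [Fintype ι] [DecidableEq ι] [Fintype A] [DecidableEq A] [Fintype B]
  [DecidableEq B] [Fintype X] [DecidableEq X] {n : ℕ}

theorem Uni.block {U : X → Matrix ι ι ℂ} (h : ∀ j, Uni (U j)) : Uni (blockDiagonal U) := by
  unfold Uni at *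
  rw [blockDiagonal_conjTranspose, ← blockDiagonal_mul, funext h]
  exact blockDiagonal_one

theorem block_sp (U : X → Matrix ι ι ℂ) (d : X → ι → ℝ) :
    blockDiagonal (fun j => sp (U j) (d j)) = sp (blockDiagonal U) fun z => d z.2 z.1 := by
  simp only [sp, rd, blockDiagonal_mul, blockDiagonal_conjTranspose, blockDiagonal_diagonal]

theorem tr_tp_sp {Ω : Matrix ι ι ℂ} (h : Ω.PosSemidef) (U : Matrix ι ι ℂ) (g : (Fin n → ι) → ℝ) :
    tr (tp n Ω) (sp (tp n U) g) = ∑ x, (∏ i, ((Uᴴ * Ω * U) (x i) (x i)).re) * g x := by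
  rw [tr, tr_mul_sp, tp_ct, tp_mul, tp_mul]
  refine Finset.sum_congr rfl fun x _ => ?_
  have : ∀ z, (Uᴴ * Ω * U) z z = ((Uᴴ * Ω * U) z z).re := fun z => Complex.ext rfl
    (Complex.nonneg_iff.1 (h.conjTranspose_mul_mul_same U).diag_nonneg).2.symm
  rw [mul_comm, tp, of_apply, Finset.prod_congr rfl fun i _ => this (x i), ← Complex.ofReal_prod,
    Complex.ofReal_re]

omit [Fintype X] [Fintype A] [Fintype B] in
theorem rd_blk (f : (Fin n → X) → (Fin n → A) → ℝ) (h : (Fin n → X) → (Fin n → B) → ℝ) :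
    rd (fun z : Fin n → (A × B) × X => f (fun i => (z i).2) (fun i => (z i).1.1) *
      h (fun i => (z i).2) fun i => (z i).1.2) = blk fun s => cut (rd (f s)) (rd (h s)) := by
  simp only [blk, cut_eq, rd, diagonal_kronecker_diagonal, submatrix_diagonal_equiv,
    blockDiagonal_diagonal]
  congr 1
  ext z
  simp [Equiv.arrowProdEquivProdArrow]

theorem sc_orb (M : (Fin n → X) → Matrix (Fin n → A) (Fin n → A) ℂ)
    (N : (Fin n → X) → Matrix (Fin n → B) (Fin n → B) ℂ) :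
    SC (trX (k2 (blk fun s => cut (M s) (N s)) 1 * orb (pv ((A × B) × X)) (v2 1) *
      (k2 (blk fun s => cut (M s) (N s)) 1)ᴴ)) := by
  rw [conj_orb, trX_smul]
  refine SC.smul (sc_sum _ fun s => ?_) (by positivity)
  have e : ∀ (F : Equiv.Perm (Fin n) → Matrix (Fin (n + n) → (A × B) × X)
      (Fin (n + n) → (A × B) × X) ℂ), (∑ g, F g).submatrix (ins s) (ins s) =
      ∑ g, (F g).submatrix (ins s) (ins s) := fun F => by
    ext; simp [Matrix.sum_apply]
  rw [e]
  refine sc_sum _ fun g => ?_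
  let a : (Fin (n + n) → A) → ℂ := fun x =>
    if lf s = rt s ∘ g.symm then M (lf s) (lf x) (rt x ∘ g.symm) else 0
  let b : (Fin (n + n) → B) → ℂ := fun x => N (lf s) (lf x) (rt x ∘ g.symm)
  have h : ∀ z, ((k2 (blk fun s => cut (M s) (N s)) 1 * pv ((A × B) × X) g) *ᵥ v2 1) (ins s z) =
      a (fun i => (z i).1) * b fun i => (z i).2 := fun z => by
    rw [pv, k2_mul, k2_v2, Matrix.mul_one, Matrix.mul_one, transpose_one, Matrix.mul_one, v2,
      mul_pm_apply]
    change blk _ (ins (lf s) (lf z)) (ins (rt s ∘ g.symm) (rt z ∘ g.symm)) = _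
    rw [blk_apply]
    simp only [a, ite_mul, zero_mul]
    rfl
  convert sc_cut (posSemidef_vecMulVec_self_star a) (posSemidef_vecMulVec_self_star b) using 1
  ext z z'
  rw [submatrix_apply, vecMulVec_apply, Pi.star_apply, h, h]
  simp only [vecMulVec_apply, Pi.star_apply, cut, of_apply, star_mul']
  ring

theorem typ {Ω : Matrix ((A × B) × X) ((A × B) × X) ℂ} (hΩ : IsState Ω) {u : X → Matrix A A ℂ}
    {v : X → Matrix B B ℂ} (hu : ∀ j, Uni (u j)) (hv : ∀ j, Uni (v j)) {a : X → A → ℝ}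
    {b : X → B → ℝ} (a0 : ∀ j x, 0 < a j x) (b0 : ∀ j x, 0 < b j x)
    (ab : ∑ z : (A × B) × X, a z.2 z.1.1 * b z.2 z.1.2 ≤ 1) {γ : ℝ} (hγ : 0 < γ) :
    ∀ᶠ n : ℕ in atTop, ∃ Q : Matrix (Fin n → (A × B) × X) (Fin n → (A × B) × X) ℂ,
      Q.IsHermitian ∧ Q * Q = Q ∧ (∀ g, Q * pm _ g = pm _ g * Q) ∧ tr (tp n Ω) (1 - Q) ≤ 1 / 8 ∧
      Q.trace.re ≤ rexp (n * (-tr Ω (sp (blockDiagonal fun j => u j ⊗ₖ v j) fun z =>
        log (a z.2 z.1.1 * b z.2 z.1.2)) + 2 * γ)) ∧
      SC (trX (k2 Q 1 * orb (pv _) (v2 1) * (k2 Q 1)ᴴ)) := by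
  set U := blockDiagonal fun j => u j ⊗ₖ v j with hU
  have uU : Uni U := Uni.block fun j => (hu j).kron (hv j)
  let p : (A × B) × X → ℝ := fun z => ((Uᴴ * Ω * U) z z).re
  have p0 : ∀ z, 0 ≤ p z := fun z =>
    (Complex.nonneg_iff.1 (hΩ.1.conjTranspose_mul_mul_same U).diag_nonneg).1
  have p1 : ∑ z, p z = 1 := by
    have := tr_mul_sp Ω U fun _ => 1
    rw [sp_const uU, one_smul, Matrix.mul_one, hΩ.2] at this
    simpa using this.symm
  filter_upwards [cheb p0 p1 (fun z => -log (a z.2 z.1.1)) hγ (show (0 : ℝ) < 1 / 16 by norm_num),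
    cheb p0 p1 (fun z => -log (b z.2 z.1.2)) hγ (show (0 : ℝ) < 1 / 16 by norm_num)] with n c1 c2
  set ma := ∑ z, p z * -log (a z.2 z.1.1) with hma
  set mb := ∑ z, p z * -log (b z.2 z.1.2) with hmb
  let f : (Fin n → X) → (Fin n → A) → ℝ := fun s x =>
    if |∑ i, -log (a (s i) (x i)) - n * ma| ≤ γ * n then 1 else 0
  let h : (Fin n → X) → (Fin n → B) → ℝ := fun s x =>
    if |∑ i, -log (b (s i) (x i)) - n * mb| ≤ γ * n then 1 else 0
  let g : (Fin n → (A × B) × X) → ℝ := fun z => f (fun i => (z i).2) (fun i => (z i).1.1) *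
    h (fun i => (z i).2) fun i => (z i).1.2
  refine ⟨sp (tp n U) g, sp_herm _ _, ?_, sp_comm fun ϖ z => ?_, ?_, ?_, ?_⟩
  · rw [sp_mul uU.tp]
    congr 1
    ext z
    simp only [g, f, h]
    split_ifs <;> simp
  · simp only [g, f, h, Function.comp, Equiv.sum_comp ϖ fun i => -log (a (z i).2 (z i).1.1),
      Equiv.sum_comp ϖ fun i => -log (b (z i).2 (z i).1.2)]
  · rw [← one_smul ℝ (1 : Matrix _ _ ℂ), ← sp_const uU.tp, sp_sub, tr_tp_sp hΩ.1]
    refine le_trans (Finset.sum_le_sum fun z _ => ?_)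
      (Finset.sum_add_distrib.le.trans ((add_le_add c1 c2).trans (by norm_num)))
    rw [← mul_add]
    refine mul_le_mul_of_nonneg_left ?_ (Finset.prod_nonneg fun _ _ => p0 _)
    simp only [g, f, h]
    split_ifs <;> simp
  · have e : -tr Ω (sp U fun z => log (a z.2 z.1.1 * b z.2 z.1.2)) = ma + mb := by
      rw [tr, tr_mul_sp, ← Finset.sum_add_distrib, ← Finset.sum_neg_distrib]
      refine Finset.sum_congr rfl fun z _ => ?_
      rw [Real.log_mul (a0 _ _).ne' (b0 _ _).ne']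
      ring
    have e1 : ∑ z : Fin n → (A × B) × X, ∏ i, a (z i).2 (z i).1.1 * b (z i).2 (z i).1.2 ≤ 1 := by
      rw [← Fintype.prod_sum fun (_ : Fin n) (z : (A × B) × X) => a z.2 z.1.1 * b z.2 z.1.2]
      exact Finset.prod_le_one (fun _ _ => Finset.sum_nonneg fun _ _ =>
        (mul_pos (a0 _ _) (b0 _ _)).le) fun _ _ => ab
    rw [e, sp_trace uU.tp, Complex.ofReal_re]
    refine le_trans ?_ (mul_le_of_le_one_right (exp_pos _).le e1)
    rw [Finset.mul_sum]
    refine Finset.sum_le_sum fun z _ => ?_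
    have pos : 0 < ∏ i, a (z i).2 (z i).1.1 * b (z i).2 (z i).1.2 :=
      Finset.prod_pos fun _ _ => mul_pos (a0 _ _) (b0 _ _)
    simp only [g, f, h]
    split_ifs with h1 h2
    · rw [← exp_log pos, ← exp_add, mul_one, log_prod fun _ _ => (mul_pos (a0 _ _) (b0 _ _)).ne']
      refine one_le_exp ?_
      simp only [Real.log_mul (a0 _ _).ne' (b0 _ _).ne', Finset.sum_add_distrib]
      rw [Finset.sum_neg_distrib, abs_le] at h1 h2
      linarith [h1.2, h2.2]
    all_goals simpa using (mul_pos (exp_pos _) pos).le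
  · have e : tp n U = blk fun s => cut (tpF fun i => u (s i)) (tpF fun i => v (s i)) := by
      rw [tp_eq, hU, tpF_blk]
      simp only [tpF_kron]
    rw [sp, rd_blk, e, blk_ct, blk_mul, blk_mul]
    simp only [cut_ct, cut_mul]
    exact sc_orb _ _

end Pool.Agent.MP_47bb2a_mp.H20
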