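import Pool.Agent.MP_47bb2a_mp.H20.Ent

/-! A spectral window of the average of rank one projectors over a group orbit. -/

open scoped ComplexOrder MatrixOrder ComplexConjugate
open Matrix

namespace Pool.Agent.MP_47bb2a_mp.H20

open H97

variable {J Γ : Type*} [Fintype J] [DecidableEq J] [Fintype Γ] [Group Γ]

/-- The average of the projectors on the orbit of a vector. -/
noncomputable def orb (V : Γ → Matrix J J ℂ) (v : J → ℂ) : Matrix J J ℂ :=
  (Fintype.card Γ : ℝ)⁻¹ • ∑ g, vecMulVec (V g *ᵥ v) (star (V g *ᵥ v))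

omit [DecidableEq J] in
theorem conj_vv {K : Type*} (Y : Matrix K J ℂ) (v : J → ℂ) :
    Y * vecMulVec v (star v) * Yᴴ = vecMulVec (Y *ᵥ v) (star (Y *ᵥ v)) := by
  rw [mul_vecMulVec, vecMulVec_mul, star_mulVec]

omit [DecidableEq J] in
theorem trace_vv (v : J → ℂ) : (vecMulVec v (star v)).trace.re = nsq v := by
  rw [trace_vecMulVec, dotProduct_comm, dot_self, Complex.ofReal_re]

theorem Uni.nsq {U : Matrix J J ℂ} (h : Uni U) (v : J → ℂ) : nsq (U *ᵥ v) = nsq v := by
  rw [← q_ct_mul, h, q_one]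

omit [DecidableEq J] [Group Γ] in
theorem orb_psd (V : Γ → Matrix J J ℂ) (v : J → ℂ) : (orb V v).PosSemidef :=
  psd_rsmul (posSemidef_sum _ fun _ _ => posSemidef_vecMulVec_self_star _) (by positivity)

omit [DecidableEq J] [Group Γ] in
theorem conj_orb {K : Type*} (V : Γ → Matrix J J ℂ) (v : J → ℂ) (Y : Matrix K J ℂ) :
    Y * orb V v * Yᴴ = (Fintype.card Γ : ℝ)⁻¹ •
      ∑ g, vecMulVec ((Y * V g) *ᵥ v) (star ((Y * V g) *ᵥ v)) := by
  simp only [orb, Matrix.mul_smul, Matrix.smul_mul, Matrix.mul_sum, Matrix.sum_mul, conj_vv,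
    mulVec_mulVec]

variable {V : Γ → Matrix J J ℂ} {v : J → ℂ}

theorem orb_comm (hU : ∀ g, Uni (V g)) (hm : ∀ g h, V (g * h) = V g * V h) (h : Γ) :
    orb V v * V h = V h * orb V v := by
  have : V h * orb V v * (V h)ᴴ = orb V v := by
    rw [conj_orb, orb]
    simp only [← hm]
    exact congrArg _ (Fintype.sum_equiv (Equiv.mulLeft h) _ _ fun _ => rfl)
  nth_rewrite 1 [← this]
  rw [Matrix.mul_assoc, hU h, Matrix.mul_one]

theorem trace_conj_orb (hU : ∀ g, Uni (V g)) {Y : Matrix J J ℂ} (hY : ∀ g, Y * V g = V g * Y) :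
    (Y * orb V v * Yᴴ).trace.re = nsq (Y *ᵥ v) := by
  have : (0 : ℝ) < Fintype.card Γ := by exact_mod_cast Fintype.card_pos
  rw [conj_orb, trace_smul, trace_sum, Complex.smul_re, Complex.re_sum]
  simp only [trace_vv, hY, ← mulVec_mulVec, (hU _).nsq, Finset.sum_const, Finset.card_univ,
    nsmul_eq_mul, smul_eq_mul]
  field_simp

omit [DecidableEq J] in
theorem re_dot_le {a b : J → ℂ} {c : ℝ} (hc : 0 ≤ c) (h : nsq a * nsq b ≤ c ^ 2) :
    (star a ⬝ᵥ b).re ≤ c :=
  (Complex.re_le_norm _).trans (abs_le_of_sq_le_sq' ((cs a b).trans h) hc).2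

omit [DecidableEq J] in
theorem trace_conj_le {K : Type*} [Fintype K] (Y : Matrix K J ℂ) {M N : Matrix J J ℂ}
    (h : (N - M).PosSemidef) : (Y * M * Yᴴ).trace.re ≤ (Y * N * Yᴴ).trace.re := by
  have := (Complex.nonneg_iff.1 (h.mul_mul_conjTranspose_same Y).trace_nonneg).1
  rw [Matrix.mul_sub, Matrix.sub_mul, trace_sub, Complex.sub_re] at this
  linarith

theorem window (hU : ∀ g, Uni (V g)) (hm : ∀ g h, V (g * h) = V g * V h) {O s r F R : ℝ}
    (hs : 0 < s) (hr : 0 < r) (hO : tr (orb V v) (orb V v) ≤ O) {φ : J → ℂ}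
    {Y Y' : Matrix J J ℂ} (hY : ∀ g, Y * V g = V g * Y) (hY' : ∀ g, Y' * V g = V g * Y')
    (hc : ∀ x, nsq (Y *ᵥ x) ≤ nsq x) (hφ : Y'ᴴ *ᵥ φ = φ) (hF : nsq φ ≤ F)
    (hR : (Y' * Y * (Y' * Y)ᴴ).trace.re ≤ R) (h1 : 3 / 4 ≤ (star φ ⬝ᵥ Y *ᵥ v).re)
    (h2 : 16 * F * O ≤ s * r) (h3 : 16 * F * R * s ≤ r) :
    ∃ S : Matrix J J ℂ, S.PosSemidef ∧ (orb V v - S).PosSemidef ∧
      ((s * r) • (1 : Matrix J J ℂ) - S).PosSemidef ∧ S.trace.re ≤ r / s * O ∧
      ∀ (T : Matrix J J ℂ) (ψ : J → ℂ), (∀ g, T * V g = V g * T) → Tᴴ *ᵥ ψ = φ →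
        1 / 16 ≤ nsq ψ * (T * Y * S * (T * Y)ᴴ).trace.re := by
  obtain ⟨U, d, hu, hd, e⟩ := exists_sp_psd (orb_psd V v)
  have F0 : 0 ≤ F := (nsq_nonneg _).trans hF
  have com : ∀ (f : ℝ → ℝ) g, sp U (fun i => f (d i)) * V g = V g * sp U fun i => f (d i) :=
    fun f g => sp_intertwine hu hu (e ▸ orb_comm hU hm g) f
  have key : ∀ (f : ℝ → ℝ) (T : Matrix J J ℂ), (∀ g, T * V g = V g * T) →
      (T * sp U (fun i => f (d i) * d i * f (d i)) * Tᴴ).trace.re =
        nsq (T *ᵥ sp U (fun i => f (d i)) *ᵥ v) := fun f T hT => by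
    rw [mulVec_mulVec, ← trace_conj_orb hU fun g => by
      rw [Matrix.mul_assoc, com, ← Matrix.mul_assoc, hT, Matrix.mul_assoc], e, conjTranspose_mul,
      (sp_herm _ _).eq, ← sp_mul hu, ← sp_mul hu]
    simp only [Matrix.mul_assoc]
  have O2 : ∑ i, d i * d i ≤ O := by
    rwa [e, tr, sp_mul hu, sp_trace hu, Complex.ofReal_re] at hO
  let lo : ℝ → ℝ := fun x => if x < s / r then 1 else 0
  let hi : ℝ → ℝ := fun x => if s / r ≤ x ∧ s * r < x then 1 else 0
  let mid : ℝ → ℝ := fun x => if s / r ≤ x ∧ x ≤ s * r then 1 else 0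
  have tot : sp U (fun i => lo (d i)) + sp U (fun i => hi (d i)) + sp U (fun i => mid (d i)) = 1 := by
    rw [sp_add, sp_add, ← one_smul ℝ (1 : Matrix J J ℂ), ← sp_const hu]
    congr 1
    ext i
    simp only [lo, hi, mid]
    split_ifs <;> grind
  have sr : 0 < s * r := mul_pos hs hr
  have b1 : (star φ ⬝ᵥ Y *ᵥ sp U (fun i => hi (d i)) *ᵥ v).re ≤ 1 / 4 := by
    refine re_dot_le (by norm_num) ?_
    have k := key hi 1 (by simp)
    rw [Matrix.one_mul, conjTranspose_one, Matrix.mul_one, one_mulVec, sp_trace hu,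
      Complex.ofReal_re] at k
    have k2 : ∑ i, hi (d i) * d i * hi (d i) ≤ O / (s * r) := by
      rw [le_div_iff₀ sr, Finset.sum_mul]
      refine le_trans (Finset.sum_le_sum fun i _ => ?_) O2
      simp only [hi]
      split_ifs with h
      · nlinarith [hd i, h.2]
      · nlinarith [hd i]
    have k3 := mul_le_mul hF ((hc _).trans (k ▸ k2)) (nsq_nonneg _) F0
    refine k3.trans ?_
    rw [← mul_div_assoc, div_le_iff₀ sr]
    linarith
  have b2 : (star φ ⬝ᵥ Y *ᵥ sp U (fun i => lo (d i)) *ᵥ v).re ≤ 1 / 4 := by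
    rw [← hφ, star_mulVec, conjTranspose_conjTranspose, ← dotProduct_mulVec, mulVec_mulVec]
    refine re_dot_le (by norm_num) ?_
    have k := key lo (Y' * Y) fun g => by
      rw [Matrix.mul_assoc, hY, ← Matrix.mul_assoc, hY', Matrix.mul_assoc]
    have k2 := trace_conj_le (Y' * Y) (sp_le U (d := fun i => lo (d i) * d i * lo (d i))
      (e := fun _ => s / r) fun i => by
        simp only [lo]
        split_ifs with h
        · linarith
        · simpa using (div_pos hs hr).le)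
    rw [k, sp_const hu, Matrix.mul_smul, Matrix.mul_one, Matrix.smul_mul, trace_smul,
      Complex.smul_re, smul_eq_mul] at k2
    have k3 := mul_le_mul hF (k2.trans (mul_le_mul_of_nonneg_left hR (div_pos hs hr).le))
      (nsq_nonneg _) F0
    refine k3.trans ?_
    rw [div_mul_eq_mul_div, ← mul_div_assoc, div_le_iff₀ hr]
    linarith
  have b3 : 1 / 4 ≤ (star φ ⬝ᵥ Y *ᵥ sp U (fun i => mid (d i)) *ᵥ v).re := by
    rw [← one_mulVec v, ← tot, add_mulVec, add_mulVec, mulVec_add, mulVec_add, dotProduct_add,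
      dotProduct_add, Complex.add_re, Complex.add_re] at h1
    linarith
  refine ⟨sp U fun i => mid (d i) * d i * mid (d i), sp_psd _ fun i => ?_, ?_, ?_, ?_,
    fun T ψ hT hψ => ?_⟩
  · simp only [mid]
    split_ifs <;> simp [hd i]
  · rw [e]
    refine sp_le _ fun i => ?_
    simp only [mid]
    split_ifs <;> simp [hd i]
  · rw [← sp_const hu]
    refine sp_le _ fun i => ?_
    simp only [mid]
    split_ifs with h
    · simpa using h.2
    · simpa using sr.le
  · rw [sp_trace hu, Complex.ofReal_re]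
    refine le_trans ?_ (mul_le_mul_of_nonneg_left O2 (div_pos hr hs).le)
    rw [Finset.mul_sum]
    refine Finset.sum_le_sum fun i _ => ?_
    simp only [mid]
    split_ifs with h
    · have := (div_le_iff₀ hr).1 h.1
      rw [div_mul_eq_mul_div, le_div_iff₀ hs]
      nlinarith [hd i]
    · simpa using mul_nonneg (div_pos hr hs).le (mul_self_nonneg (d i))
  · rw [key mid (T * Y) fun g => by
      rw [Matrix.mul_assoc, hY, ← Matrix.mul_assoc, hT, Matrix.mul_assoc], ← mulVec_mulVec]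
    refine le_trans ?_ (cs _ _)
    rw [← hψ, star_mulVec, conjTranspose_conjTranspose, ← dotProduct_mulVec] at b3
    have := b3.trans (Complex.re_le_norm _)
    nlinarith

end Pool.Agent.MP_47bb2a_mp.H20
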